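import Pool.Agent.V11111.CC.Defs
import Pool.Agent.Helper183.Gar.Mean

set_option autoImplicit false
open scoped InnerProductSpace ENNReal ComplexConjugate

noncomputable section

namespace V11111.CC

section sqrt

variable {H : Type} [NormedAddCommGroup H] [InnerProductSpace ℂ H] [CompleteSpace H]

theorem sqrt1 (a : H →L[ℂ] H) (ha : star a = a) (h : ‖a - 1‖ ≤ 1 / 2) :
    ∃ r s : H →L[ℂ] H, star r = r ∧ star s = s ∧ r * r = a ∧ r * s = 1 ∧ s * r = 1 ∧
      ‖r - 1‖ ≤ ‖a - 1‖ ∧ ‖s - 1‖ ≤ 2 * ‖a - 1‖ ∧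
      ∀ t : H →L[ℂ] H, t * a = a * t → t * r = r * t ∧ t * s = s * t := by
  have hsa : IsSelfAdjoint a := ha
  have hsp : ∀ t ∈ spectrum ℝ a, |t - 1| ≤ ‖a - 1‖ := by
    intro t ht
    have h1 : t - 1 ∈ spectrum ℝ (a - 1) := by
      have h2 : a - 1 = a + algebraMap ℝ (H →L[ℂ] H) (-1) := by
        simp [sub_eq_add_neg]
      rw [h2]
      have h3 := (spectrum.add_mem_add_iff (R := ℝ) (a := a) (r := t) (s := -1)).mpr ht
      rw [sub_eq_add_neg]
      first
      | exact h3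
      | rw [add_comm a]; exact h3
    have h4 := spectrum.norm_le_norm_mul_of_mem h1
    have h5 : ‖(1 : H →L[ℂ] H)‖ ≤ 1 := ContinuousLinearMap.norm_id_le
    rw [Real.norm_eq_abs] at h4
    refine h4.trans ?_
    nlinarith [norm_nonneg (a - 1)]
  have hpos : ∀ t ∈ spectrum ℝ a, 1 / 2 ≤ t := by
    intro t ht
    have h1 := (hsp t ht).trans h
    rw [abs_le] at h1
    linarith [h1.1]
  have hc1 : ContinuousOn (fun t : ℝ => √t) (spectrum ℝ a) := Real.continuous_sqrt.continuousOn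
  have hc2 : ContinuousOn (fun t : ℝ => (√t)⁻¹) (spectrum ℝ a) := by
    refine Real.continuous_sqrt.continuousOn.inv₀ ?_
    intro t ht
    have := hpos t ht
    exact (Real.sqrt_pos.mpr (by linarith)).ne'
  refine ⟨cfc (fun t : ℝ => √t) a, cfc (fun t : ℝ => (√t)⁻¹) a, ?_, ?_, ?_, ?_, ?_, ?_, ?_, ?_⟩
  · exact (cfc_predicate (fun t : ℝ => √t) a : IsSelfAdjoint _)
  · exact (cfc_predicate (fun t : ℝ => (√t)⁻¹) a : IsSelfAdjoint _)
  · rw [← cfc_mul (fun t : ℝ => √t) (fun t : ℝ => √t) a hc1 hc1]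
    conv_rhs => rw [← cfc_id ℝ a]
    apply cfc_congr
    intro t ht
    have := hpos t ht
    simp only [id]
    exact Real.mul_self_sqrt (by linarith)
  · rw [← cfc_mul (fun t : ℝ => √t) (fun t : ℝ => (√t)⁻¹) a hc1 hc2]
    rw [← cfc_one ℝ a]
    apply cfc_congr
    intro t ht
    have := hpos t ht
    simp only [Pi.one_apply]
    exact mul_inv_cancel₀ (Real.sqrt_pos.mpr (by linarith)).ne'
  · rw [← cfc_mul (fun t : ℝ => (√t)⁻¹) (fun t : ℝ => √t) a hc2 hc1]
    rw [← cfc_one ℝ a]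
    apply cfc_congr
    intro t ht
    have := hpos t ht
    simp only [Pi.one_apply]
    exact inv_mul_cancel₀ (Real.sqrt_pos.mpr (by linarith)).ne'
  · rw [← cfc_one ℝ a, ← cfc_sub (fun t : ℝ => √t) (1 : ℝ → ℝ) a hc1 continuousOn_const]
    refine norm_cfc_le (norm_nonneg _) ?_
    intro t ht
    have h1 := hpos t ht
    have h2 := hsp t ht
    rw [cfc_one ℝ a]
    refine le_trans ?_ h2
    simp only [Pi.one_apply]
    rw [Real.norm_eq_abs]
    have h3 : t - 1 = (√t - 1) * (√t + 1) := by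
      have := Real.mul_self_sqrt (show 0 ≤ t by linarith)
      nlinarith
    rw [h3, abs_mul]
    have h4 : 1 ≤ |√t + 1| := by
      rw [abs_of_nonneg (by positivity)]
      linarith [Real.sqrt_nonneg t]
    nlinarith [abs_nonneg (√t - 1)]
  · rw [← cfc_one ℝ a, ← cfc_sub (fun t : ℝ => (√t)⁻¹) (1 : ℝ → ℝ) a hc2 continuousOn_const]
    refine norm_cfc_le (by positivity) ?_
    intro t ht
    have h1 := hpos t ht
    have h2 := hsp t ht
    rw [cfc_one ℝ a]
    refine le_trans ?_ (mul_le_mul_of_nonneg_left h2 (by norm_num))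
    simp only [Pi.one_apply]
    rw [Real.norm_eq_abs]
    have hs0 : 0 < √t := Real.sqrt_pos.mpr (by linarith)
    have hsq : √t * √t = t := Real.mul_self_sqrt (show 0 ≤ t by linarith)
    have h3 : (√t)⁻¹ - 1 = - ((t - 1) * ((√t)⁻¹ * (√t + 1)⁻¹)) := by
      field_simp
      nlinarith
    rw [h3, abs_neg, abs_mul, mul_comm 2]
    refine mul_le_mul_of_nonneg_left ?_ (abs_nonneg _)
    rw [abs_of_nonneg (by positivity), ← mul_inv]
    rw [inv_le_comm₀ (by positivity) (by norm_num)]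
    nlinarith
  · intro t ht
    have hcm : Commute a t := ht.symm
    exact ⟨(hsa.commute_cfc hcm (fun t : ℝ => √t)).symm,
      (hsa.commute_cfc hcm (fun t : ℝ => (√t)⁻¹)).symm⟩


/-- unitary part of an operator near the identity -/
theorem polar1 (s : H →L[ℂ] H) (h : ‖s - 1‖ ≤ 1 / 8) :
    ∃ v w : H →L[ℂ] H, v = s * w ∧ star w = w ∧ star v * v = 1 ∧ v * star v = 1 ∧
      ‖v - 1‖ ≤ 8 * ‖s - 1‖ ∧ ∀ t : H →L[ℂ] H, t * (star s * s) = (star s * s) * t → t * w = w * t := by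
  have h1 : ‖(1 : H →L[ℂ] H)‖ ≤ 1 := ContinuousLinearMap.norm_id_le
  have hs : ‖s‖ ≤ 1 + ‖s - 1‖ := by
    calc ‖s‖ = ‖(s - 1) + 1‖ := by congr 1; abel
      _ ≤ ‖s - 1‖ + ‖(1 : H →L[ℂ] H)‖ := norm_add_le _ _
      _ ≤ _ := by linarith
  have hst : ‖star s - 1‖ = ‖s - 1‖ := by
    rw [← norm_star (s - 1)]
    simp
  have ha : ‖star s * s - 1‖ ≤ 3 * ‖s - 1‖ := by
    have h2 : star s * s - 1 = (star s - 1) * s + (s - 1) := by noncomm_ring
    rw [h2]
    refine (norm_add_le _ _).trans ?_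
    have h3 := norm_mul_le (star s - 1) s
    rw [hst] at h3
    nlinarith [norm_nonneg (s - 1), norm_nonneg s]
  obtain ⟨r, w, hr, hw, hrr, hrw, hwr, -, hw1, hcomm⟩ :=
    sqrt1 (star s * s) (by simp) (ha.trans (by linarith))
  have hww : w * w * (star s * s) = 1 := by
    rw [← hrr, mul_assoc, ← mul_assoc w r r, hwr, one_mul, hwr]
  have hww' : (star s * s) * (w * w) = 1 := by
    rw [← hrr, mul_assoc, ← mul_assoc r w w, hrw, one_mul, hrw]
  have hsw : (star s * s) * w = w * (star s * s) := (hcomm (star s * s) rfl).2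
  have hvv : star (s * w) * (s * w) = 1 := by
    rw [star_mul, hw, mul_assoc, ← mul_assoc (star s) s w, hsw, ← mul_assoc]
    exact hww
  refine ⟨s * w, w, rfl, hw, hvv, ?_, ?_, fun t ht => (hcomm t ht).2⟩
  · -- `s` is invertible
    have hsu : IsUnit s := by
      have h2 : ‖1 - s‖ < 1 := by
        rw [norm_sub_rev]
        linarith
      have h3 := isUnit_one_sub_of_norm_lt_one h2
      simpa using h3
    have hwu : IsUnit w := ⟨⟨w, r, hwr, hrw⟩, rfl⟩
    have hu : IsUnit (s * w) := hsu.mul hwu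
    obtain ⟨u, hu⟩ := hu
    have h4 : star (s * w) = (↑u⁻¹ : H →L[ℂ] H) := by
      have h5 : star (s * w) * (u : H →L[ℂ] H) = 1 := by rw [hu]; exact hvv
      calc star (s * w) = star (s * w) * ((u : H →L[ℂ] H) * (↑u⁻¹ : H →L[ℂ] H)) := by
            rw [Units.mul_inv, mul_one]
        _ = (↑u⁻¹ : H →L[ℂ] H) := by rw [← mul_assoc, h5, one_mul]
    rw [h4, ← hu, Units.mul_inv]
  · have h2 : s * w - 1 = (s - 1) * w + (w - 1) := by noncomm_ring
    have hwn : ‖w‖ ≤ 2 := by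
      calc ‖w‖ = ‖(w - 1) + 1‖ := by congr 1; abel
        _ ≤ ‖w - 1‖ + ‖(1 : H →L[ℂ] H)‖ := norm_add_le _ _
        _ ≤ 2 := by linarith
    rw [h2]
    refine (norm_add_le _ _).trans ?_
    have h3 := norm_mul_le (s - 1) w
    nlinarith [norm_nonneg (s - 1), norm_nonneg w]

end sqrt

end V11111.CC
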