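import Pool.Agent.V11111.CC.Ulam
import Pool.Agent.H759R2.Kad.Props5
import Pool.Agent.H710R2.DP.Defs
import Pool.Agent.H956R2.Kad4.Comp
import Pool.Agent.H720R2.Kad4.Join
import Pool.Agent.H85R2.Kad4.Polar
import Pool.Agent.H849R2.Kad4.F4

/-!
Traces on the projections of a factor and comparison of traces of close algebras.
-/

set_option autoImplicit false
open scoped InnerProductSpace ENNReal ComplexConjugate

noncomputable section

namespace V11111.CC

open H759R2.Kad H710R2.DP

variable {H : Type} [NormedAddCommGroup H] [InnerProductSpace ℂ H] [CompleteSpace H]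

/-- near inclusion -/
def Near (γ : ℝ) (P Q : VonNeumannAlgebra H) : Prop :=
  ∀ x ∈ P, ‖x‖ ≤ 1 → ∃ y ∈ Q, ‖x - y‖ ≤ γ

/-- trace on projections -/
structure PTr (P : VonNeumannAlgebra H) (t : (H →L[ℂ] H) → ℝ≥0∞) : Prop where
  add : ∀ p ∈ P, ∀ q ∈ P, IsPr p → IsPr q → p * q = 0 → t (p + q) = t p + t q
  eqv : ∀ v ∈ P, IsPr (star v * v) → t (star v * v) = t (v * star v)
  faithful : ∀ p ∈ P, IsPr p → t p = 0 → p = 0

theorem prn {p : H →L[ℂ] H} (h : IsPr p) : ‖p‖ ≤ 1 := by
  have h1 := CStarRing.norm_star_mul_self (x := p)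
  rw [h.1, h.2] at h1
  nlinarith [norm_nonneg p]

theorem pr_sub {p q : H →L[ℂ] H} (hp : IsPr p) (hq : IsPr q) (h : q * p = p) :
    IsPr (q - p) ∧ p * (q - p) = 0 ∧ p * q = p := by
  have h' : p * q = p := by
    have := congrArg star h
    rwa [star_mul, hp.1, hq.1] at this
  refine ⟨⟨by rw [star_sub, hp.1, hq.1], ?_⟩, ?_, h'⟩
  · rw [sub_mul, mul_sub, mul_sub, hq.2, h, h', hp.2]
    abel
  · rw [mul_sub, h', hp.2, sub_self]

theorem pr_add {p q : H →L[ℂ] H} (hp : IsPr p) (hq : IsPr q) (h : p * q = 0) :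
    IsPr (p + q) := by
  have h' : q * p = 0 := by
    have := congrArg star h
    rwa [star_mul, hp.1, hq.1, star_zero] at this
  refine ⟨by rw [star_add, hp.1, hq.1], ?_⟩
  rw [add_mul, mul_add, mul_add, hp.2, hq.2, h, h']
  abel

/-- `v` with a projection as range is a partial isometry -/
theorem pi_of {v : H →L[ℂ] H} (h : IsPr (v * star v)) : v * star v * v = v := by
  have h1 : (v * star v * v - v) * star (v * star v * v - v) = 0 := by
    have e1 : star (v * star v * v - v) = star v * (v * star v) - star v := by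
      rw [star_sub, star_mul, star_mul, star_star]
    rw [e1]
    have e2 := h.2
    calc (v * star v * v - v) * (star v * (v * star v) - star v) =
        (v * star v) * (v * star v) * (v * star v) - (v * star v) * (v * star v) -
          (v * star v) * (v * star v) + v * star v := by noncomm_ring
      _ = 0 := by rw [e2, e2]; abel
  have h2 := CStarRing.norm_self_mul_star (x := v * star v * v - v)
  rw [h1, norm_zero] at h2
  have h3 : ‖v * star v * v - v‖ = 0 := by
    have := h2.symm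
    simpa using this
  exact sub_eq_zero.mp (norm_eq_zero.mp h3)

theorem pr_of {v : H →L[ℂ] H} (h : IsPr (v * star v)) : IsPr (star v * v) := by
  refine ⟨by simp, ?_⟩
  have := pi_of h
  calc star v * v * (star v * v) = star v * (v * star v * v) := by noncomm_ring
    _ = star v * v := by rw [this]

theorem pr_of' {v : H →L[ℂ] H} (h : IsPr (star v * v)) : IsPr (v * star v) := by
  have := pr_of (v := star v) (by rwa [star_star])
  rwa [star_star] at this

theorem pi_of' {v : H →L[ℂ] H} (h : IsPr (star v * v)) : v * star v * v = v := pi_of (pr_of' h)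

variable {P Q : VonNeumannAlgebra H} {t : (H →L[ℂ] H) → ℝ≥0∞}

theorem PTr.mono (ht : PTr P t) {p q : H →L[ℂ] H} (hpP : p ∈ P) (hqP : q ∈ P) (hp : IsPr p)
    (hq : IsPr q) (h : q * p = p) : t p ≤ t q := by
  obtain ⟨h1, h2, -⟩ := pr_sub hp hq h
  have h3 := ht.add p hpP (q - p) (sub_mem hqP hpP) hp h1 h2
  rw [add_sub_cancel] at h3
  rw [h3]
  exact le_self_add

theorem PTr.zero (ht : PTr P t) (h : t 0 ≠ ⊤) : t 0 = 0 := by
  have h0 : IsPr (0 : H →L[ℂ] H) := ⟨star_zero _, mul_zero _⟩
  have h1 := ht.add 0 (zero_mem _) 0 (zero_mem _) h0 h0 (mul_zero _)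
  rw [add_zero] at h1
  have h2 : t 0 + 0 = t 0 + t 0 := by rw [add_zero]; exact h1
  exact ((ENNReal.add_right_inj h).mp h2).symm

theorem subeq {f1 f2 x : H →L[ℂ] H} (h1Q : f1 ∈ Q) (hxQ : x ∈ Q)
    (h1 : IsPr f1) (hx1 : f1 * x = x) (hx2 : x * f2 = x) (hn : ‖x * star x - f1‖ ≤ 1 / 2) :
    ∃ v ∈ Q, v * star v = f1 ∧ v * f2 = v := by
  set a := x * star x + (1 - f1) with ha
  have hx1' : star x * f1 = star x := by
    have := congrArg star hx1
    rwa [star_mul, h1.1] at this
  have haQ : a ∈ Q := add_mem (mul_mem hxQ (star_mem hxQ)) (sub_mem (one_mem _) h1Q)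
  have has : star a = a := by
    rw [ha, star_add, star_sub, star_one, h1.1, star_mul, star_star]
  have han : ‖a - 1‖ ≤ 1 / 2 := by
    have : a - 1 = x * star x - f1 := by rw [ha]; abel
    rwa [this]
  obtain ⟨r, s, hr, hs, hrr, hrs, hsr, -, -, hcomm⟩ := sqrt1 a has han
  have hsQ : s ∈ Q := mem_of_comm Q _ fun T hT => (hcomm T (by
    rw [VonNeumannAlgebra.mem_commutant_iff] at hT
    exact (hT a haQ).symm)).2
  have haf : a * f1 = x * star x := by
    rw [ha, add_mul, sub_mul, one_mul, h1.2, sub_self, add_zero, mul_assoc, hx1']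
  have hfa : f1 * a = x * star x := by
    rw [ha, mul_add, mul_sub, mul_one, h1.2, sub_self, add_zero, ← mul_assoc, hx1]
  have hfs : f1 * s = s * f1 := (hcomm f1 (by rw [hfa, haf])).2
  refine ⟨s * x, mul_mem hsQ hxQ, ?_, by rw [mul_assoc, hx2]⟩
  rw [star_mul, hs]
  calc s * x * (star x * s) = s * (x * star x) * s := by noncomm_ring
    _ = s * (a * f1) * s := by rw [haf]
    _ = s * a * (f1 * s) := by noncomm_ring
    _ = (s * (r * r) * s) * f1 := by rw [hfs, hrr]; noncomm_ring
    _ = f1 := by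
        have : s * (r * r) * s = 1 := by
          rw [← mul_assoc, hsr, one_mul, hrs]
        rw [this, one_mul]

theorem PTr.le_of (ht : PTr Q t) {f1 f2 x : H →L[ℂ] H} (h1Q : f1 ∈ Q) (h2Q : f2 ∈ Q)
    (hxQ : x ∈ Q) (h1 : IsPr f1) (h2 : IsPr f2) (hx1 : f1 * x = x) (hx2 : x * f2 = x)
    (hn : ‖x * star x - f1‖ ≤ 1 / 2) : t f1 ≤ t f2 := by
  obtain ⟨v, hvQ, hv1, hv2⟩ := subeq h1Q hxQ h1 hx1 hx2 hn
  have hp : IsPr (v * star v) := by rw [hv1]; exact h1
  have hp' := pr_of hp
  rw [← hv1, ← ht.eqv v hvQ hp']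
  refine ht.mono (mul_mem (star_mem hvQ) hvQ) h2Q hp' h2 ?_
  have h3 : f2 * star v = star v := by
    have := congrArg star hv2
    rwa [star_mul, h2.1] at this
  rw [← mul_assoc, h3]

theorem PTr.near_le (ht : PTr Q t) {f g : H →L[ℂ] H} (hf : f ∈ Q) (hg : g ∈ Q) (h1 : IsPr f)
    (h2 : IsPr g) (hn : ‖f - g‖ ≤ 1 / 2) : t f ≤ t g := by
  refine ht.le_of hf hg (mul_mem hf hg) h1 h2 ?_ ?_ ?_
  · rw [← mul_assoc, h1.2]
  · rw [mul_assoc, h2.2]
  · rw [star_mul, h1.1, h2.1]
    have e : f * g * (g * f) - f = f * (g - f) * f := by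
      calc f * g * (g * f) - f = f * (g * g) * f - f := by noncomm_ring
        _ = f * g * f - f * f * f := by rw [h2.2, h1.2, h1.2]
        _ = _ := by noncomm_ring
    rw [e]
    refine (norm_mul_le _ _).trans ?_
    have e1 := norm_mul_le f (g - f)
    have e2 := (prn h1)
    rw [norm_sub_rev] at hn
    nlinarith [norm_nonneg f, norm_nonneg (g - f), norm_nonneg (f * (g - f))]

theorem PTr.near_eq (ht : PTr Q t) {f g : H →L[ℂ] H} (hf : f ∈ Q) (hg : g ∈ Q) (h1 : IsPr f)
    (h2 : IsPr g) (hn : ‖f - g‖ ≤ 1 / 2) : t f = t g :=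
  le_antisymm (ht.near_le hf hg h1 h2 hn) (ht.near_le hg hf h2 h1 (by rwa [norm_sub_rev]))

/-- transfer of equivalences -/
theorem PTr.transfer (ht : PTr Q t) {γ : ℝ} (hγ : γ ≤ 1 / 50) (hPQ : Near γ P Q)
    {v f1 f2 : H →L[ℂ] H} (hvP : v ∈ P) (hv : IsPr (v * star v)) (h1Q : f1 ∈ Q) (h2Q : f2 ∈ Q)
    (h1 : IsPr f1) (h2 : IsPr f2) (hn1 : ‖f1 - v * star v‖ ≤ 1 / 50)
    (hn2 : ‖f2 - star v * v‖ ≤ 1 / 50) : t f1 ≤ t f2 := by
  have hv' := pr_of hv
  have hpi := pi_of hv
  have hvn : ‖v‖ ≤ 1 := by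
    have e := CStarRing.norm_star_mul_self (x := v)
    have e' := (prn hv')
    nlinarith [norm_nonneg v]
  obtain ⟨y, hyQ, hy⟩ := hPQ v hvP hvn
  have hyn : ‖y‖ ≤ 51 / 50 := by
    have hy2 : ‖y - v‖ ≤ γ := by rw [norm_sub_rev]; exact hy
    have := norm_le_add hy2 hvn
    linarith
  set x := f1 * y * f2 with hx
  have hxv : ‖x - v‖ ≤ 1 / 16 := by
    have e1 : v = (v * star v) * v * (star v * v) := by
      calc v = v * star v * v := hpi.symm
        _ = (v * star v * v) * star v * v := by rw [hpi, hpi]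
        _ = _ := by noncomm_ring
    have e2 : x - v = (f1 - v * star v) * (y * f2) + (v * star v) * ((y - v) * f2) +
        v * (f2 - star v * v) := by
      have e3 : (v * star v) * ((y - v) * f2) + v * (f2 - star v * v) =
          v * star v * y * f2 - (v * star v * v) * f2 + v * f2 - (v * star v * v) := by
        noncomm_ring
      rw [add_assoc, e3, hpi, hx]
      noncomm_ring
    rw [e2]
    refine (norm_add₃_le).trans ?_
    have n1 : ‖y * f2‖ ≤ 51 / 50 * 1 := (norm_mul_le _ _).trans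
      (mul_le_mul hyn (prn h2) (norm_nonneg _) (by norm_num))
    have n2 : ‖(f1 - v * star v) * (y * f2)‖ ≤ 1 / 50 * (51 / 50 * 1) := (norm_mul_le _ _).trans
      (mul_le_mul hn1 n1 (norm_nonneg _) (by norm_num))
    have n3 : ‖(y - v) * f2‖ ≤ 1 / 50 * 1 := (norm_mul_le _ _).trans
      (mul_le_mul (by rw [norm_sub_rev]; exact hy.trans hγ) (prn h2) (norm_nonneg _)
        (by norm_num))
    have n4 : ‖(v * star v) * ((y - v) * f2)‖ ≤ 1 * (1 / 50 * 1) := (norm_mul_le _ _).trans
      (mul_le_mul (prn hv) n3 (norm_nonneg _) (by norm_num))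
    have n5 : ‖v * (f2 - star v * v)‖ ≤ 1 * (1 / 50) := (norm_mul_le _ _).trans
      (mul_le_mul hvn hn2 (norm_nonneg _) (by norm_num))
    linarith
  have hxn : ‖x‖ ≤ 17 / 16 := by
    have := norm_le_add hxv hvn
    linarith
  refine ht.le_of h1Q h2Q (mul_mem (mul_mem h1Q hyQ) h2Q) h1 h2 ?_ ?_ ?_ (x := x)
  · rw [hx, ← mul_assoc, ← mul_assoc, h1.2]
  · rw [hx, mul_assoc, h2.2]
  · have e : x * star x - f1 = (x - v) * star x + v * star (x - v) - (f1 - v * star v) := by
      rw [star_sub]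
      noncomm_ring
    rw [e]
    refine (norm_sub_le _ _).trans ?_
    have n0 := norm_add_le ((x - v) * star x) (v * star (x - v))
    have n1 : ‖(x - v) * star x‖ ≤ 1 / 16 * (17 / 16) := (norm_mul_le _ _).trans
      (mul_le_mul hxv (by rw [norm_star]; exact hxn) (norm_nonneg _) (by norm_num))
    have n2 : ‖v * star (x - v)‖ ≤ 1 * (1 / 16) := (norm_mul_le _ _).trans
      (mul_le_mul hvn (by rw [norm_star]; exact hxv) (norm_nonneg _) (by norm_num))
    linarith

/-- orthogonal families of projections -/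
structure OF {m : ℕ} (e : Fin m → (H →L[ℂ] H)) : Prop where
  pr : ∀ i, IsPr (e i)
  orth : ∀ i j, i ≠ j → e i * e j = 0

theorem OF.sum_mul {m : ℕ} {e : Fin m → (H →L[ℂ] H)} (h : OF e) (c : Fin m → ℂ) (j : Fin m) :
    (∑ i, c i • e i) * e j = c j • e j := by
  rw [Finset.sum_mul, Finset.sum_eq_single j]
  · rw [smul_mul_assoc, (h.pr j).2]
  · intro i _ hi
    rw [smul_mul_assoc, h.orth i j hi, smul_zero]
  · simp

theorem OF.mul_sum {m : ℕ} {e : Fin m → (H →L[ℂ] H)} (h : OF e) (c : Fin m → ℂ) (j : Fin m) :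
    e j * (∑ i, c i • e i) = c j • e j := by
  rw [Finset.mul_sum, Finset.sum_eq_single j]
  · rw [mul_smul_comm, (h.pr j).2]
  · intro i _ hi
    rw [mul_smul_comm, h.orth j i (Ne.symm hi), smul_zero]
  · simp

theorem OF.isPr_sum {m : ℕ} {e : Fin m → (H →L[ℂ] H)} (h : OF e) : IsPr (∑ i, e i) := by
  refine ⟨by rw [star_sum]; exact Finset.sum_congr rfl fun i _ => (h.pr i).1, ?_⟩
  have h1 : ∀ j, (∑ i, e i) * e j = e j := fun j => by
    have := h.sum_mul (fun _ => 1) j
    simpa using this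
  rw [Finset.mul_sum]
  exact Finset.sum_congr rfl fun j _ => h1 j

/-- conjugating a finite orthogonal family into a close algebra -/
theorem conj_family {γ : ℝ} (hγ : γ ≤ 1 / 1000) (hPQ : Near γ P Q) {m : ℕ}
    (e : Fin m → (H →L[ℂ] H)) (he : OF e) (heP : ∀ i, e i ∈ P) :
    ∃ u : H →L[ℂ] H, star u * u = 1 ∧ u * star u = 1 ∧ ‖u - 1‖ ≤ 1000 * γ ∧
      ∀ i, u * e i * star u ∈ Q := by
  let π : (Fin m → ℤˣ) → (H →L[ℂ] H) := fun ε => (∑ i, (((ε i : ℤ) : ℂ)) • e i) + (1 - ∑ i, e i)
  have hsum := he.isPr_sum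
  have hπ : ∀ ε, π ε = (∑ i, (((ε i : ℤ) : ℂ)) • e i) + (1 - ∑ i, e i) := fun _ => rfl
  have hmul : ∀ c d : Fin m → ℂ, (∑ i, c i • e i) * (∑ i, d i • e i) = ∑ i, (c i * d i) • e i := by
    intro c d
    rw [Finset.mul_sum]
    refine Finset.sum_congr rfl fun j _ => ?_
    rw [mul_smul_comm, he.sum_mul, smul_smul, mul_comm]
  have hone : (∑ i, e i) = ∑ i, (1 : ℂ) • e i := by simp
  have hπm : ∀ ε δ, π (ε * δ) = π ε * π δ := by
    intro ε δ
    rw [hπ, hπ, hπ, add_mul, mul_add, mul_add, mul_sub, sub_mul, mul_one, one_mul, hmul]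
    have e1 : (∑ i, (((ε i : ℤ) : ℂ)) • e i) * (∑ i, e i) = ∑ i, (((ε i : ℤ) : ℂ)) • e i := by
      rw [hone, hmul]
      simp
    have e2 : (∑ i, e i) * (∑ i, (((δ i : ℤ) : ℂ)) • e i) = ∑ i, (((δ i : ℤ) : ℂ)) • e i := by
      rw [hone, hmul]
      simp
    have e3 : (1 - ∑ i, e i) * (1 - ∑ i, e i) = 1 - ∑ i, e i := by
      rw [mul_sub, mul_one, sub_mul, one_mul, hsum.2]
      abel
    rw [e1, e2, e3, sub_self, sub_self, add_zero, zero_add]
    congr 1
    refine Finset.sum_congr rfl fun i _ => ?_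
    congr 1
    simp
  have hπ1 : π 1 = 1 := by
    rw [hπ]
    simp
  have hπst : ∀ ε, star (π ε) = π ε := by
    intro ε
    rw [hπ, star_add, star_sub, star_one, hsum.1, star_sum]
    congr 1
    refine Finset.sum_congr rfl fun i _ => ?_
    rw [star_smul, (he.pr i).1]
    congr 1
    simp
  have hsq : ∀ ε, π ε * π ε = 1 := by
    intro ε
    rw [← hπm, ← hπ1]
    congr 1
    funext i
    simp [Int.units_mul_self]
  have hπs : ∀ ε, star (π ε) * π ε = 1 := fun ε => by rw [hπst, hsq]
  have hπs' : ∀ ε, π ε * star (π ε) = 1 := fun ε => by rw [hπst, hsq]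
  have hπP : ∀ ε, π ε ∈ P := by
    intro ε
    refine add_mem (sum_mem fun i _ => ?_) (sub_mem (one_mem _) (sum_mem fun i _ => heP i))
    exact P.toStarSubalgebra.toSubalgebra.smul_mem (heP i) _
  obtain ⟨u, hu1, hu2, hu3, hu4, -⟩ := ulam Q π hπ1 hπm hπs hπs' γ hγ
    (fun ε => hPQ _ (hπP ε) (norm_uni (hπs ε)))
  refine ⟨u, hu1, hu2, hu3, fun i => ?_⟩
  have h1 := hu4 (Function.update 1 i (-1))
  have h2 : π (Function.update 1 i (-1)) = 1 - (2 : ℂ) • e i := by
    rw [hπ]
    have e1 : ∑ j, ((((Function.update (1 : Fin m → ℤˣ) i (-1)) j : ℤˣ) : ℤ) : ℂ) • e j =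
        (∑ j, e j) - (2 : ℂ) • e i := by
      have e2 : ∀ j, ((((Function.update (1 : Fin m → ℤˣ) i (-1)) j : ℤˣ) : ℤ) : ℂ) • e j =
          e j - (if j = i then (2 : ℂ) • e i else 0) := by
        intro j
        by_cases hji : j = i
        · subst hji
          rw [Function.update_self, if_pos rfl]
          simp only [Units.val_neg, Units.val_one, Int.cast_neg, Int.cast_one, neg_smul, one_smul,
            two_smul]
          abel
        · rw [Function.update_of_ne hji, if_neg hji]
          simp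
      rw [Finset.sum_congr rfl fun j _ => e2 j, Finset.sum_sub_distrib]
      simp
    rw [e1]
    abel
  rw [h2] at h1
  have h3 : u * e i * star u = (1 / 2 : ℂ) • (1 - u * (1 - (2 : ℂ) • e i) * star u) := by
    rw [mul_sub, mul_one, sub_mul, hu2, sub_sub_cancel, mul_smul_comm, smul_mul_assoc, smul_smul]
    norm_num
  rw [h3]
  exact Q.toStarSubalgebra.toSubalgebra.smul_mem (sub_mem (one_mem _) h1) _

/-- finite additivity -/
theorem PTr.sum (ht : PTr P t) (h0 : t 0 ≠ ⊤) {m : ℕ} (e : Fin m → (H →L[ℂ] H)) (he : OF e)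
    (heP : ∀ i, e i ∈ P) : t (∑ i, e i) = ∑ i, t (e i) := by
  induction m with
  | zero => simpa using ht.zero h0
  | succ m ih =>
    have he' : OF (fun i : Fin m => e i.castSucc) := ⟨fun i => he.pr _, fun i j hij =>
      he.orth _ _ (by simpa using hij)⟩
    rw [Fin.sum_univ_castSucc, Fin.sum_univ_castSucc, ← ih _ he' (fun i => heP _)]
    refine ht.add _ (sum_mem fun i _ => heP _) _ (heP _) he'.isPr_sum (he.pr _) ?_
    rw [Finset.sum_mul]
    refine Finset.sum_eq_zero fun i _ => he.orth _ _ ?_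
    exact (Fin.castSucc_lt_last i).ne

/-- copies of a projection under a larger one -/
theorem copies (hfac : IsFac P) (ht : PTr P t) (h0 : t 0 ≠ ⊤) {e₀ e' : H →L[ℂ] H} (heP : e₀ ∈ P)
    (heP' : e' ∈ P) (he : IsPr e₀) (he' : IsPr e') (hfin : t e₀ ≠ ⊤) :
    ∀ m : ℕ, (m : ℝ≥0∞) * t e₀ ≤ t e' → ∃ w : Fin m → (H →L[ℂ] H),
      (∀ j, w j ∈ P ∧ star (w j) * w j = e₀ ∧ e' * w j = w j) ∧
      ∀ i j, i ≠ j → star (w i) * w j = 0 := by
  intro m
  induction m with
  | zero => exact fun _ => ⟨Fin.elim0, fun j => j.elim0, fun i => i.elim0⟩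
  | succ m ih =>
    intro hm
    obtain ⟨w, hw, hwo⟩ := ih (le_trans (mul_le_mul_left (by exact_mod_cast Nat.le_succ m) _) hm)
    have hf : OF (fun j => w j * star (w j)) := by
      refine ⟨fun j => pr_of' (by rw [(hw j).2.1]; exact he), fun i j hij => ?_⟩
      calc w i * star (w i) * (w j * star (w j)) = w i * (star (w i) * w j) * star (w j) := by
            noncomm_ring
        _ = 0 := by rw [hwo i j hij, mul_zero, zero_mul]
    have hfP : ∀ j, w j * star (w j) ∈ P := fun j => mul_mem (hw j).1 (star_mem (hw j).1)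
    set g := ∑ j, w j * star (w j) with hg
    have hgP : g ∈ P := sum_mem fun j _ => hfP j
    have hgpr : IsPr g := hf.isPr_sum
    have heg : e' * g = g := by
      rw [hg, Finset.mul_sum]
      refine Finset.sum_congr rfl fun j _ => ?_
      rw [← mul_assoc, (hw j).2.2]
    have hgw : ∀ j, g * w j = w j := by
      intro j
      rw [hg, Finset.sum_mul, Finset.sum_eq_single j]
      · exact pi_of' (by rw [(hw j).2.1]; exact he)
      · intro i _ hi
        rw [mul_assoc, hwo i j hi, mul_zero]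
      · simp
    have htg : t g = m * t e₀ := by
      rw [hg, ht.sum h0 _ hf hfP]
      rw [Finset.sum_congr rfl fun j _ => (ht.eqv (w j) (hw j).1 (by
        rw [(hw j).2.1]; exact he)).symm]
      simp [(hw _).2.1]
    obtain ⟨hr, hgr, -⟩ := pr_sub hgpr he' heg
    set r := e' - g with hrdef
    have hrP : r ∈ P := sub_mem heP' hgP
    have hte : t e' = m * t e₀ + t r := by
      rw [← htg, ← ht.add g hgP r hrP hgpr hr hgr, hrdef, add_sub_cancel]
    have htr : t e₀ ≤ t r := by
      rw [hte] at hm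
      push_cast at hm
      rw [add_mul, one_mul] at hm
      exact (ENNReal.add_le_add_iff_left (ENNReal.mul_ne_top (by simp) hfin)).mp hm
    -- comparison
    obtain ⟨v, hvP, hv⟩ := prove5_comp prove5_join prove5_polar prove5_chain H P hfac e₀ heP r hrP
      he hr
    have hv' : star v * v = e₀ ∧ r * v = v := by
      rcases hv with hv | ⟨hv1, hv2⟩
      · exact hv
      · have hvr : IsPr (v * star v) := by rw [hv1]; exact hr
        have hvr' := pr_of hvr
        have h1 : t (star v * v) = t r := by rw [ht.eqv v hvP hvr', hv1]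
        have h2 : e₀ * (star v * v) = star v * v := by
          have := congrArg star hv2
          rw [star_mul, he.1] at this
          rw [← mul_assoc, this]
        obtain ⟨h3, h4, -⟩ := pr_sub hvr' he h2
        have hvvP : star v * v ∈ P := mul_mem (star_mem hvP) hvP
        have h5 := ht.add _ hvvP _ (sub_mem heP hvvP) hvr' h3 h4
        rw [add_sub_cancel, h1] at h5
        have h6 : t (e₀ - star v * v) = 0 := by
          have h7 : t r + t (e₀ - star v * v) ≤ t r + 0 := by
            rw [← h5, add_zero]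
            exact htr
          have h8 : t r ≠ ⊤ := ne_top_of_le_ne_top hfin (by rw [h5]; exact le_self_add)
          have := (ENNReal.add_le_add_iff_left h8).mp h7
          exact le_antisymm this bot_le
        have h7 := ht.faithful _ (sub_mem heP hvvP) h3 h6
        refine ⟨(sub_eq_zero.mp h7).symm, ?_⟩
        rw [← hv1]
        exact pi_of hvr
    have hev : e' * v = v := by
      have h1 : e' * r = r := by rw [hrdef, mul_sub, he'.2, heg]
      rw [← hv'.2, ← mul_assoc, h1]
    have hrg : r * g = 0 := by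
      have := congrArg star hgr
      rwa [star_mul, hr.1, hgpr.1, star_zero] at this
    have hvw : ∀ j, star v * w j = 0 := by
      intro j
      have h1 : star v * r = star v := by
        have := congrArg star hv'.2
        rwa [star_mul, hr.1] at this
      rw [← h1, ← hgw j, mul_assoc, ← mul_assoc r, hrg, zero_mul, mul_zero]
    have hwv : ∀ j, star (w j) * v = 0 := by
      intro j
      have := congrArg star (hvw j)
      rwa [star_mul, star_star, star_zero] at this
    refine ⟨Fin.snoc w v, fun j => ?_, fun i j => ?_⟩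
    · refine Fin.lastCases ?_ (fun j => ?_) j
      · rw [Fin.snoc_last]
        exact ⟨hvP, hv'.1, hev⟩
      · rw [Fin.snoc_castSucc]
        exact hw j
    · refine Fin.lastCases ?_ (fun j => ?_) j
      · refine Fin.lastCases ?_ (fun i => ?_) i
        · intro h
          exact absurd rfl h
        · intro _
          rw [Fin.snoc_last, Fin.snoc_castSucc]
          exact hwv i
      · refine Fin.lastCases ?_ (fun i => ?_) i
        · intro _
          rw [Fin.snoc_last, Fin.snoc_castSucc]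
          exact hvw j
        · intro h
          rw [Fin.snoc_castSucc, Fin.snoc_castSucc]
          exact hwo i j (by
            intro hij
            exact h (by rw [hij]))

end V11111.CC
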