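import Pool.Agent.V11111.CC.Comp

/-!
Comparison of the values of traces on close projections of close factors.
-/

set_option autoImplicit false
open scoped InnerProductSpace ENNReal ComplexConjugate

noncomputable section

namespace V11111.CC

open H759R2.Kad H710R2.DP

variable {H : Type} [NormedAddCommGroup H] [InnerProductSpace ℂ H] [CompleteSpace H]
variable {P Q : VonNeumannAlgebra H} {tP tQ : (H →L[ℂ] H) → ℝ≥0∞}

theorem conj_near {u e : H →L[ℂ] H} {η : ℝ} (hu : star u * u = 1) (hn : ‖u - 1‖ ≤ η)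
    (he : ‖e‖ ≤ 1) : ‖u * e * star u - e‖ ≤ 2 * η := by
  have e1 : u * e * star u - e = (u - 1) * e * star u + e * star (u - 1) := by
    rw [star_sub, star_one]
    noncomm_ring
  rw [e1]
  refine (norm_add_le _ _).trans ?_
  have h0 : 0 ≤ η := (norm_nonneg _).trans hn
  have n0 : ‖(u - 1) * e‖ ≤ η * 1 := (norm_mul_le _ _).trans
    (mul_le_mul hn he (norm_nonneg _) h0)
  have n1 : ‖(u - 1) * e * star u‖ ≤ η * 1 * 1 := (norm_mul_le _ _).trans
    (mul_le_mul n0 (by rw [norm_star]; exact norm_uni hu) (norm_nonneg _) (by linarith))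
  have n2 : ‖e * star (u - 1)‖ ≤ 1 * η := (norm_mul_le _ _).trans
    (mul_le_mul he (by rw [norm_star]; exact hn) (norm_nonneg _) (by norm_num))
  linarith

theorem conj_pr {u e : H →L[ℂ] H} (hu : star u * u = 1) (he : IsPr e) :
    IsPr (u * e * star u) := by
  refine ⟨by rw [star_mul, star_mul, star_star, he.1, mul_assoc], ?_⟩
  calc u * e * star u * (u * e * star u) = u * e * (star u * u) * e * star u := by noncomm_ring
    _ = u * (e * e) * star u := by rw [hu]; noncomm_ring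
    _ = _ := by rw [he.2]

theorem conj_of {u : H →L[ℂ] H} (hu : star u * u = 1) {m : ℕ} {e : Fin m → (H →L[ℂ] H)}
    (he : OF e) : OF (fun i => u * e i * star u) := by
  refine ⟨fun i => conj_pr hu (he.pr i), fun i j hij => ?_⟩
  calc u * e i * star u * (u * e j * star u) = u * e i * (star u * u) * e j * star u := by
        noncomm_ring
    _ = u * (e i * e j) * star u := by rw [hu]; noncomm_ring
    _ = 0 := by rw [he.orth i j hij, mul_zero, zero_mul]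

theorem mu_of {e : H →L[ℂ] H} {L : ℕ} {E : Fin L → Fin L → (H →L[ℂ] H)} (h : MU P e L E) :
    OF (fun i => E i i) := by
  refine ⟨fun i => ⟨h.adj i i, ?_⟩, fun i j hij => ?_⟩
  · rw [h.mul]
    simp
  · rw [h.mul, if_neg hij]

/-- the dyadic comparison -/
theorem lemK_dyadic {γ : ℝ} (hγ : γ ≤ 1 / 100000) (hPQ : Near γ P Q) (hfac : IsFac P)
    (hP : PTr P tP) (hQ : PTr Q tQ) (hP0 : tP 0 ≠ ⊤) (hQ0 : tQ 0 ≠ ⊤)
    {e f e' f' : H →L[ℂ] H} (heP : e ∈ P) (hfQ : f ∈ Q) (heP' : e' ∈ P) (hfQ' : f' ∈ Q)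
    (he : IsPr e) (hf : IsPr f) (he' : IsPr e') (hf' : IsPr f') (hef : ‖e - f‖ ≤ 1 / 10)
    (hef' : ‖e' - f'‖ ≤ 1 / 10) (hle : tP e ≤ tQ f) (hfin : tP e ≠ ⊤) (k : ℕ)
    (hmu : ∃ E : Fin (2 ^ k) → Fin (2 ^ k) → (H →L[ℂ] H), MU P e (2 ^ k) E) (m : ℕ)
    (hm : (m : ℝ≥0∞) * tP e ≤ 2 ^ k * tP e') : (m : ℝ≥0∞) * tP e ≤ 2 ^ k * tQ f' := by
  obtain ⟨E, hE⟩ := hmu
  have hγ0 : 0 ≤ γ := by
    obtain ⟨y, -, hy⟩ := hPQ 0 (zero_mem _) (by simp)
    exact (norm_nonneg _).trans hy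
  have hEo := mu_of hE
  haveI : Nonempty (Fin (2 ^ k)) := ⟨⟨0, by positivity⟩⟩
  set i₀ : Fin (2 ^ k) := ⟨0, by positivity⟩ with hi₀
  -- values in `P`
  have hEeq : ∀ i, tP (E i i) = tP (E i₀ i₀) := by
    intro i
    have h1 : star (E i i₀) * E i i₀ = E i₀ i₀ := by rw [hE.adj, hE.mul, if_pos rfl]
    have h2 : E i i₀ * star (E i i₀) = E i i := by rw [hE.adj, hE.mul, if_pos rfl]
    rw [← h1, ← h2]
    exact (hP.eqv _ (hE.mem i i₀) (by rw [h1]; exact hEo.pr i₀)).symm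
  have hsumP : tP e = 2 ^ k * tP (E i₀ i₀) := by
    rw [← hE.sum, hP.sum hP0 _ hEo (fun i => hE.mem i i), Finset.sum_congr rfl fun i _ => hEeq i]
    simp
  have h2k0 : (2 : ℝ≥0∞) ^ k ≠ 0 := by simp
  have h2kt : (2 : ℝ≥0∞) ^ k ≠ ⊤ := by simp
  have hfin0 : tP (E i₀ i₀) ≠ ⊤ := by
    intro h
    apply hfin
    rw [hsumP, h, ENNReal.mul_top h2k0]
  have hm' : (m : ℝ≥0∞) * tP (E i₀ i₀) ≤ tP e' := by
    rw [hsumP, mul_left_comm] at hm
    exact (ENNReal.mul_le_mul_iff_right h2k0 h2kt).mp hm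
  obtain ⟨w, hw, hwo⟩ := copies hfac hP hP0 (hE.mem i₀ i₀) heP' (hEo.pr i₀) he' hfin0 m hm'
  -- the copies
  have hg : OF (fun j => w j * star (w j)) := by
    refine ⟨fun j => pr_of' (by rw [(hw j).2.1]; exact hEo.pr i₀), fun i j hij => ?_⟩
    calc w i * star (w i) * (w j * star (w j)) = w i * (star (w i) * w j) * star (w j) := by
          noncomm_ring
      _ = 0 := by rw [hwo i j hij, mul_zero, zero_mul]
  have hgP : ∀ j, w j * star (w j) ∈ P := fun j => mul_mem (hw j).1 (star_mem (hw j).1)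
  obtain ⟨u₁, hu₁, hu₁', hun₁, huQ₁⟩ := conj_family (by linarith) hPQ _ hEo (fun i => hE.mem i i)
  obtain ⟨u₂, hu₂, hu₂', hun₂, huQ₂⟩ := conj_family (by linarith) hPQ _ hg hgP
  have hη : 2 * (1000 * γ) ≤ 1 / 50 := by linarith
  -- transfer of the units of `e`
  have hF := conj_of hu₁ hEo
  have hG := conj_of hu₂ hg
  have hnear1 : ∀ i, ‖u₁ * E i i * star u₁ - E i i‖ ≤ 1 / 50 := fun i =>
    (conj_near hu₁ hun₁ (prn (hEo.pr i))).trans hη
  have hnear2 : ∀ j, ‖u₂ * (w j * star (w j)) * star u₂ - w j * star (w j)‖ ≤ 1 / 50 := fun j =>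
    (conj_near hu₂ hun₂ (prn (hg.pr j))).trans hη
  have hFeq : ∀ i, tQ (u₁ * E i i * star u₁) ≤ tQ (u₁ * E i₀ i₀ * star u₁) := by
    intro i
    have h1 : star (E i i₀) * E i i₀ = E i₀ i₀ := by rw [hE.adj, hE.mul, if_pos rfl]
    have h2 : E i i₀ * star (E i i₀) = E i i := by rw [hE.adj, hE.mul, if_pos rfl]
    exact hQ.transfer (by linarith) hPQ (hE.mem i i₀) (by rw [h2]; exact hEo.pr i) (huQ₁ i)
      (huQ₁ i₀) (hF.pr i) (hF.pr i₀) (by rw [h2]; exact hnear1 i) (by rw [h1]; exact hnear1 i₀)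
  have hGeq : ∀ j, tQ (u₁ * E i₀ i₀ * star u₁) ≤ tQ (u₂ * (w j * star (w j)) * star u₂) := by
    intro j
    have h1 : star (w j) * star (star (w j)) = E i₀ i₀ := by rw [star_star]; exact (hw j).2.1
    have h2 : star (star (w j)) * star (w j) = w j * star (w j) := by rw [star_star]
    exact hQ.transfer (by linarith) hPQ (star_mem (hw j).1) (by rw [h1]; exact hEo.pr i₀)
      (huQ₁ i₀) (huQ₂ j) (hF.pr i₀) (hG.pr j) (by rw [h1]; exact hnear1 i₀)
      (by rw [h2]; exact hnear2 j)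
  -- `tQ f` from above
  have hfle : tQ f ≤ 2 ^ k * tQ (u₁ * E i₀ i₀ * star u₁) := by
    have h1 : u₁ * e * star u₁ = ∑ i, u₁ * E i i * star u₁ := by
      rw [← hE.sum, Finset.mul_sum, Finset.sum_mul]
    have h2 : tQ (u₁ * e * star u₁) = ∑ i, tQ (u₁ * E i i * star u₁) := by
      rw [h1]
      exact hQ.sum hQ0 _ hF huQ₁
    have h3 : u₁ * e * star u₁ ∈ Q := by
      rw [h1]
      exact sum_mem fun i _ => huQ₁ i
    have h4 : ‖f - u₁ * e * star u₁‖ ≤ 1 / 2 := by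
      have h5 := (conj_near hu₁ hun₁ (prn he)).trans hη
      calc ‖f - u₁ * e * star u₁‖ = ‖(u₁ * e * star u₁ - e) + (e - f)‖ := by
            rw [← norm_neg]
            congr 1
            abel
        _ ≤ _ := norm_add_le _ _
        _ ≤ 1 / 2 := by linarith
    calc tQ f ≤ tQ (u₁ * e * star u₁) := hQ.near_le hfQ h3 hf (conj_pr hu₁ he) h4
      _ = ∑ i, tQ (u₁ * E i i * star u₁) := h2
      _ ≤ ∑ i : Fin (2 ^ k), tQ (u₁ * E i₀ i₀ * star u₁) := Finset.sum_le_sum fun i _ => hFeq i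
      _ = _ := by simp
  -- `tQ f'` from below
  have hf'ge : (m : ℝ≥0∞) * tQ (u₁ * E i₀ i₀ * star u₁) ≤ tQ f' := by
    set g₀ := ∑ j, w j * star (w j) with hg₀
    have hg₀pr : IsPr g₀ := hg.isPr_sum
    have heg : e' * g₀ = g₀ := by
      rw [hg₀, Finset.mul_sum]
      refine Finset.sum_congr rfl fun j _ => ?_
      rw [← mul_assoc, (hw j).2.2]
    have h1 : u₂ * g₀ * star u₂ = ∑ j, u₂ * (w j * star (w j)) * star u₂ := by
      rw [hg₀, Finset.mul_sum, Finset.sum_mul]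
    have h2 : tQ (u₂ * g₀ * star u₂) = ∑ j, tQ (u₂ * (w j * star (w j)) * star u₂) := by
      rw [h1]
      exact hQ.sum hQ0 _ hG huQ₂
    have h3 : u₂ * g₀ * star u₂ ∈ Q := by
      rw [h1]
      exact sum_mem fun i _ => huQ₂ i
    have hgpr := conj_pr hu₂ hg₀pr
    set g := u₂ * g₀ * star u₂ with hgdef
    have hgn : ‖g - g₀‖ ≤ 1 / 50 := (conj_near hu₂ hun₂ (prn hg₀pr)).trans hη
    have h4 : ‖(1 - f') * g‖ ≤ 1 / 4 := by
      have e1 : (1 - f') * g = (e' - f') * g₀ + (1 - f') * (g - g₀) := by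
        have : (e' - f') * g₀ = g₀ - f' * g₀ := by rw [sub_mul, heg]
        rw [this]
        noncomm_ring
      rw [e1]
      refine (norm_add_le _ _).trans ?_
      have n1 : ‖(e' - f') * g₀‖ ≤ 1 / 10 * 1 := (norm_mul_le _ _).trans
        (mul_le_mul hef' (prn hg₀pr) (norm_nonneg _) (by norm_num))
      have n0 : ‖1 - f'‖ ≤ 1 := prn ⟨by rw [star_sub, star_one, hf'.1], by
        rw [sub_mul, one_mul, mul_sub, mul_one, hf'.2]; abel⟩
      have n2 : ‖(1 - f') * (g - g₀)‖ ≤ 1 * (1 / 50) := (norm_mul_le _ _).trans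
        (mul_le_mul n0 hgn (norm_nonneg _) (by norm_num))
      linarith
    have h5 : tQ g ≤ tQ f' := by
      refine hQ.le_of h3 hfQ' (mul_mem h3 hfQ') hgpr hf' ?_ ?_ ?_ (x := g * f')
      · rw [← mul_assoc, hgpr.2]
      · rw [mul_assoc, hf'.2]
      · have e1 : g * f' * star (g * f') - g = - (g * ((1 - f') * g)) := by
          rw [star_mul, hgpr.1, hf'.1]
          calc g * f' * (f' * g) - g = g * (f' * f') * g - g := by noncomm_ring
            _ = g * f' * g - g * g := by rw [hf'.2, hgpr.2]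
            _ = _ := by noncomm_ring
        rw [e1, norm_neg]
        have n1 : ‖g * ((1 - f') * g)‖ ≤ 1 * (1 / 4) := (norm_mul_le _ _).trans
          (mul_le_mul (prn hgpr) h4 (norm_nonneg _) (by norm_num))
        linarith
    calc (m : ℝ≥0∞) * tQ (u₁ * E i₀ i₀ * star u₁) =
        ∑ j : Fin m, tQ (u₁ * E i₀ i₀ * star u₁) := by simp
      _ ≤ ∑ j, tQ (u₂ * (w j * star (w j)) * star u₂) := Finset.sum_le_sum fun j _ => hGeq j
      _ = tQ g := h2.symm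
      _ ≤ tQ f' := h5
  calc (m : ℝ≥0∞) * tP e ≤ m * tQ f := mul_le_mul_right hle _
    _ ≤ m * (2 ^ k * tQ (u₁ * E i₀ i₀ * star u₁)) := mul_le_mul_right hfle _
    _ = 2 ^ k * (m * tQ (u₁ * E i₀ i₀ * star u₁)) := by ring
    _ ≤ 2 ^ k * tQ f' := mul_le_mul_right hf'ge _

theorem ennreal_dyadic {t x y : ℝ≥0∞} (ht0 : t ≠ 0) (ht : t ≠ ⊤)
    (h : ∀ k m : ℕ, (m : ℝ≥0∞) * t ≤ 2 ^ k * x → (m : ℝ≥0∞) * t ≤ 2 ^ k * y) : x ≤ y := by
  by_contra hlt
  rw [not_le] at hlt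
  have hy : y ≠ ⊤ := ne_top_of_lt hlt
  set y' := y.toReal with hy'
  have hyy : y = ENNReal.ofReal y' := (ENNReal.ofReal_toReal hy).symm
  have hy0 : 0 ≤ y' := ENNReal.toReal_nonneg
  set t' := t.toReal with ht'
  have htt : t = ENNReal.ofReal t' := (ENNReal.ofReal_toReal ht).symm
  have htp : 0 < t' := ENNReal.toReal_pos ht0 ht
  obtain ⟨x', hx'y, hx'x⟩ : ∃ x' : ℝ, y' < x' ∧ ENNReal.ofReal x' ≤ x := by
    rcases eq_or_ne x ⊤ with hx | hx
    · exact ⟨y' + 1, by linarith, by rw [hx]; exact le_top⟩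
    · refine ⟨x.toReal, ?_, by rw [ENNReal.ofReal_toReal hx]⟩
      exact (ENNReal.toReal_lt_toReal hy hx).mpr hlt
  obtain ⟨k, hk⟩ := pow_unbounded_of_one_lt (t' / (x' - y')) (by norm_num : (1 : ℝ) < 2)
  have hk' : t' < 2 ^ k * (x' - y') := by
    rwa [div_lt_iff₀ (by linarith)] at hk
  have hkp : (0 : ℝ) < 2 ^ k := by positivity
  set m := ⌊2 ^ k * x' / t'⌋₊ with hm
  have hx0 : 0 ≤ x' := by linarith
  have h1 : (m : ℝ) * t' ≤ 2 ^ k * x' := by
    have := Nat.floor_le (show 0 ≤ 2 ^ k * x' / t' by positivity)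
    rwa [← hm, le_div_iff₀ htp] at this
  have h2 : 2 ^ k * x' < (m + 1) * t' := by
    have := Nat.lt_floor_add_one (2 ^ k * x' / t')
    rwa [← hm, div_lt_iff₀ htp] at this
  have h3 := h k m (by
    rw [htt]
    refine le_trans ?_ (mul_le_mul_right hx'x _)
    have e1 : (m : ℝ≥0∞) = ENNReal.ofReal (m : ℝ) := (ENNReal.ofReal_natCast m).symm
    have e2 : (2 : ℝ≥0∞) ^ k = ENNReal.ofReal (2 ^ k) := by
      rw [ENNReal.ofReal_pow (by norm_num)]
      norm_num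
    rw [e1, e2, ← ENNReal.ofReal_mul (by positivity), ← ENNReal.ofReal_mul (by positivity)]
    exact ENNReal.ofReal_le_ofReal h1)
  rw [htt, hyy] at h3
  have e1 : (m : ℝ≥0∞) = ENNReal.ofReal (m : ℝ) := (ENNReal.ofReal_natCast m).symm
  have e2 : (2 : ℝ≥0∞) ^ k = ENNReal.ofReal (2 ^ k) := by
    rw [ENNReal.ofReal_pow (by norm_num)]
    norm_num
  rw [e1, e2, ← ENNReal.ofReal_mul (by positivity), ← ENNReal.ofReal_mul (by positivity)] at h3
  have h4 := (ENNReal.ofReal_le_ofReal_iff (by positivity)).mp h3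
  nlinarith

/-- comparison -/
theorem lemK {γ : ℝ} (hγ : γ ≤ 1 / 100000) (hPQ : Near γ P Q) (hfac : IsFac P)
    (hP : PTr P tP) (hQ : PTr Q tQ) (hP0 : tP 0 ≠ ⊤) (hQ0 : tQ 0 ≠ ⊤)
    {e f e' f' : H →L[ℂ] H} (heP : e ∈ P) (hfQ : f ∈ Q) (heP' : e' ∈ P) (hfQ' : f' ∈ Q)
    (he : IsPr e) (hf : IsPr f) (he' : IsPr e') (hf' : IsPr f') (hef : ‖e - f‖ ≤ 1 / 10)
    (hef' : ‖e' - f'‖ ≤ 1 / 10) (hle : tP e ≤ tQ f) (hfin : tP e ≠ ⊤) (h0 : tP e ≠ 0)
    (hmu : ∀ k, ∃ E : Fin (2 ^ k) → Fin (2 ^ k) → (H →L[ℂ] H), MU P e (2 ^ k) E) :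
    tP e' ≤ tQ f' :=
  ennreal_dyadic h0 hfin fun k m hm => lemK_dyadic hγ hPQ hfac hP hQ hP0 hQ0 heP hfQ heP' hfQ'
    he hf he' hf' hef hef' hle hfin k (hmu k) m hm

end V11111.CC
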