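import Pool.Agent.V11111.CC.Masa

/-!
Conjugation of algebras by unitaries and closeness.
-/

set_option autoImplicit false
open scoped InnerProductSpace ENNReal ComplexConjugate

noncomputable section

namespace V11111.CC

open H759R2.Kad H710R2.DP

variable {H : Type} [NormedAddCommGroup H] [InnerProductSpace ℂ H] [CompleteSpace H]

section

variable (w : H →L[ℂ] H) (h1 : star w * w = 1) (h2 : w * star w = 1) (N : VonNeumannAlgebra H)

/-- `w* N w` -/
def cj : VonNeumannAlgebra H where
  carrier := {x | w * x * star w ∈ N}
  mul_mem' := by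
    intro a b ha hb
    have : w * (a * b) * star w = (w * a * star w) * (w * b * star w) := by
      calc w * (a * b) * star w = w * a * 1 * b * star w := by noncomm_ring
        _ = _ := by rw [← h1]; noncomm_ring
    rw [Set.mem_ofPred_eq, this]
    exact mul_mem ha hb
  one_mem' := by
    rw [Set.mem_ofPred_eq, mul_one, h2]
    exact one_mem N
  add_mem' := by
    intro a b ha hb
    rw [Set.mem_ofPred_eq, mul_add, add_mul]
    exact add_mem ha hb
  zero_mem' := by
    rw [Set.mem_ofPred_eq, mul_zero, zero_mul]
    exact zero_mem N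
  algebraMap_mem' := by
    intro r
    rw [Set.mem_ofPred_eq, ← Algebra.commutes r w, mul_assoc, h2, mul_one]
    exact vn_algebraMap N r
  star_mem' := by
    intro a ha
    have : w * star a * star w = star (w * a * star w) := by
      simp only [star_mul, star_star, mul_assoc]
    change w * star a * star w ∈ N
    rw [this]
    exact star_mem ha
  centralizer_centralizer' := by
    refine Set.Subset.antisymm ?_ Set.subset_centralizer_centralizer
    intro T hT
    rw [Set.mem_centralizer_iff] at hT
    change w * T * star w ∈ N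
    refine mem_of_comm N _ fun m hm => ?_
    rw [VonNeumannAlgebra.mem_commutant_iff] at hm
    have h3 : star w * m * w ∈ Set.centralizer {x | w * x * star w ∈ N} := by
      rw [Set.mem_centralizer_iff]
      intro x hx
      have e1 := hm _ hx
      calc x * (star w * m * w) = (star w * w) * x * (star w * m * w) := by rw [h1, one_mul]
        _ = star w * (w * x * star w * m) * w := by noncomm_ring
        _ = star w * (m * (w * x * star w)) * w := by rw [e1]
        _ = star w * m * w * x * (star w * w) := by noncomm_ring
        _ = star w * m * w * x := by rw [h1, mul_one]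
    have e1 := hT _ h3
    calc m * (w * T * star w) = (w * star w) * m * (w * T * star w) := by rw [h2, one_mul]
      _ = w * (star w * m * w * T) * star w := by noncomm_ring
      _ = w * (T * (star w * m * w)) * star w := by rw [e1]
      _ = (w * T * star w) * m * (w * star w) := by noncomm_ring
      _ = (w * T * star w) * m := by rw [h2, mul_one]

theorem mem_cj {x : H →L[ℂ] H} : x ∈ cj w h1 h2 N ↔ w * x * star w ∈ N := Iff.rfl

theorem cj_mem {x : H →L[ℂ] H} (hx : x ∈ N) : star w * x * w ∈ cj w h1 h2 N := by
  rw [mem_cj]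
  have : w * (star w * x * w) * star w = x := by
    calc w * (star w * x * w) * star w = (w * star w) * x * (w * star w) := by noncomm_ring
      _ = x := by rw [h2, one_mul, mul_one]
  rwa [this]

theorem mem_cj_commutant {x : H →L[ℂ] H} (hx : w * x * star w ∈ N.commutant) :
    x ∈ (cj w h1 h2 N).commutant := by
  rw [VonNeumannAlgebra.mem_commutant_iff] at hx ⊢
  intro y hy
  have e1 := hx _ hy
  calc y * x = (star w * w) * y * (star w * w) * x * (star w * w) := by
        rw [h1]
        simp
    _ = star w * (w * y * star w * (w * x * star w)) * w := by noncomm_ring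
    _ = star w * (w * x * star w * (w * y * star w)) * w := by rw [e1]
    _ = (star w * w) * x * (star w * w) * y * (star w * w) := by noncomm_ring
    _ = x * y := by
        rw [h1]
        simp

variable {w h1 h2 N}

theorem cj_trace {τ : (H →L[ℂ] H) → ℂ} (hτ : IsTrace N τ) :
    IsTrace (cj w h1 h2 N) (fun x => τ (w * x * star w)) := by
  have hmul : ∀ x y : H →L[ℂ] H, w * (x * y) * star w = (w * x * star w) * (w * y * star w) := by
    intro a b
    calc w * (a * b) * star w = w * a * 1 * b * star w := by noncomm_ring
      _ = _ := by rw [← h1]; noncomm_ring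
  refine ⟨?_, ?_, ?_, ?_⟩
  · obtain ⟨ζ, hζ, hn⟩ := hτ.normal
    refine ⟨fun k => star w (ζ k), vf_summable_sq hζ (star w), fun x hx => ?_⟩
    rw [hn _ hx]
    refine tsum_congr fun k => ?_
    conv_rhs => rw [ContinuousLinearMap.star_eq_adjoint,
      ContinuousLinearMap.adjoint_inner_left, ← ContinuousLinearMap.star_eq_adjoint]
    rfl
  · rw [mul_one, h2, hτ.one]
  · intro x hx y hy
    rw [hmul, hmul]
    exact hτ.comm _ hx _ hy
  · intro x hx h0
    change τ (w * (star x * x) * star w) = 0 at h0
    rw [hmul] at h0
    have e1 : w * star x * star w = star (w * x * star w) := by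
      simp only [star_mul, star_star, mul_assoc]
    rw [e1] at h0
    have e2 := hτ.faithful _ hx h0
    calc x = (star w * w) * x * (star w * w) := by rw [h1, one_mul, mul_one]
      _ = star w * (w * x * star w) * w := by noncomm_ring
      _ = 0 := by rw [e2, mul_zero, zero_mul]

theorem cj_norm_vec (h2 : w * star w = 1) (v : H) : ‖star w v‖ = ‖v‖ := by
  have e1 := inner_sq (star w) v
  have e0 := inner_sq (1 : H →L[ℂ] H) v
  rw [star_one, one_mul, one_apply_eq_self] at e0
  rw [star_star, h2, one_apply_eq_self, e0] at e1
  have e2 : ‖v‖ ^ 2 = ‖star w v‖ ^ 2 := by exact_mod_cast e1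
  exact ((pow_left_inj₀ (norm_nonneg _) (norm_nonneg _) two_ne_zero).mp e2).symm

theorem cj_basis {τ : (H →L[ℂ] H) → ℂ} {ι : Type} {η : ι → H} (hη : IsBasis N τ η) :
    IsBasis (cj w h1 h2 N) (fun x => τ (w * x * star w)) (fun i => star w (η i)) := by
  refine ⟨?_, ?_, ?_⟩
  · intro i
    obtain ⟨p, hp, hp1, hp2, hp3⟩ := hη.proj i
    refine ⟨star w * p * w, cj_mem w h1 h2 N hp, ?_, ?_, ?_⟩
    · simp only [star_mul, star_star, hp1, mul_assoc]
    · calc star w * p * w * (star w * p * w) = star w * p * (w * star w) * p * w := by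
            noncomm_ring
        _ = star w * (p * p) * w := by rw [h2]; noncomm_ring
        _ = _ := by rw [hp2]
    · intro x hx
      have e1 := hp3 _ hx
      have e2 : w * (x * (star w * p * w)) * star w = w * x * star w * p := by
        calc w * (x * (star w * p * w)) * star w = w * x * star w * p * (w * star w) := by
              noncomm_ring
          _ = _ := by rw [h2, mul_one]
      change ⟪star w (η i), x (star w (η i))⟫_ℂ = τ (w * (x * (star w * p * w)) * star w)
      rw [e2, ← e1]
      conv_lhs => rw [ContinuousLinearMap.star_eq_adjoint,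
        ContinuousLinearMap.adjoint_inner_left, ← ContinuousLinearMap.star_eq_adjoint]
      rfl
  · intro i j hij x hx
    have e1 := hη.orth i j hij _ hx
    conv_lhs => rw [ContinuousLinearMap.star_eq_adjoint,
      ContinuousLinearMap.adjoint_inner_left, ← ContinuousLinearMap.star_eq_adjoint]
    exact e1
  · intro v hv
    have e1 : w v = 0 := by
      refine hη.total _ fun i y hy => ?_
      have e2 := hv i _ (cj_mem w h1 h2 N hy)
      have e3 : (star w * y * w) (star w (η i)) = star w (y (η i)) := by
        have : (star w * y * w) * star w = star w * y := by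
          rw [mul_assoc, h2, mul_one]
        calc (star w * y * w) (star w (η i)) = ((star w * y * w) * star w) (η i) := rfl
          _ = _ := by rw [this]; rfl
      change ⟪(star w * y * w) (star w (η i)), v⟫_ℂ = 0 at e2
      rw [e3, ContinuousLinearMap.star_eq_adjoint, ContinuousLinearMap.adjoint_inner_left] at e2
      exact e2
    calc v = (star w * w) v := by rw [h1, one_apply_eq_self]
      _ = star w (w v) := rfl
      _ = 0 := by rw [e1, map_zero]

theorem comm_near {c : ℝ} (hw : ‖w - 1‖ ≤ c) (h1 : star w * w = 1) {x : H →L[ℂ] H}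
    (hx : ‖x‖ ≤ 1) : ‖w * x - x * w‖ ≤ 2 * c := by
  have e1 : w * x - x * w = (w - 1) * x - x * (w - 1) := by noncomm_ring
  rw [e1]
  have n1 := norm_sub_le ((w - 1) * x) (x * (w - 1))
  have n2 := norm_mul_le (w - 1) x
  have n3 := norm_mul_le x (w - 1)
  nlinarith [norm_nonneg (w - 1), norm_nonneg x]

theorem near_cj {γ c : ℝ} {M : VonNeumannAlgebra H} (hw : ‖w - 1‖ ≤ c) (h : Near γ M N) :
    Near (γ + 2 * c) M (cj w h1 h2 N) := by
  intro x hx hxn
  obtain ⟨y, hy, hyn⟩ := h x hx hxn
  refine ⟨star w * y * w, cj_mem w h1 h2 N hy, ?_⟩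
  have e1 : x - star w * y * w = star w * (w * x - x * w) + star w * (x - y) * w := by
    calc x - star w * y * w = (star w * w) * x - star w * y * w := by rw [h1, one_mul]
      _ = _ := by noncomm_ring
  have ws : ‖star w‖ ≤ 1 := norm_uni (by rw [star_star, h2])
  have wn : ‖w‖ ≤ 1 := norm_uni h1
  have n1 := comm_near hw h1 hxn
  have n2 := norm_mul_le (star w) (w * x - x * w)
  have n3 := norm_mul_le (star w * (x - y)) w
  have n4 := norm_mul_le (star w) (x - y)
  rw [e1]
  refine (norm_add_le _ _).trans ?_
  nlinarith [norm_nonneg (w * x - x * w), norm_nonneg (x - y), norm_nonneg (star w * (x - y)),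
    norm_nonneg (star w), norm_nonneg w]

theorem cj_near {γ c : ℝ} {M : VonNeumannAlgebra H} (hw : ‖w - 1‖ ≤ c) (h : Near γ N M) :
    Near (γ + 2 * c) (cj w h1 h2 N) M := by
  intro x hx hxn
  have ws : ‖star w‖ ≤ 1 := norm_uni (by rw [star_star, h2])
  have wn : ‖w‖ ≤ 1 := norm_uni h1
  obtain ⟨y, hy, hyn⟩ := h (w * x * star w) hx ((uni_conj_norm h1).trans hxn)
  refine ⟨y, hy, ?_⟩
  have e1 : x - y = (x * w - w * x) * star w + (w * x * star w - y) := by
    calc x - y = x * (w * star w) - y := by rw [h2, mul_one]
      _ = _ := by noncomm_ring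
  have n1 := comm_near hw h1 hxn
  rw [norm_sub_rev] at n1
  have n2 := norm_mul_le (x * w - w * x) (star w)
  rw [e1]
  refine (norm_add_le _ _).trans ?_
  nlinarith [norm_nonneg (x * w - w * x), norm_nonneg (star w)]

end

/-- close algebras have close commutants -/
theorem near_commutant : ∃ K : ℝ, 0 < K ∧ ∀ (H : Type) [NormedAddCommGroup H]
    [InnerProductSpace ℂ H] [CompleteSpace H] (M N : VonNeumannAlgebra H) (γ : ℝ), 0 ≤ γ →
    Near γ M N → Near (K * γ) N.commutant M.commutant := by
  obtain ⟨K, hK, h⟩ := exists_univ
  refine ⟨2 * K, by positivity, ?_⟩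
  intro H _ _ _ M N γ hγ hMN T hT hTn
  obtain ⟨S, hS, hSn⟩ := h H M T (2 * γ) (by positivity) (fun x hx => by
    obtain ⟨y, hy, hyn⟩ := hMN.scale hx
    rw [VonNeumannAlgebra.mem_commutant_iff] at hT
    have e1 : T * x - x * T = T * (x - y) - (x - y) * T := by
      rw [mul_sub, sub_mul, hT y hy]
      abel
    rw [e1]
    have n1 := norm_sub_le (T * (x - y)) ((x - y) * T)
    have n2 := norm_mul_le T (x - y)
    have n3 := norm_mul_le (x - y) T
    nlinarith [norm_nonneg (x - y), norm_nonneg T])
  exact ⟨S, hS, by linarith⟩

end V11111.CC
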