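import Pool.Agent.V11111.CC.Conj

/-!
The inequality between the dimensions of a Hilbert space over two close II_1 factors.
-/

set_option autoImplicit false
open scoped InnerProductSpace ENNReal ComplexConjugate

noncomputable section

namespace V11111.CC

open H759R2.Kad H710R2.DP

variable {H : Type} [NormedAddCommGroup H] [InnerProductSpace ℂ H] [CompleteSpace H]

theorem isPr_one : IsPr (1 : H →L[ℂ] H) := ⟨star_one _, one_mul _⟩

theorem isPr_compl {p : H →L[ℂ] H} (hp : IsPr p) : IsPr (1 - p) := by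
  refine ⟨by rw [star_sub, star_one, hp.1], ?_⟩
  rw [sub_mul, one_mul, mul_sub, mul_one, hp.2, sub_self, sub_zero]

variable {M N A : VonNeumannAlgebra H} {τM τN : (H →L[ℂ] H) → ℂ} {γ : ℝ}

theorem tr_le (hM : IsII1Factor M) (hτM : IsTrace M τM) (hτN : IsTrace N τN)
    (hγ : γ ≤ 1 / 100000) (h1 : Near γ M N) {p : H →L[ℂ] H} (hpM : p ∈ M) (hpN : p ∈ N)
    (hp : IsPr p) : (τM p).re ≤ (τN p).re := by
  have e1 : trP τM (1 : H →L[ℂ] H) = 1 := by rw [trP, hτM.one]; simp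
  have e2 : trP τN (1 : H →L[ℂ] H) = 1 := by rw [trP, hτN.one]; simp
  have e3 := lemK hγ h1 hM.factor hτM.ptr hτN.ptr (IsTrace.trP_ne_top 0) (IsTrace.trP_ne_top 0)
    (one_mem M) (one_mem N) hpM hpN isPr_one isPr_one hp hp (by simp) (by simp)
    (by rw [e1, e2]) (by rw [e1]; simp) (by rw [e1]; simp) (fun k => hM.mu (one_mem M) isPr_one k)
  rw [trP, trP] at e3
  exact (ENNReal.ofReal_le_ofReal_iff (hτN.pr hpN hp).1).mp e3

theorem tr_eq (hM : IsII1Factor M) (hτM : IsTrace M τM) (hτN : IsTrace N τN)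
    (hγ : γ ≤ 1 / 100000) (h1 : Near γ M N) (hA : IsAb A) (hAM : ∀ a ∈ A, a ∈ M)
    (hAN : ∀ a ∈ A, a ∈ N) : ∀ a ∈ A, τM a = τN a := by
  have hpr : ∀ p ∈ A, IsPr p → τM p = τN p := by
    intro p hp hpp
    have e1 := tr_le hM hτM hτN hγ h1 (hAM p hp) (hAN p hp) hpp
    have e2 := tr_le hM hτM hτN hγ h1 (sub_mem (one_mem M) (hAM p hp))
      (sub_mem (one_mem N) (hAN p hp)) (isPr_compl hpp)
    rw [hτM.sub (one_mem M) (hAM p hp), hτN.sub (one_mem N) (hAN p hp), hτM.one, hτN.one,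
      Complex.sub_re, Complex.sub_re] at e2
    rw [(hτM.pr (hAM p hp) hpp).2, (hτN.pr (hAN p hp) hpp).2]
    congr 1
    linarith
  let S : Submodule ℂ (H →L[ℂ] H) :=
    { carrier := {a | a ∈ A ∧ τM a = τN a}
      add_mem' := by
        intro a b ha hb
        rw [Set.mem_ofPred_eq] at ha hb ⊢
        refine ⟨add_mem ha.1 hb.1, ?_⟩
        rw [hτM.add (hAM _ ha.1) (hAM _ hb.1), hτN.add (hAN _ ha.1) (hAN _ hb.1), ha.2, hb.2]
      zero_mem' := by
        rw [Set.mem_ofPred_eq]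
        exact ⟨zero_mem A, by rw [hτM.zero, hτN.zero]⟩
      smul_mem' := by
        intro c a ha
        rw [Set.mem_ofPred_eq] at ha ⊢
        refine ⟨vn_smul ha.1 c, ?_⟩
        rw [hτM.smul c (hAM _ ha.1), hτN.smul c (hAN _ ha.1), ha.2] }
  have hS : IsClosed (S : Set (H →L[ℂ] H)) := by
    rw [← isSeqClosed_iff_isClosed]
    intro u a hu hlim
    have haA : a ∈ A := (vn_closed A).isSeqClosed (fun n => (hu n).1) hlim
    refine ⟨haA, ?_⟩
    have hlim' : Filter.Tendsto (fun n => ‖u n - a‖) Filter.atTop (nhds 0) :=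
      tendsto_iff_norm_sub_tendsto_zero.mp hlim
    have l1 : Filter.Tendsto (fun n => τM (u n)) Filter.atTop (nhds (τM a)) := by
      rw [tendsto_iff_norm_sub_tendsto_zero]
      refine squeeze_zero (fun n => norm_nonneg _) (fun n => ?_) hlim'
      rw [← hτM.sub (hAM _ (hu n).1) (hAM _ haA)]
      exact hτM.norm_le (sub_mem (hAM _ (hu n).1) (hAM _ haA))
    have l2 : Filter.Tendsto (fun n => τN (u n)) Filter.atTop (nhds (τN a)) := by
      rw [tendsto_iff_norm_sub_tendsto_zero]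
      refine squeeze_zero (fun n => norm_nonneg _) (fun n => ?_) hlim'
      rw [← hτN.sub (hAN _ (hu n).1) (hAN _ haA)]
      exact hτN.norm_le (sub_mem (hAN _ (hu n).1) (hAN _ haA))
    have l3 : (fun n => τM (u n)) = fun n => τN (u n) := funext fun n => (hu n).2
    rw [l3] at l1
    exact tendsto_nhds_unique l1 l2
  intro a ha
  exact (ab_induct hA S hS (fun p hp hpp => ⟨hp, hpr p hp hpp⟩) a ha).2

theorem core (hM : IsII1Factor M) (hτM : IsTrace M τM) (hτN : IsTrace N τN)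
    {ι κ : Type} {ξ : ι → H} {η : κ → H} (hξ : IsBasis M τM ξ) (hη : IsBasis N τN η)
    (hA : IsMasa A M) (hAN : ∀ a ∈ A, a ∈ N) {p : H →L[ℂ] H} (hpA : p ∈ A) {v : H}
    (hv : IsVec M τM p v) (hv0 : v ≠ 0)
    (hW : ∀ u ∈ A, star u * u = 1 → u * star u = 1 →
      ∃ w ∈ N.commutant, IsW M v u w ∧ star w * w = 1)
    (hγ : γ ≤ 1 / 100000) (h1 : Near γ M N) (h2 : Near γ N M)
    (h3 : Near γ M.commutant N.commutant) :
    ∑' i, ‖ξ i‖ₑ ^ 2 ≤ ∑' j, ‖η j‖ₑ ^ 2 := by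
  have hAb : IsAb A := hA.comm
  have hmasa : IsMasa A N := masa_near hA hAN (hγ.trans (by norm_num)) h2
  have htr := tr_eq hM hτM hτN hγ h1 hAb hA.le hAN
  obtain ⟨m, hm⟩ := exists_mn (UG A hAb)
  -- the vector state on `N`
  have hstate : ∀ x ∈ N, ⟪v, x v⟫_ℂ = τN (x * p) := by
    intro x hx
    have hinv : ∀ g : UG A hAb, ⟪v, (g.1 * x * star g.1) v⟫_ℂ = ⟪v, x v⟫_ℂ := by
      intro g
      obtain ⟨w, hw, hw1, hw2⟩ := hW (star g.1) (star_mem g.2.1) (by rw [star_star]; exact g.2.2.2)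
        (by rw [star_star]; exact g.2.2.1)
      have e1 : ⟪v, (g.1 * x * star g.1) v⟫_ℂ = ⟪star g.1 v, x (star g.1 v)⟫_ℂ := by
        rw [ContinuousLinearMap.star_eq_adjoint, ContinuousLinearMap.adjoint_inner_left,
          ← ContinuousLinearMap.star_eq_adjoint]
        rfl
      rw [e1, ← hw1.vec, ← com_vec hw hx]
      have e2 : ⟪w v, w (x v)⟫_ℂ = ⟪v, (star w * w) (x v)⟫_ℂ := by
        rw [mul_apply_eq_comp, ContinuousLinearMap.star_eq_adjoint,
          ContinuousLinearMap.adjoint_inner_right]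
      rw [e2, hw2, one_apply_eq_self]
    have hEA : eA A hAb m x ∈ A := hmasa.max _ (eA_mem hm hAN hx) (eA_comm hm x)
    have hpN := hAN p hpA
    rw [← eA_vec hm hinv, hv.eq _ (hA.le _ hEA), htr _ (mul_mem hEA hpA), ← eA_mul hm hpA,
      eA_tr hm hτN hAN (mul_mem hx hpN)]
  have hvN : IsVec N τN p v := ⟨hAN p hpA, hv.pr, hstate⟩
  -- the projection `e`
  have heN : prj M v ∈ N.commutant := by
    obtain ⟨w, hw, hw1, -⟩ := hW (1 - (2 : ℂ) • p) (sub_mem (one_mem A) (vn_smul hpA 2))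
      (sym_uni hv.pr).1 (sym_uni hv.pr).2
    have hee := (prj_pr (M := M) v).2
    have e1 : IsW M v (1 - (2 : ℂ) • p) (1 - (2 : ℂ) • prj M v) := by
      refine ⟨sub_mem (one_mem _) (vn_smul (prj_commutant v) 2), ?_, ?_⟩
      · rw [sub_apply, sub_apply, smul_apply, smul_apply, prj_self, hv.fix hτM]
      · rw [sub_mul, one_mul, smul_mul_assoc, mul_sub, mul_one, hee, sub_self, smul_zero,
          sub_zero]
    have e2 := hw1.uniq e1 rfl
    have e3 : prj M v = (1 / 2 : ℂ) • (1 - w) := by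
      rw [e2, sub_sub_cancel, smul_smul]
      norm_num
    rw [e3]
    exact vn_smul (sub_mem (one_mem _) hw) _
  have hle : tC ξ (prj M v) ≤ tC η (prj M v) := by
    rw [hξ.tC_prj hτM hv, ← hη.tC_prj hτN hvN]
    exact (hη.ptr hτN).mono (prj_commutant v) heN (prj_pr v) (prj_pr v)
      (prj_le heN (prj_self v))
  have h0 : tC ξ (prj M v) ≠ 0 := by
    rw [hξ.tC_prj hτM hv]
    simpa using hv0
  have hfin : tC ξ (prj M v) ≠ ⊤ := by
    rw [hξ.tC_prj hτM hv, sq_enorm]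
    exact ENNReal.ofReal_ne_top
  have := lemK hγ h3 (fac_commutant hM.factor) (hξ.ptr hτM) (hη.ptr hτN)
    (by rw [tC_zero]; simp) (by rw [tC_zero]; simp) (prj_commutant v) heN
    (one_mem M.commutant) (one_mem N.commutant) (prj_pr v) (prj_pr v) isPr_one isPr_one
    (by simp) (by simp) hle hfin h0 (fun k => by
      obtain ⟨E, hE⟩ := hM.mu hv.mem hv.pr k
      exact exists_mu hτM hv hE)
  rwa [tC_one, tC_one] at this

theorem Near.mono' {a b : ℝ} {P Q : VonNeumannAlgebra H} (h : Near a P Q) (hab : a ≤ b) :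
    Near b P Q := fun x hx hn => by
  obtain ⟨y, hy, hyn⟩ := h x hx hn
  exact ⟨y, hy, hyn.trans hab⟩

theorem basis_ne (hM : IsII1Factor M) {ι : Type} {ξ : ι → H} (hξ : IsBasis M τM ξ) :
    ∃ i, ξ i ≠ 0 := by
  by_contra hne
  push Not at hne
  have h0 : ∀ v : H, v = 0 := fun v => hξ.total v fun i x _ => by rw [hne i, map_zero,
    inner_zero_left]
  refine hM.infinite ?_
  have hsub : Subsingleton (H →L[ℂ] H) :=
    ⟨fun S T => ContinuousLinearMap.ext fun v => by rw [h0 v, map_zero, map_zero]⟩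
  have : Subsingleton M.toStarSubalgebra := ⟨fun a b => Subtype.ext (hsub.elim _ _)⟩
  infer_instance

theorem main_le : ∃ δ : ℝ, 0 < δ ∧ ∀ (H : Type) [NormedAddCommGroup H]
    [InnerProductSpace ℂ H] [CompleteSpace H] (M N : VonNeumannAlgebra H)
    (τM τN : (H →L[ℂ] H) → ℂ) (ι κ : Type) (ξ : ι → H) (η : κ → H), IsII1Factor M →
    IsTrace M τM → IsTrace N τN → IsBasis M τM ξ → IsBasis N τN η → Near δ M N → Near δ N M →
    ∑' i, ‖ξ i‖ₑ ^ 2 ≤ ∑' j, ‖η j‖ₑ ^ 2 := by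
  obtain ⟨K, hK, hKN⟩ := near_commutant
  set δ : ℝ := 1 / (100000 * 2001 * (1 + 2000 * K) * (1 + K)) with hδ
  have hδ0 : 0 < δ := by positivity
  have hδe : δ * (100000 * 2001 * (1 + 2000 * K) * (1 + K)) = 1 := by
    rw [hδ]
    field_simp
  refine ⟨δ, hδ0, ?_⟩
  intro H _ _ _ M N τM τN ι κ ξ η hM hτM hτN hξ hη hMN hNM
  obtain ⟨i₀, hi₀⟩ := basis_ne hM hξ
  obtain ⟨p, hp1, hp2, hp3, hp4⟩ := hξ.proj i₀
  set v := ξ i₀ with hv0
  have hv : IsVec M τM p v := ⟨hp1, ⟨hp2, hp3⟩, hp4⟩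
  obtain ⟨A, hpA, hA⟩ := exists_masa M hp1 hp2
  have hAb : IsAb A := hA.comm
  -- bounds
  have hb1 : K * (2001 * δ) ≤ 1 / 1000 := by
    nlinarith [mul_pos hK hδ0, mul_pos hK hK, mul_pos (mul_pos hK hK) hδ0]
  have hb0 : δ ≤ 1 / 1000 := by
    nlinarith [mul_pos hK hδ0, mul_pos hK hK, mul_pos (mul_pos hK hK) hδ0]
  -- first conjugation
  obtain ⟨v₁, a1, a2, a3, a4, -⟩ := ulam N (fun g : UG A hAb => g.1) rfl (fun _ _ => rfl)
    (fun g => g.2.2.1) (fun g => g.2.2.2) δ hb0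
    (fun g => hMN _ (hA.le _ g.2.1) (norm_uni g.2.2.1))
  set N₁ := cj v₁ a1 a2 N with hN₁
  have hAN₁ : ∀ a ∈ A, a ∈ N₁ := by
    let S : Submodule ℂ (H →L[ℂ] H) := N₁.toStarSubalgebra.toSubalgebra.toSubmodule
    exact ab_uni hAb S (vn_closed N₁) fun u hu h1 h2 => a4 ⟨u, hu, h1, h2⟩
  have hM1 : Near (2001 * δ) M N₁ := (near_cj a3 hMN).mono' (by linarith)
  have h1M : Near (2001 * δ) N₁ M := (cj_near a3 hNM).mono' (by linarith)
  have hc1 : Near (K * (2001 * δ)) M.commutant N₁.commutant :=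
    hKN H N₁ M (2001 * δ) (by positivity) h1M
  -- second conjugation
  have hex : ∀ g : UG A hAb, ∃ w, IsW M v g.1 w ∧ star w * w = 1 ∧ w * star w = 1 := fun g =>
    exists_W hτM hv (hA.le _ g.2.1) g.2.2.1 g.2.2.2 (hAb _ hpA _ g.2.1)
  choose W hW1 hW2 hW3 using hex
  have hWm : ∀ g h, W (g * h) = W g * W h := fun g h =>
    (hW1 (g * h)).uniq ((hW1 g).mul (hW1 h) (hA.le _ h.2.1)) (by
      have : (g * h).1 = h.1 * g.1 := hAb _ g.2.1 _ h.2.1
      rw [this])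
  have hW0 : W 1 = 1 := (hW1 1).uniq (w' := 1) (u' := 1) ⟨one_mem _, rfl, one_mul _⟩ rfl
  obtain ⟨v₂, b1, b2, b3, b4, b5⟩ := ulam N₁.commutant W hW0 hWm hW2 hW3 (K * (2001 * δ)) hb1
    (fun g => hc1 _ (hW1 g).mem (norm_uni (hW2 g)))
  set N₂ := cj v₂ b1 b2 N₁ with hN₂
  have hv₂ : ∀ a ∈ A, a * v₂ = v₂ * a := by
    intro a ha
    refine b5 a (fun y hy => ?_) (fun g => ?_)
    · rw [VonNeumannAlgebra.mem_commutant_iff] at hy
      exact hy a (hAN₁ a ha)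
    · have := (hW1 g).mem
      rw [VonNeumannAlgebra.mem_commutant_iff] at this
      exact this a (hA.le a ha)
  have hAN₂ : ∀ a ∈ A, a ∈ N₂ := by
    intro a ha
    rw [hN₂, mem_cj, ← hv₂ a ha, mul_assoc, b2, mul_one]
    exact hAN₁ a ha
  have hWN₂ : ∀ g, W g ∈ N₂.commutant := fun g => mem_cj_commutant v₂ b1 b2 N₁ (b4 g)
  set δ₂ : ℝ := 2001 * δ + 2 * (1000 * (K * (2001 * δ))) with hδ₂
  have hδ₂0 : 0 < δ₂ := by positivity
  have hM2 : Near δ₂ M N₂ := near_cj b3 hM1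
  have h2M : Near δ₂ N₂ M := cj_near b3 h1M
  have hc2 : Near (K * δ₂) M.commutant N₂.commutant := hKN H N₂ M δ₂ hδ₂0.le h2M
  have hγ : (1 + K) * δ₂ ≤ 1 / 100000 := by
    have : (1 + K) * δ₂ * 100000 = 1 := by
      calc (1 + K) * δ₂ * 100000 = δ * (100000 * 2001 * (1 + 2000 * K) * (1 + K)) := by
            rw [hδ₂]
            ring
        _ = 1 := hδe
    linarith
  have hKδ : 0 < K * δ₂ := by positivity
  have hτ₁ : IsTrace N₁ (fun x => τN (v₁ * x * star v₁)) := cj_trace hτN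
  have hτ₂ : IsTrace N₂ (fun x => τN (v₁ * (v₂ * x * star v₂) * star v₁)) := cj_trace hτ₁
  have hη₁ : IsBasis N₁ (fun x => τN (v₁ * x * star v₁)) (fun j => star v₁ (η j)) :=
    cj_basis hη
  have hη₂ : IsBasis N₂ (fun x => τN (v₁ * (v₂ * x * star v₂) * star v₁))
    (fun j => star v₂ (star v₁ (η j))) := cj_basis hη₁
  have key := core hM hτM hτ₂ hξ hη₂ hA hAN₂ hpA hv hi₀
    (fun u hu h1 h2 => ⟨W ⟨u, hu, h1, h2⟩, hWN₂ _, hW1 ⟨u, hu, h1, h2⟩, hW2 _⟩) hγ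
    (hM2.mono' (by linarith)) (h2M.mono' (by linarith)) (hc2.mono' (by linarith))
  have e1 : ∀ j, ‖star v₂ (star v₁ (η j))‖ₑ ^ 2 = ‖η j‖ₑ ^ 2 := by
    intro j
    rw [sq_enorm, sq_enorm, cj_norm_vec b2, cj_norm_vec a2]
  rwa [tsum_congr e1] at key

theorem near_of_dist {δ : ℝ} (h : kkDist M N < δ) : Near δ M N ∧ Near δ N M := by
  have hfin : Metric.hausdorffEDist {x : H →L[ℂ] H | x ∈ M ∧ ‖x‖ ≤ 1}
      {y : H →L[ℂ] H | y ∈ N ∧ ‖y‖ ≤ 1} ≠ ⊤ := by
    refine Metric.hausdorffEDist_ne_top_of_nonempty_of_bounded ⟨0, zero_mem M, by simp⟩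
      ⟨0, zero_mem N, by simp⟩ ?_ ?_
    · exact (Metric.isBounded_closedBall (x := (0 : H →L[ℂ] H)) (r := 1)).subset fun x hx => by
        rw [Metric.mem_closedBall, dist_zero_right]
        exact hx.2
    · exact (Metric.isBounded_closedBall (x := (0 : H →L[ℂ] H)) (r := 1)).subset fun x hx => by
        rw [Metric.mem_closedBall, dist_zero_right]
        exact hx.2
  constructor
  · intro x hx hn
    obtain ⟨y, hy, hyn⟩ := Metric.exists_dist_lt_of_hausdorffDist_lt (s := {x : H →L[ℂ] H |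
      x ∈ M ∧ ‖x‖ ≤ 1}) ⟨hx, hn⟩ h hfin
    rw [dist_eq_norm] at hyn
    exact ⟨y, hy.1, hyn.le⟩
  · intro y hy hn
    obtain ⟨x, hx, hxn⟩ := Metric.exists_dist_lt_of_hausdorffDist_lt' (t := {y : H →L[ℂ] H |
      y ∈ N ∧ ‖y‖ ≤ 1}) ⟨hy, hn⟩ h hfin
    rw [dist_comm, dist_eq_norm] at hxn
    exact ⟨x, hx.1, hxn.le⟩

theorem main : ∃ δ : ℝ, 0 < δ ∧ ∀ (H : Type) [NormedAddCommGroup H]
    [InnerProductSpace ℂ H] [CompleteSpace H] (M N : VonNeumannAlgebra H),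
    IsII1Factor M → IsII1Factor N → kkDist M N < δ →
    ∀ c d : ℝ≥0∞, IsDim M c → IsDim N d → c = d := by
  obtain ⟨δ, hδ, h⟩ := main_le
  refine ⟨δ, hδ, ?_⟩
  rintro H _ _ _ M N hM hN hd c d ⟨τM, ι, ξ, hτM, hξ, rfl⟩ ⟨τN, κ, η, hτN, hη, rfl⟩
  obtain ⟨h1, h2⟩ := near_of_dist hd
  exact le_antisymm (h H M N τM τN ι κ ξ η hM hτM hτN hξ hη h1 h2)
    (h H N M τN τM κ ι η ξ hN hτN hτM hη hξ h2 h1)

end V11111.CC
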