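import Mathlib

/-!
II_1 factors on a Hilbert space, module bases, the Murray-von Neumann dimension and the
Kadison-Kastler distance.
-/

set_option autoImplicit false
open scoped InnerProductSpace ENNReal

noncomputable section

namespace V11111.CC

variable {H : Type} [NormedAddCommGroup H] [InnerProductSpace ℂ H] [CompleteSpace H]

/-- `τ` restricts to a faithful normal tracial state of the von Neumann algebra `M`. -/
structure IsTrace (M : VonNeumannAlgebra H) (τ : (H →L[ℂ] H) → ℂ) : Prop where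
  normal : ∃ ζ : ℕ → H, Summable (fun k => ‖ζ k‖ ^ 2) ∧
    ∀ x ∈ M, τ x = ∑' k, ⟪ζ k, x (ζ k)⟫_ℂ
  one : τ 1 = 1
  comm : ∀ x ∈ M, ∀ y ∈ M, τ (x * y) = τ (y * x)
  faithful : ∀ x ∈ M, τ (star x * x) = 0 → x = 0

/-- `M` is a factor of type II_1: its centre is trivial, it is infinite dimensional and it has a
faithful normal tracial state. -/
structure IsII1Factor (M : VonNeumannAlgebra H) : Prop where
  factor : ∀ z ∈ M, (∀ x ∈ M, z * x = x * z) → ∃ c : ℂ, z = c • 1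
  infinite : ¬ FiniteDimensional ℂ M.toStarSubalgebra
  trace : ∃ τ, IsTrace M τ

/-- `ξ` is an orthonormal basis of the left `M`-module `H`: every `ξ i` corresponds to a
projection `p i` of `M`, that is `⟨ξ i, x ξ i⟩ = τ (x p i)`, the submodules `M ξ i` are pairwise
orthogonal and their sum is dense. -/
structure IsBasis (M : VonNeumannAlgebra H) (τ : (H →L[ℂ] H) → ℂ) {ι : Type} (ξ : ι → H) :
    Prop where
  proj : ∀ i, ∃ p ∈ M, star p = p ∧ p * p = p ∧ ∀ x ∈ M, ⟪ξ i, x (ξ i)⟫_ℂ = τ (x * p)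
  orth : ∀ i j, i ≠ j → ∀ x ∈ M, ⟪ξ i, x (ξ j)⟫_ℂ = 0
  total : ∀ v : H, (∀ i, ∀ x ∈ M, ⟪x (ξ i), v⟫_ℂ = 0) → v = 0

/-- `c` is the dimension of the left `M`-module `H`: the sum of the numbers
`τ (p i) = ‖ξ i‖ ^ 2` over an orthonormal basis. -/
def IsDim (M : VonNeumannAlgebra H) (c : ℝ≥0∞) : Prop :=
  ∃ (τ : (H →L[ℂ] H) → ℂ) (ι : Type) (ξ : ι → H),
    IsTrace M τ ∧ IsBasis M τ ξ ∧ c = ∑' i, ‖ξ i‖ₑ ^ 2

/-- The Kadison-Kastler distance: the Hausdorff distance of the closed unit balls. -/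
def kkDist (M N : VonNeumannAlgebra H) : ℝ :=
  Metric.hausdorffDist {x : H →L[ℂ] H | x ∈ M ∧ ‖x‖ ≤ 1} {y : H →L[ℂ] H | y ∈ N ∧ ‖y‖ ≤ 1}

end V11111.CC
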