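import Pool.Agent.V11111.CC.Base
import Pool.Agent.H710R2.DP.Final

/-!
A universal constant: operators almost commuting with a von Neumann algebra are close to its
commutant.
-/

set_option autoImplicit false
open scoped InnerProductSpace ENNReal ComplexConjugate

noncomputable section

namespace V11111.CC

theorem vn_smul {H : Type} [NormedAddCommGroup H] [InnerProductSpace ℂ H] [CompleteSpace H]
    {M : VonNeumannAlgebra H} {x : H →L[ℂ] H} (hx : x ∈ M) (c : ℂ) : c • x ∈ M :=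
  M.toStarSubalgebra.toSubalgebra.smul_mem hx c

theorem vn_algebraMap {H : Type} [NormedAddCommGroup H] [InnerProductSpace ℂ H] [CompleteSpace H]
    (M : VonNeumannAlgebra H) (c : ℂ) : algebraMap ℂ (H →L[ℂ] H) c ∈ M :=
  M.toStarSubalgebra.toSubalgebra.algebraMap_mem c

/-- a bad example for the constant `n` -/
structure Bad (n : ℕ) where
  H : Type
  i1 : NormedAddCommGroup H
  i2 : InnerProductSpace ℂ H
  i3 : CompleteSpace H
  N : VonNeumannAlgebra H
  T : H →L[ℂ] H
  bd : ∀ x ∈ N, ‖T * x - x * T‖ ≤ ‖x‖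
  no : ∀ S ∈ N.commutant, (n : ℝ) < ‖T - S‖

section dsum

variable {E : ℕ → Type} [∀ n, NormedAddCommGroup (E n)] [∀ n, InnerProductSpace ℂ (E n)]
  [∀ n, CompleteSpace (E n)]

/-- coordinate -/
def ev (E : ℕ → Type) [∀ n, NormedAddCommGroup (E n)] [∀ n, InnerProductSpace ℂ (E n)]
    [∀ n, CompleteSpace (E n)] (n : ℕ) : lp E 2 →L[ℂ] E n := lp.evalCLM ℂ E 2 n

theorem ev_apply (n : ℕ) (f : lp E 2) : ev E n f = f n := rfl

theorem ev_norm (n : ℕ) : ‖ev E n‖ ≤ 1 := by
  refine ContinuousLinearMap.opNorm_le_bound _ zero_le_one fun f => ?_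
  rw [one_mul, ev_apply]
  exact lp.norm_apply_le_norm (by norm_num) f n

/-- embedding -/
def em (E : ℕ → Type) [∀ n, NormedAddCommGroup (E n)] [∀ n, InnerProductSpace ℂ (E n)]
    [∀ n, CompleteSpace (E n)] (n : ℕ) : E n →L[ℂ] lp E 2 :=
  ContinuousLinearMap.adjoint (ev E n)

theorem em_norm (n : ℕ) : ‖em E n‖ ≤ 1 := by
  rw [em, LinearIsometryEquiv.norm_map]
  exact ev_norm n

theorem em_apply (n : ℕ) (u : E n) : em E n u = lp.single 2 n u := by
  refine ext_inner_right ℂ fun f => ?_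
  rw [em, ContinuousLinearMap.adjoint_inner_left, ev_apply, lp.inner_single_left]

theorem ev_em (n : ℕ) (u : E n) : ev E n (em E n u) = u := by
  rw [ev_apply, em_apply, lp.single_apply_self]

theorem ev_em_ne {n k : ℕ} (h : k ≠ n) (u : E n) : ev E k (em E n u) = 0 := by
  rw [ev_apply, em_apply, lp.single_apply_ne _ _ _ h]

/-- compression to a coordinate -/
def cp (n : ℕ) (X : lp E 2 →L[ℂ] lp E 2) : E n →L[ℂ] E n := (ev E n).comp (X.comp (em E n))

theorem cp_apply (n : ℕ) (X : lp E 2 →L[ℂ] lp E 2) (u : E n) :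
    cp n X u = ev E n (X (em E n u)) := rfl

theorem cp_norm (n : ℕ) (X : lp E 2 →L[ℂ] lp E 2) : ‖cp n X‖ ≤ ‖X‖ := by
  refine ContinuousLinearMap.opNorm_le_bound _ (norm_nonneg _) fun u => ?_
  rw [cp_apply]
  calc ‖ev E n (X (em E n u))‖ ≤ 1 * ‖X (em E n u)‖ := (ev E n).le_of_opNorm_le (ev_norm n) _
    _ ≤ 1 * (‖X‖ * (1 * ‖u‖)) := by
        refine mul_le_mul_of_nonneg_left ?_ zero_le_one
        refine (X.le_opNorm _).trans (mul_le_mul_of_nonneg_left ?_ (norm_nonneg _))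
        exact (em E n).le_of_opNorm_le (em_norm n) _
    _ = ‖X‖ * ‖u‖ := by ring

theorem cp_add (n : ℕ) (X Y : lp E 2 →L[ℂ] lp E 2) : cp n (X + Y) = cp n X + cp n Y := by
  ext u
  simp [cp_apply]

theorem cp_smul (n : ℕ) (c : ℂ) (X : lp E 2 →L[ℂ] lp E 2) : cp n (c • X) = c • cp n X := by
  ext u
  simp [cp_apply]

theorem cp_cont (n : ℕ) : Continuous (fun X : lp E 2 →L[ℂ] lp E 2 => cp n X) := by
  have h : (fun X : lp E 2 →L[ℂ] lp E 2 => cp n X) =
      fun X => (ContinuousLinearMap.compL ℂ (E n) (lp E 2) (E n) (ev E n))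
        ((ContinuousLinearMap.compL ℂ (E n) (lp E 2) (lp E 2)).flip (em E n) X) := rfl
  rw [h]
  fun_prop

/-- block diagonal operators with blocks in the given algebras -/
def DiagIn (N : ∀ n, VonNeumannAlgebra (E n)) (X : lp E 2 →L[ℂ] lp E 2) : Prop :=
  ∀ n, cp n X ∈ N n ∧ ∀ f, ev E n (X f) = cp n X (ev E n f)

variable {N : ∀ n, VonNeumannAlgebra (E n)}

theorem DiagIn.em {X : lp E 2 →L[ℂ] lp E 2} (h : DiagIn N X) (n : ℕ) (u : E n) :
    X (em E n u) = em E n (cp n X u) := by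
  apply lp.ext
  funext k
  change ev E k _ = ev E k _
  rw [(h k).2]
  by_cases hk : k = n
  · subst hk
    rw [ev_em, ev_em]
  · rw [ev_em_ne hk, ev_em_ne hk, map_zero]

theorem DiagIn.cp_mul {X Y : lp E 2 →L[ℂ] lp E 2} (h : DiagIn N X) (n : ℕ) :
    cp n (X * Y) = cp n X * cp n Y := by
  ext u
  rw [cp_apply, mul_apply_eq_comp, (h n).2, mul_apply_eq_comp, cp_apply n Y]

theorem DiagIn.cp_star {X : lp E 2 →L[ℂ] lp E 2} (h : DiagIn N X) (n : ℕ) :
    cp n (star X) = star (cp n X) := by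
  ext u
  refine ext_inner_right ℂ fun w => ?_
  rw [cp_apply, ContinuousLinearMap.star_eq_adjoint, ContinuousLinearMap.star_eq_adjoint,
    ContinuousLinearMap.adjoint_inner_left]
  have h1 : ∀ (f : lp E 2), ⟪ev E n f, w⟫_ℂ = ⟪f, V11111.CC.em E n w⟫_ℂ := by
    intro f
    rw [V11111.CC.em, ContinuousLinearMap.adjoint_inner_right]
  have h2 : ∀ (f : lp E 2), ⟪V11111.CC.em E n u, f⟫_ℂ = ⟪u, ev E n f⟫_ℂ := by
    intro f
    rw [V11111.CC.em, ContinuousLinearMap.adjoint_inner_left]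
  rw [h1, ContinuousLinearMap.adjoint_inner_left, h2, h.em, ev_em]

theorem DiagIn.ev_star {X : lp E 2 →L[ℂ] lp E 2} (h : DiagIn N X) (n : ℕ) (f : lp E 2) :
    ev E n (star X f) = star (cp n X) (ev E n f) := by
  refine ext_inner_right ℂ fun w => ?_
  rw [ContinuousLinearMap.star_eq_adjoint, ContinuousLinearMap.star_eq_adjoint,
    ContinuousLinearMap.adjoint_inner_left]
  have h1 : ∀ (f : lp E 2) (w : E n), ⟪ev E n f, w⟫_ℂ = ⟪f, V11111.CC.em E n w⟫_ℂ := by
    intro f w
    rw [V11111.CC.em, ContinuousLinearMap.adjoint_inner_right]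
  rw [h1, ContinuousLinearMap.adjoint_inner_left, h.em, h1]

/-- the algebra of block diagonal operators -/
def diagAlg (N : ∀ n, VonNeumannAlgebra (E n)) : StarSubalgebra ℂ (lp E 2 →L[ℂ] lp E 2) where
  carrier := {X | DiagIn N X}
  mul_mem' := by
    intro X Y hX hY n
    refine ⟨?_, fun f => ?_⟩
    · rw [DiagIn.cp_mul hX]
      exact mul_mem (hX n).1 (hY n).1
    · rw [DiagIn.cp_mul hX, mul_apply_eq_comp, (hX n).2, (hY n).2, mul_apply_eq_comp]
  add_mem' := by
    intro X Y hX hY n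
    refine ⟨?_, fun f => ?_⟩
    · rw [cp_add]
      exact add_mem (hX n).1 (hY n).1
    · rw [cp_add, add_apply, map_add, (hX n).2, (hY n).2, add_apply]
  algebraMap_mem' := by
    intro c n
    have h1 : cp n (algebraMap ℂ (lp E 2 →L[ℂ] lp E 2) c) = algebraMap ℂ (E n →L[ℂ] E n) c := by
      ext u
      rw [cp_apply]
      simp [Algebra.algebraMap_eq_smul_one, ev_em]
    refine ⟨?_, fun f => ?_⟩
    · rw [h1]
      exact vn_algebraMap _ _
    · rw [h1]
      simp [Algebra.algebraMap_eq_smul_one]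
  star_mem' := by
    intro X hX n
    refine ⟨?_, fun f => ?_⟩
    · rw [DiagIn.cp_star hX]
      exact star_mem (hX n).1
    · rw [DiagIn.cp_star hX]
      exact DiagIn.ev_star hX n f

theorem vn_closed {H : Type} [NormedAddCommGroup H] [InnerProductSpace ℂ H] [CompleteSpace H]
    (M : VonNeumannAlgebra H) : IsClosed {x : H →L[ℂ] H | x ∈ M} := by
  have h : {x : H →L[ℂ] H | x ∈ M} = (M : Set (H →L[ℂ] H)) := rfl
  rw [h, ← VonNeumannAlgebra.centralizer_centralizer]
  exact Set.isClosed_centralizer _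

instance diagAlg_closed (N : ∀ n, VonNeumannAlgebra (E n)) :
    IsClosed (diagAlg N : Set (lp E 2 →L[ℂ] lp E 2)) := by
  have h : (diagAlg N : Set (lp E 2 →L[ℂ] lp E 2)) =
      ⋂ n, ({X | cp n X ∈ N n} ∩ ⋂ f : lp E 2, {X | ev E n (X f) = cp n X (ev E n f)}) := by
    ext X
    simp only [Set.mem_iInter, Set.mem_inter_iff, Set.mem_ofPred_eq]
    rfl
  rw [h]
  refine isClosed_iInter fun n => IsClosed.inter ?_ (isClosed_iInter fun f => ?_)
  · exact (vn_closed (N n)).preimage (cp_cont n)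
  · refine isClosed_eq ?_ ?_
    · exact (ev E n).continuous.comp (ContinuousLinearMap.apply ℂ (lp E 2) f).continuous
    · exact (ContinuousLinearMap.apply ℂ (E n) (ev E n f)).continuous.comp (cp_cont n)

/-- the diagonal operator -/
def dg (F : ∀ n, E n →L[ℂ] E n) (K : ℝ) (hK : 0 ≤ K) (hF : ∀ n, ‖F n‖ ≤ K) :
    lp E 2 →L[ℂ] lp E 2 := lp.mapCLM 2 F hK hF

theorem dg_ev (F : ∀ n, E n →L[ℂ] E n) (K : ℝ) (hK : 0 ≤ K) (hF : ∀ n, ‖F n‖ ≤ K) (n : ℕ)
    (f : lp E 2) : ev E n (dg F K hK hF f) = F n (ev E n f) := rfl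

theorem ev_ext {f g : lp E 2} (h : ∀ n, ev E n f = ev E n g) : f = g := lp.ext (funext h)

/-- a sequence of operators with bounded commutators differs from a bounded sequence by
commuting operators -/
theorem dsum_main (N : ∀ n, VonNeumannAlgebra (E n)) (T : ∀ n, E n →L[ℂ] E n)
    (hT : ∀ n, ∀ x ∈ N n, ‖T n * x - x * T n‖ ≤ ‖x‖) :
    ∃ C : ℝ, ∀ n, ∃ S ∈ (N n).commutant, ‖T n - S‖ ≤ C := by
  have hb : ∀ (X : diagAlg N) n,
      ‖T n * cp n (X : lp E 2 →L[ℂ] lp E 2) - cp n (X : lp E 2 →L[ℂ] lp E 2) * T n‖ ≤ ‖X‖ :=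
    fun X n => (hT n _ (X.2 n).1).trans (cp_norm n _)
  let D : diagAlg N →ₗ[ℂ] (lp E 2 →L[ℂ] lp E 2) :=
    { toFun := fun X => dg (fun n => T n * cp n (X : lp E 2 →L[ℂ] lp E 2) -
        cp n (X : lp E 2 →L[ℂ] lp E 2) * T n) ‖X‖ (norm_nonneg _) (hb X)
      map_add' := fun X Y => by
        ext1 f
        refine ev_ext fun n => ?_
        rw [add_apply, map_add, dg_ev, dg_ev, dg_ev, ← add_apply]
        congr 1
        simp only [StarMemClass.coe_star, AddMemClass.coe_add, cp_add]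
        noncomm_ring
      map_smul' := fun c X => by
        ext1 f
        refine ev_ext fun n => ?_
        rw [smul_apply, map_smul, dg_ev, dg_ev, RingHom.id_apply, ← smul_apply]
        congr 1
        simp only [SetLike.val_smul, cp_smul]
        rw [mul_smul_comm, smul_mul_assoc, smul_sub] }
  have hD : ∀ (X : diagAlg N) (f : lp E 2) n, ev E n (D X f) =
      (T n * cp n (X : lp E 2 →L[ℂ] lp E 2) - cp n (X : lp E 2 →L[ℂ] lp E 2) * T n) (ev E n f) :=
    fun X f n => rfl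
  have hleib : ∀ X Y : diagAlg N, D (X * Y) =
      (diagAlg N).subtype X * D Y + D X * (diagAlg N).subtype Y := by
    intro X Y
    ext1 f
    refine ev_ext fun n => ?_
    rw [hD, add_apply, map_add, mul_apply_eq_comp, mul_apply_eq_comp]
    have e1 : ev E n (((diagAlg N).subtype X) (D Y f)) =
        cp n (X : lp E 2 →L[ℂ] lp E 2) (ev E n (D Y f)) := (X.2 n).2 _
    have e2 : ev E n (((diagAlg N).subtype Y) f) =
        cp n (Y : lp E 2 →L[ℂ] lp E 2) (ev E n f) := (Y.2 n).2 _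
    rw [e1, hD, hD, e2, ← mul_apply_eq_comp, ← mul_apply_eq_comp, ← add_apply]
    congr 1
    have e3 : cp n ((X * Y : diagAlg N) : lp E 2 →L[ℂ] lp E 2) =
        cp n (X : lp E 2 →L[ℂ] lp E 2) * cp n (Y : lp E 2 →L[ℂ] lp E 2) :=
      DiagIn.cp_mul X.2 n
    rw [e3]
    noncomm_ring
  have hbd : ∀ X : diagAlg N, ‖D X‖ ≤ 1 * ‖X‖ := by
    intro X
    rw [one_mul]
    exact lp.norm_mapCLM_le 2 _ (norm_nonneg _) (hb X)
  obtain ⟨U, hU⟩ := H710R2.DP.fin_U (diagAlg N) (lp E 2) (diagAlg N).subtype D 1 zero_le_one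
    ⟨hleib, hbd⟩
  refine ⟨‖U‖, fun n => ⟨T n - cp n U, ?_, ?_⟩⟩
  · rw [VonNeumannAlgebra.mem_commutant_iff]
    intro x hx
    -- the block operator
    set X : lp E 2 →L[ℂ] lp E 2 := (em E n).comp (x.comp (ev E n)) with hX
    have hXa : ∀ f, X f = em E n (x (ev E n f)) := fun f => rfl
    have hcn : cp n X = x := by
      ext u
      rw [cp_apply, hXa, ev_em, ev_em]
    have hck : ∀ k, k ≠ n → cp k X = 0 := by
      intro k hk
      ext u
      rw [cp_apply, hXa, ev_em_ne hk, zero_apply]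
    have hXm : X ∈ diagAlg N := by
      intro k
      by_cases hk : k = n
      · subst hk
        rw [hcn]
        refine ⟨hx, fun f => ?_⟩
        rw [hXa, ev_em]
      · rw [hck k hk]
        refine ⟨zero_mem _, fun f => ?_⟩
        rw [hXa, ev_em_ne hk, zero_apply]
    have h1 := hU ⟨X, hXm⟩
    have h2 : ∀ u : E n, (T n * x - x * T n) u = (cp n U * x - x * cp n U) u := by
      intro u
      have h3 := congrArg (fun Z : lp E 2 →L[ℂ] lp E 2 => ev E n (Z (em E n u))) h1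
      simp only [hD, ev_em] at h3
      rw [hcn] at h3
      rw [h3]
      rw [sub_apply, mul_apply_eq_comp, mul_apply_eq_comp, map_sub]
      change ev E n (U (X (em E n u))) - ev E n (X (U (em E n u))) = _
      rw [hXa, hXa, ev_em, ev_em, sub_apply, mul_apply_eq_comp, mul_apply_eq_comp, cp_apply,
        cp_apply]
    have h4 : T n * x - x * T n = cp n U * x - x * cp n U := by
      ext u
      exact h2 u
    rw [mul_sub, sub_mul]
    rw [sub_eq_sub_iff_add_eq_add] at h4 ⊢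
    rw [add_comm (x * T n)]
    exact h4.symm
  · rw [sub_sub_cancel]
    exact cp_norm n U

end dsum

/-- universal constant -/
theorem exists_univ : ∃ K : ℝ, 0 < K ∧ ∀ (H : Type) [NormedAddCommGroup H]
    [InnerProductSpace ℂ H] [CompleteSpace H] (N : VonNeumannAlgebra H) (T : H →L[ℂ] H) (c : ℝ),
    0 ≤ c → (∀ x ∈ N, ‖T * x - x * T‖ ≤ c * ‖x‖) → ∃ S ∈ N.commutant, ‖T - S‖ ≤ K * c := by
  by_contra hcon
  push Not at hcon
  have hbad : ∀ n : ℕ, Nonempty (Bad n) := by
    intro n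
    obtain ⟨H, i1, i2, i3, N, T, c, hc, hT, hno⟩ := hcon (n + 1) (by positivity)
    have hc0 : 0 < c := by
      rcases hc.lt_or_eq with h | h
      · exact h
      · exfalso
        subst h
        have hTN : T ∈ N.commutant := by
          rw [VonNeumannAlgebra.mem_commutant_iff]
          intro x hx
          have := hT x hx
          rw [zero_mul] at this
          have h0 := norm_le_zero_iff.mp this
          exact (sub_eq_zero.mp h0).symm
        have := hno T hTN
        simp at this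
    refine ⟨⟨H, i1, i2, i3, N, ((c⁻¹ : ℝ) : ℂ) • T, ?_, ?_⟩⟩
    · intro x hx
      have h1 : ((c⁻¹ : ℝ) : ℂ) • T * x - x * ((c⁻¹ : ℝ) : ℂ) • T =
          ((c⁻¹ : ℝ) : ℂ) • (T * x - x * T) := by
        rw [smul_mul_assoc, mul_smul_comm, smul_sub]
      rw [h1, norm_smul, Complex.norm_real, Real.norm_eq_abs, abs_of_nonneg (by positivity)]
      rw [inv_mul_le_iff₀ hc0]
      exact hT x hx
    · intro S hS
      have h2 : ((c : ℝ) : ℂ) • S ∈ N.commutant := vn_smul hS _
      have h3 := hno _ h2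
      have h4 : ((c⁻¹ : ℝ) : ℂ) • T - S = ((c⁻¹ : ℝ) : ℂ) • (T - ((c : ℝ) : ℂ) • S) := by
        rw [smul_sub, smul_smul, ← Complex.ofReal_mul, inv_mul_cancel₀ hc0.ne', Complex.ofReal_one,
          one_smul]
      rw [h4, norm_smul, Complex.norm_real, Real.norm_eq_abs, abs_of_nonneg (by positivity)]
      rw [lt_inv_mul_iff₀ hc0]
      have : (n : ℝ) < n + 1 := by linarith
      nlinarith
  let B : ∀ n, Bad n := fun n => (hbad n).some
  letI : ∀ n, NormedAddCommGroup (B n).H := fun n => (B n).i1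
  letI : ∀ n, InnerProductSpace ℂ (B n).H := fun n => (B n).i2
  haveI : ∀ n, CompleteSpace (B n).H := fun n => (B n).i3
  obtain ⟨C, hC⟩ := dsum_main (E := fun n => (B n).H) (fun n => (B n).N) (fun n => (B n).T)
    (fun n => (B n).bd)
  obtain ⟨n, hn⟩ := exists_nat_gt C
  obtain ⟨S, hS, hTS⟩ := hC n
  have := (B n).no S hS
  linarith

end V11111.CC
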