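import Pool.Agent.V11111.CC.CompK
import Pool.Agent.V11111.CC.UK
import Pool.Agent.H332R2.Kad4.NoMin

/-!
The trace of a II_1 factor.
-/

set_option autoImplicit false
open scoped InnerProductSpace ENNReal ComplexConjugate

noncomputable section

namespace V11111.CC

open H759R2.Kad H710R2.DP

variable {H : Type} [NormedAddCommGroup H] [InnerProductSpace ℂ H] [CompleteSpace H]

/-- vector functional -/
def vf (ζ : ℕ → H) (x : H →L[ℂ] H) : ℂ := ∑' k, ⟪ζ k, x (ζ k)⟫_ℂ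

variable {ζ : ℕ → H}

theorem vf_bd (x : H →L[ℂ] H) (k : ℕ) : ‖⟪ζ k, x (ζ k)⟫_ℂ‖ ≤ ‖x‖ * ‖ζ k‖ ^ 2 := by
  refine (norm_inner_le_norm _ _).trans ?_
  have := x.le_opNorm (ζ k)
  nlinarith [norm_nonneg (ζ k)]

theorem vf_summable (hζ : Summable fun k => ‖ζ k‖ ^ 2) (x : H →L[ℂ] H) :
    Summable fun k => ⟪ζ k, x (ζ k)⟫_ℂ :=
  Summable.of_norm_bounded (hζ.mul_left ‖x‖) (vf_bd x)

theorem vf_add (hζ : Summable fun k => ‖ζ k‖ ^ 2) (x y : H →L[ℂ] H) :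
    vf ζ (x + y) = vf ζ x + vf ζ y := by
  rw [vf, vf, vf, ← (vf_summable hζ x).tsum_add (vf_summable hζ y)]
  refine tsum_congr fun k => ?_
  rw [add_apply, inner_add_right]

theorem vf_smul (c : ℂ) (x : H →L[ℂ] H) : vf ζ (c • x) = c * vf ζ x := by
  rw [vf, vf, ← tsum_mul_left]
  refine tsum_congr fun k => ?_
  rw [smul_apply, inner_smul_right]

theorem vf_sub (hζ : Summable fun k => ‖ζ k‖ ^ 2) (x y : H →L[ℂ] H) :
    vf ζ (x - y) = vf ζ x - vf ζ y := by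
  have h1 := vf_add hζ x ((-1 : ℂ) • y)
  rw [vf_smul] at h1
  simp only [neg_smul, one_smul, ← sub_eq_add_neg, neg_mul, one_mul] at h1
  exact h1

theorem vf_norm (hζ : Summable fun k => ‖ζ k‖ ^ 2) (x : H →L[ℂ] H) :
    ‖vf ζ x‖ ≤ ‖x‖ * ∑' k, ‖ζ k‖ ^ 2 := by
  rw [← tsum_mul_left]
  exact tsum_of_norm_bounded (hζ.mul_left ‖x‖).hasSum (vf_bd x)

theorem vf_pos (x : H →L[ℂ] H) :
    vf ζ (star x * x) = ((∑' k, ‖x (ζ k)‖ ^ 2 : ℝ) : ℂ) := by
  rw [vf, Complex.ofReal_tsum]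
  refine tsum_congr fun k => ?_
  rw [mul_apply_eq_comp, ContinuousLinearMap.star_eq_adjoint,
    ContinuousLinearMap.adjoint_inner_right, inner_self_eq_norm_sq_to_K]
  push_cast
  rfl

/-- exchange of the mean and a normal functional -/
theorem vf_mean {G : Type} [CommGroup G] {m : (G → ℂ) → ℂ} (hm : IsMn m)
    (hζ : Summable fun k => ‖ζ k‖ ^ 2) {f : G → (H →L[ℂ] H)} (hf : Bo f) :
    vf ζ (opM m f) = m (fun g => vf ζ (f g)) := by
  obtain ⟨C, hC⟩ := hf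
  have hf : Bo f := ⟨C, hC⟩
  have hC0 : 0 ≤ C := (norm_nonneg _).trans (hC 1)
  have hpart : ∀ n : ℕ, m (fun g => ∑ k ∈ Finset.range n, ⟪ζ k, f g (ζ k)⟫_ℂ) =
      ∑ k ∈ Finset.range n, ⟪ζ k, opM m f (ζ k)⟫_ℂ ∧
      Bc (fun g => ∑ k ∈ Finset.range n, ⟪ζ k, f g (ζ k)⟫_ℂ) := by
    intro n
    induction n with
    | zero => exact ⟨by simpa using hm.const 0, ⟨0, fun x => by simp⟩⟩
    | succ n ih =>
      have h1 : (fun g => ∑ k ∈ Finset.range (n + 1), ⟪ζ k, f g (ζ k)⟫_ℂ) =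
          fun g => (∑ k ∈ Finset.range n, ⟪ζ k, f g (ζ k)⟫_ℂ) + ⟪ζ n, f g (ζ n)⟫_ℂ := by
        funext g
        rw [Finset.sum_range_succ]
      rw [h1]
      refine ⟨?_, ih.2.add (hf.inner _ _)⟩
      rw [hm.add _ _ ih.2 (hf.inner _ _), ih.1, Finset.sum_range_succ, opM_inner hm hf]
  have hbc : Bc (fun g => vf ζ (f g)) := ⟨C * ∑' k, ‖ζ k‖ ^ 2, fun g =>
    (vf_norm hζ (f g)).trans (mul_le_mul_of_nonneg_right (hC g)
      (tsum_nonneg fun k => by positivity))⟩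
  have hlim1 : Filter.Tendsto (fun n => ∑ k ∈ Finset.range n, ⟪ζ k, opM m f (ζ k)⟫_ℂ)
      Filter.atTop (nhds (vf ζ (opM m f))) := (vf_summable hζ _).hasSum.tendsto_sum_nat
  have hlim2 : Filter.Tendsto (fun n => ∑ k ∈ Finset.range n, ⟪ζ k, opM m f (ζ k)⟫_ℂ)
      Filter.atTop (nhds (m (fun g => vf ζ (f g)))) := by
    rw [tendsto_iff_norm_sub_tendsto_zero]
    have htail : Filter.Tendsto (fun n : ℕ => C * ∑' k, ‖ζ (k + n)‖ ^ 2) Filter.atTop
        (nhds 0) := by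
      have := (tendsto_sum_nat_add (fun k => ‖ζ k‖ ^ 2)).const_mul C
      simpa using this
    refine squeeze_zero (fun n => norm_nonneg _) (fun n => ?_) htail
    rw [← (hpart n).1, ← hm.sub _ _ (hpart n).2 hbc]
    refine hm.bound _ _ fun g => ?_
    have h2 := (vf_summable hζ (f g)).sum_add_tsum_nat_add n
    rw [vf, ← h2, sub_add_cancel_left, norm_neg, ← tsum_mul_left]
    refine tsum_of_norm_bounded (((summable_nat_add_iff n).mpr hζ).mul_left C).hasSum fun k => ?_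
    refine (vf_bd (f g) (k + n)).trans ?_
    exact mul_le_mul_of_nonneg_right (hC g) (by positivity)
  exact tendsto_nhds_unique hlim1 hlim2

section

variable {M : VonNeumannAlgebra H} {τ : (H →L[ℂ] H) → ℂ}

theorem IsTrace.add (h : IsTrace M τ) {x y : H →L[ℂ] H} (hx : x ∈ M) (hy : y ∈ M) :
    τ (x + y) = τ x + τ y := by
  obtain ⟨ζ, hζ, hτ⟩ := h.normal
  rw [hτ _ (add_mem hx hy), hτ _ hx, hτ _ hy]
  exact vf_add hζ x y

theorem IsTrace.sub (h : IsTrace M τ) {x y : H →L[ℂ] H} (hx : x ∈ M) (hy : y ∈ M) :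
    τ (x - y) = τ x - τ y := by
  obtain ⟨ζ, hζ, hτ⟩ := h.normal
  rw [hτ _ (sub_mem hx hy), hτ _ hx, hτ _ hy]
  exact vf_sub hζ x y

theorem IsTrace.smul (h : IsTrace M τ) (c : ℂ) {x : H →L[ℂ] H} (hx : x ∈ M) :
    τ (c • x) = c * τ x := by
  obtain ⟨ζ, hζ, hτ⟩ := h.normal
  rw [hτ _ (vn_smul hx c), hτ _ hx]
  exact vf_smul c x

theorem IsTrace.norm_le (h : IsTrace M τ) {x : H →L[ℂ] H} (hx : x ∈ M) : ‖τ x‖ ≤ ‖x‖ := by
  obtain ⟨ζ, hζ, hτ⟩ := h.normal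
  have h1 : (∑' k, ‖ζ k‖ ^ 2 : ℝ) = 1 := by
    have h2 := hτ 1 (one_mem _)
    have h3 := vf_pos (ζ := ζ) 1
    rw [star_one, mul_one] at h3
    rw [h.one] at h2
    have h4 : (1 : ℂ) = ((∑' k, ‖ζ k‖ ^ 2 : ℝ) : ℂ) := by
      rw [h2]
      exact h3
    exact_mod_cast h4.symm
  rw [hτ _ hx]
  have := vf_norm hζ x
  rwa [h1, mul_one] at this

theorem IsTrace.pos (h : IsTrace M τ) {x : H →L[ℂ] H} (hx : x ∈ M) :
    ∃ r : ℝ, 0 ≤ r ∧ τ (star x * x) = r := by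
  obtain ⟨ζ, hζ, hτ⟩ := h.normal
  refine ⟨∑' k, ‖x (ζ k)‖ ^ 2, tsum_nonneg fun k => by positivity, ?_⟩
  rw [hτ _ (mul_mem (star_mem hx) hx)]
  exact vf_pos x

theorem IsTrace.pr (h : IsTrace M τ) {p : H →L[ℂ] H} (hp : p ∈ M) (hpr : IsPr p) :
    0 ≤ (τ p).re ∧ τ p = ((τ p).re : ℂ) := by
  obtain ⟨r, hr, hr'⟩ := h.pos hp
  rw [hpr.1, hpr.2] at hr'
  rw [hr', Complex.ofReal_re]
  exact ⟨hr, rfl⟩

/-- the trace on projections -/
def trP (τ : (H →L[ℂ] H) → ℂ) (p : H →L[ℂ] H) : ℝ≥0∞ := ENNReal.ofReal (τ p).re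

theorem IsTrace.ptr (h : IsTrace M τ) : PTr M (trP τ) := by
  refine ⟨?_, ?_, ?_⟩
  · intro p hp q hq hpp hqq _
    rw [trP, trP, trP, h.add hp hq, Complex.add_re]
    exact ENNReal.ofReal_add (h.pr hp hpp).1 (h.pr hq hqq).1
  · intro v hv _
    rw [trP, trP, h.comm _ (star_mem hv) _ hv]
  · intro p hp hpp h0
    rw [trP, ENNReal.ofReal_eq_zero] at h0
    have h1 := h.pr hp hpp
    have h2 : τ (star p * p) = 0 := by
      rw [hpp.1, hpp.2, h1.2, le_antisymm h0 h1.1]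
      simp
    exact h.faithful p hp h2

theorem IsTrace.trP_ne_top (p : H →L[ℂ] H) : trP τ p ≠ ⊤ := ENNReal.ofReal_ne_top

theorem IsTrace.zero (h : IsTrace M τ) : τ 0 = 0 := by
  have := h.sub (zero_mem M) (zero_mem M)
  simpa using this

/-- the trace as a linear map on `M` -/
def linTr (M : VonNeumannAlgebra H) (τ : (H →L[ℂ] H) → ℂ) (h : IsTrace M τ) :
    M.toStarSubalgebra →ₗ[ℂ] ℂ where
  toFun x := τ (x : H →L[ℂ] H)
  map_add' x y := h.add x.2 y.2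
  map_smul' c x := h.smul c x.2

open scoped ComplexOrder in
theorem IsII1Factor.isII1 (hM : IsII1Factor M) (h : IsTrace M τ) : IsII1 M (linTr M τ h) := by
  refine ⟨hM.factor, hM.infinite, ⟨h.one, ?_, ?_⟩, ?_⟩
  · intro a
    obtain ⟨r, hr, hr'⟩ := h.pos a.2
    change 0 ≤ τ (star (a : H →L[ℂ] H) * (a : H →L[ℂ] H))
    rw [hr']
    exact_mod_cast hr
  · intro a b
    exact h.comm _ a.2 _ b.2
  · intro a ha
    exact Subtype.ext (h.faithful _ a.2 ha)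

theorem IsII1Factor.noAb (hM : IsII1Factor M) (q : H →L[ℂ] H) : NoAb M q := by
  obtain ⟨τ, hτ⟩ := hM.trace
  intro e he hpe _ hab
  by_contra hne
  obtain ⟨p, hpM, hpp, hep, hp0, hpe'⟩ := prove5_nomin prove5_range
    (prove5_comp prove5_join prove5_polar prove5_chain) H M (linTr M τ hτ) (hM.isII1 hτ) e he hpe
    hne
  -- `p = e p e` is close to a multiple of `e`
  have hpe2 : p * e = p := by
    have := congrArg star hep
    rwa [star_mul, hpe.1, hpp.1] at this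
  have h1 : e * p * e = p := by rw [hep, hpe2]
  obtain ⟨z, hz, hzn⟩ := hab p hpM (1 / 4) (by norm_num)
  obtain ⟨c, hc⟩ := hM.factor z hz.1 hz.2
  rw [h1, hc, smul_mul_assoc, one_mul] at hzn
  -- evaluate at `p` and at `e - p`
  have n1 : ‖(1 - c) • p‖ ≤ 1 / 4 := by
    have e1 : (1 - c) • p = (p - c • e) * p := by
      rw [sub_mul, hpp.2, smul_mul_assoc, hep, sub_smul, one_smul]
    rw [e1]
    refine (norm_mul_le _ _).trans ?_
    have := prn hpp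
    nlinarith [norm_nonneg (p - c • e), norm_nonneg p]
  obtain ⟨hr, -, -⟩ := pr_sub hpp hpe hep
  have n2 : ‖c • (e - p)‖ ≤ 1 / 4 := by
    have e1 : c • (e - p) = - ((p - c • e) * (e - p)) := by
      rw [sub_mul, mul_sub, mul_sub, hpp.2, hpe2, smul_mul_assoc, smul_mul_assoc, hpe.2, hep,
        sub_self, smul_sub]
      abel
    rw [e1, norm_neg]
    refine (norm_mul_le _ _).trans ?_
    have := prn hr
    nlinarith [norm_nonneg (p - c • e), norm_nonneg (e - p)]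
  have hnorm : ∀ q : H →L[ℂ] H, IsPr q → q ≠ 0 → ‖q‖ = 1 := by
    intro q hq hq0
    have h2 := CStarRing.norm_star_mul_self (x := q)
    rw [hq.1, hq.2] at h2
    have h3 : ‖q‖ ≠ 0 := norm_ne_zero_iff.mpr hq0
    have h4 : ‖q‖ * (‖q‖ - 1) = 0 := by nlinarith
    rcases mul_eq_zero.mp h4 with h5 | h5
    · exact absurd h5 h3
    · linarith
  have hep0 : e - p ≠ 0 := sub_ne_zero.mpr (Ne.symm hpe')
  rw [norm_smul, hnorm p hpp hp0, mul_one] at n1
  rw [norm_smul, hnorm _ hr hep0, mul_one] at n2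
  have n3 : (1 : ℝ) ≤ ‖1 - c‖ + ‖c‖ := by
    calc (1 : ℝ) = ‖(1 - c) + c‖ := by simp
      _ ≤ _ := norm_add_le _ _
  linarith

theorem IsII1Factor.mu (hM : IsII1Factor M) {p : H →L[ℂ] H} (hp : p ∈ M) (hpp : IsPr p) (k : ℕ) :
    ∃ E : Fin (2 ^ k) → Fin (2 ^ k) → (H →L[ℂ] H), MU M p (2 ^ k) E :=
  dp_Vmu (dp_Vhalf (dp_Vab dp_Vsupp prove5_polar fin_bin) prove5_chain) H M p hp hpp
    (hM.noAb p) k

theorem fac_commutant (hM : IsFac M) : IsFac M.commutant := by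
  intro z hz hzc
  refine hM z ?_ ?_
  · have : z ∈ M.commutant.commutant := by
      rw [VonNeumannAlgebra.mem_commutant_iff]
      exact fun g hg => (hzc g hg).symm
    rwa [VonNeumannAlgebra.commutant_commutant] at this
  · intro a ha
    rw [VonNeumannAlgebra.mem_commutant_iff] at hz
    exact (hz a ha).symm

end

end V11111.CC
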