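import Pool.Agent.V11111.CC.Rop

/-!
Maximal abelian subalgebras and averaging over their unitary groups.
-/

set_option autoImplicit false
open scoped InnerProductSpace ENNReal ComplexConjugate

noncomputable section

namespace V11111.CC

open H759R2.Kad H710R2.DP

variable {H : Type} [NormedAddCommGroup H] [InnerProductSpace ℂ H] [CompleteSpace H]

/-- `A` is a maximal abelian subalgebra of `M` -/
structure IsMasa (A M : VonNeumannAlgebra H) : Prop where
  le : ∀ a ∈ A, a ∈ M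
  comm : ∀ a ∈ A, ∀ b ∈ A, a * b = b * a
  max : ∀ x ∈ M, (∀ a ∈ A, a * x = x * a) → x ∈ A

theorem exists_masa (M : VonNeumannAlgebra H) {p : H →L[ℂ] H} (hp : p ∈ M) (hps : star p = p) :
    ∃ A : VonNeumannAlgebra H, p ∈ A ∧ IsMasa A M := by
  let F : Set (Set (H →L[ℂ] H)) := {S | (∀ a ∈ S, a ∈ M) ∧ (∀ a ∈ S, star a ∈ S) ∧
    ∀ a ∈ S, ∀ b ∈ S, a * b = b * a}
  have hch : ∀ c ⊆ F, IsChain (· ⊆ ·) c → c.Nonempty → ∃ ub ∈ F, ∀ s ∈ c, s ⊆ ub := by
    intro c hc hchain _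
    refine ⟨⋃₀ c, ⟨?_, ?_, ?_⟩, fun s hs => Set.subset_sUnion_of_mem hs⟩
    · rintro a ⟨s, hs, ha⟩
      exact (hc hs).1 a ha
    · rintro a ⟨s, hs, ha⟩
      exact ⟨s, hs, (hc hs).2.1 a ha⟩
    · rintro a ⟨s, hs, ha⟩ b ⟨t, ht, hb⟩
      rcases hchain.total hs ht with h | h
      · exact (hc ht).2.2 a (h ha) b hb
      · exact (hc hs).2.2 a ha b (h hb)
  have hpF : ({p} : Set (H →L[ℂ] H)) ∈ F := by
    refine ⟨?_, ?_, ?_⟩
    · rintro a rfl
      exact hp
    · rintro a rfl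
      exact hps
    · rintro a rfl b rfl
      rfl
  obtain ⟨S, hpS, hS⟩ := zorn_subset_nonempty F hch {p} hpF
  obtain ⟨hS1, hS2, hS3⟩ := hS.prop
  have hmax : ∀ T ∈ M, (∀ s ∈ S, s * T = T * s) → T ∈ S := by
    have hst : ∀ T : H →L[ℂ] H, (∀ s ∈ S, s * T = T * s) → ∀ s ∈ S, s * star T = star T * s := by
      intro T h s hs
      have := congrArg star (h _ (hS2 s hs))
      rw [star_mul, star_mul, star_star] at this
      exact this.symm
    have step : ∀ T ∈ M, (∀ s ∈ S, s * T = T * s) → star T * T = T * star T → T ∈ S := by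
      intro T hT hc hn
      have hc' := hst T hc
      have : S ∪ {T, star T} ∈ F := by
        refine ⟨?_, ?_, ?_⟩
        · rintro a (ha | rfl | rfl)
          · exact hS1 a ha
          · exact hT
          · exact star_mem hT
        · rintro a (ha | rfl | rfl)
          · exact Or.inl (hS2 a ha)
          · exact Or.inr (Or.inr rfl)
          · exact Or.inr (Or.inl (star_star _))
        · rintro a (ha | rfl | rfl) b (hb | rfl | rfl)
          · exact hS3 a ha b hb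
          · exact hc a ha
          · exact hc' a ha
          · exact (hc b hb).symm
          · rfl
          · exact hn.symm
          · exact (hc' b hb).symm
          · exact hn
          · rfl
      exact hS.le_of_ge this Set.subset_union_left (Or.inr (Or.inl rfl))
    intro T hT hc
    have hc' := hst T hc
    have h1 : T + star T ∈ S := by
      refine step _ (add_mem hT (star_mem hT)) (fun s hs => ?_) ?_
      · rw [mul_add, add_mul, hc s hs, hc' s hs]
      · rw [star_add, star_star, add_comm]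
    refine step T hT hc ?_
    have h2 := hc _ h1
    rw [add_mul, mul_add] at h2
    exact add_left_cancel h2
  have hiff : ∀ T, T ∈ S ↔ T ∈ M ∧ ∀ s ∈ S, s * T = T * s :=
    fun T => ⟨fun h => ⟨hS1 T h, fun s hs => hS3 s hs T h⟩, fun h => hmax T h.1 h.2⟩
  let A : VonNeumannAlgebra H :=
    { carrier := S
      mul_mem' := by
        intro a b ha hb
        rw [hiff] at ha hb ⊢
        refine ⟨mul_mem ha.1 hb.1, fun s hs => ?_⟩
        rw [← mul_assoc, ha.2 s hs, mul_assoc, hb.2 s hs, mul_assoc]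
      one_mem' := by
        rw [hiff]
        exact ⟨one_mem M, fun s hs => by rw [mul_one, one_mul]⟩
      add_mem' := by
        intro a b ha hb
        rw [hiff] at ha hb ⊢
        refine ⟨add_mem ha.1 hb.1, fun s hs => ?_⟩
        rw [mul_add, add_mul, ha.2 s hs, hb.2 s hs]
      zero_mem' := by
        rw [hiff]
        exact ⟨zero_mem M, fun s hs => by rw [mul_zero, zero_mul]⟩
      algebraMap_mem' := by
        intro r
        rw [hiff]
        exact ⟨vn_algebraMap M r, fun s hs => (Algebra.commutes r s).symm⟩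
      star_mem' := fun {a} ha => hS2 a ha
      centralizer_centralizer' := by
        refine Set.Subset.antisymm ?_ Set.subset_centralizer_centralizer
        intro T hT
        rw [Set.mem_centralizer_iff] at hT
        have h1 : T ∈ M := by
          refine mem_of_comm M T fun m hm => hT m ?_
          rw [Set.mem_centralizer_iff]
          intro s hs
          rw [VonNeumannAlgebra.mem_commutant_iff] at hm
          exact hm s (hS1 s hs)
        exact hmax T h1 fun s hs => hT s (by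
          rw [Set.mem_centralizer_iff]
          exact fun t ht => hS3 t ht s hs) }
  exact ⟨A, hpS rfl, hS1, hS3, hmax⟩

/-- `A` is abelian -/
def IsAb (A : VonNeumannAlgebra H) : Prop := ∀ a ∈ A, ∀ b ∈ A, a * b = b * a

/-- unitaries of `A` -/
def UG (A : VonNeumannAlgebra H) (_ : IsAb A) : Type :=
  {u : H →L[ℂ] H // u ∈ A ∧ star u * u = 1 ∧ u * star u = 1}

/-- the unitary group of an abelian algebra -/
instance (A : VonNeumannAlgebra H) (hA : IsAb A) : CommGroup (UG A hA) where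
  mul u v := ⟨u.1 * v.1, mul_mem u.2.1 v.2.1, by
    rw [star_mul, mul_assoc, ← mul_assoc (star u.1), u.2.2.1, one_mul, v.2.2.1], by
    rw [star_mul, mul_assoc, ← mul_assoc v.1, v.2.2.2, one_mul, u.2.2.2]⟩
  mul_assoc u v w := Subtype.ext (mul_assoc _ _ _)
  one := ⟨1, one_mem A, by rw [star_one, one_mul], by rw [star_one, one_mul]⟩
  one_mul u := Subtype.ext (one_mul _)
  mul_one u := Subtype.ext (mul_one _)
  inv u := ⟨star u.1, star_mem u.2.1, by rw [star_star, u.2.2.2], by rw [star_star, u.2.2.1]⟩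
  inv_mul_cancel u := Subtype.ext u.2.2.1
  mul_comm u v := Subtype.ext (hA _ u.2.1 _ v.2.1)

theorem ab_induct {A : VonNeumannAlgebra H} (hA : IsAb A)
    (S : Submodule ℂ (H →L[ℂ] H)) (hS : IsClosed (S : Set (H →L[ℂ] H)))
    (hp : ∀ p ∈ A, IsPr p → p ∈ S) : ∀ a ∈ A, a ∈ S := by
  intro a ha
  have h1 : a ∈ closure (S : Set (H →L[ℂ] H)) := by
    rw [Metric.mem_closure_iff]
    intro ε hε
    obtain ⟨n, c, p, hp1, hp2⟩ := dp_span fin_bin H A a ⟨ha, fun b hb => hA a ha b hb⟩ (ε / 2)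
      (by linarith)
    refine ⟨∑ k, c k • p k, sum_mem fun k _ => S.smul_mem _ (hp _ (hp1 k).2.1 (hp1 k).1), ?_⟩
    rw [dist_eq_norm]
    linarith
  rwa [hS.closure_eq] at h1

/-- symmetry of a projection -/
theorem sym_uni {p : H →L[ℂ] H} (hp : IsPr p) :
    star (1 - (2 : ℂ) • p) * (1 - (2 : ℂ) • p) = 1 ∧
      (1 - (2 : ℂ) • p) * star (1 - (2 : ℂ) • p) = 1 := by
  have h1 : star (1 - (2 : ℂ) • p) = 1 - (2 : ℂ) • p := by
    rw [star_sub, star_one, star_smul, hp.1]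
    congr 2
    simp
  have h2 : (1 - (2 : ℂ) • p) * (1 - (2 : ℂ) • p) = 1 := by
    rw [sub_mul, mul_sub, mul_sub, one_mul, mul_one, one_mul, smul_mul_smul_comm, hp.2]
    module
  rw [h1]
  exact ⟨h2, h2⟩

theorem ab_uni {A : VonNeumannAlgebra H} (hA : IsAb A)
    (S : Submodule ℂ (H →L[ℂ] H)) (hS : IsClosed (S : Set (H →L[ℂ] H)))
    (hu : ∀ u ∈ A, star u * u = 1 → u * star u = 1 → u ∈ S) : ∀ a ∈ A, a ∈ S := by
  refine ab_induct hA S hS fun p hp hpp => ?_
  have h1 : (1 : H →L[ℂ] H) ∈ S := hu 1 (one_mem A) (by simp) (by simp)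
  have h2 : 1 - (2 : ℂ) • p ∈ S := hu _ (sub_mem (one_mem A) (vn_smul hp 2)) (sym_uni hpp).1
    (sym_uni hpp).2
  have h3 : p = (1 / 2 : ℂ) • (1 - (1 - (2 : ℂ) • p)) := by
    rw [sub_sub_cancel, smul_smul]
    norm_num
  rw [h3]
  exact S.smul_mem _ (S.sub_mem h1 h2)

variable {A : VonNeumannAlgebra H} {hA : IsAb A}

/-- averaging over the unitaries of `A` -/
def eA (A : VonNeumannAlgebra H) (hA : IsAb A) (m : (UG A hA → ℂ) → ℂ) (x : H →L[ℂ] H) :
    H →L[ℂ] H := opM m (fun g : UG A hA => g.1 * x * star g.1)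

theorem uni_conj_norm {u x : H →L[ℂ] H} (h : star u * u = 1) : ‖u * x * star u‖ ≤ ‖x‖ := by
  have h1 := norm_uni h
  have h2 := norm_mul_le (u * x) (star u)
  have h3 := norm_mul_le u x
  rw [norm_star] at h2
  nlinarith [norm_nonneg (u * x), norm_nonneg x, norm_nonneg u]

theorem eA_bo (x : H →L[ℂ] H) : Bo (fun g : UG A hA => g.1 * x * star g.1) :=
  ⟨‖x‖, fun g => uni_conj_norm g.2.2.1⟩

variable {m : (UG A hA → ℂ) → ℂ}

theorem eA_comm (hm : IsMn m) (x : H →L[ℂ] H) : ∀ a ∈ A, a * eA A hA m x = eA A hA m x * a := by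
  let S : Submodule ℂ (H →L[ℂ] H) :=
    { carrier := {a | a * eA A hA m x = eA A hA m x * a}
      add_mem' := by
        intro a b ha hb
        rw [Set.mem_ofPred_eq] at ha hb ⊢
        rw [add_mul, mul_add, ha, hb]
      zero_mem' := by
        rw [Set.mem_ofPred_eq, zero_mul, mul_zero]
      smul_mem' := by
        intro c a ha
        rw [Set.mem_ofPred_eq] at ha ⊢
        rw [smul_mul_assoc, mul_smul_comm, ha] }
  have hS : IsClosed (S : Set (H →L[ℂ] H)) :=
    isClosed_eq (continuous_id.mul continuous_const) (continuous_const.mul continuous_id)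
  refine ab_uni hA S hS fun u hu h1 h2 => ?_
  change u * eA A hA m x = eA A hA m x * u
  let u' : UG A hA := ⟨u, hu, h1, h2⟩
  have e1 : u * eA A hA m x * star u = eA A hA m x := by
    rw [eA, ← opM_mulL hm (eA_bo x), ← opM_mulR hm ((eA_bo x).mulL u)]
    have e2 := opM_shift hm (eA_bo (hA := hA) x) u'
    rw [← e2]
    congr 1
    funext g
    have e3 : (g * u').1 = u * g.1 := hA _ g.2.1 _ hu
    rw [e3, star_mul]
    simp only [mul_assoc]
  conv_rhs => rw [← e1]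
  rw [mul_assoc, h1, mul_one]

theorem eA_mem (hm : IsMn m) {N : VonNeumannAlgebra H} (hAN : ∀ a ∈ A, a ∈ N)
    {x : H →L[ℂ] H} (hx : x ∈ N) : eA A hA m x ∈ N :=
  opM_mem hm N (eA_bo x) fun g => mul_mem (mul_mem (hAN _ g.2.1) hx) (star_mem (hAN _ g.2.1))

theorem eA_near (hm : IsMn m) {x T : H →L[ℂ] H} {C : ℝ} (hT : ∀ a ∈ A, a * T = T * a)
    (hC : ‖x - T‖ ≤ C) : ‖eA A hA m x - T‖ ≤ C := by
  refine opM_near hm (eA_bo x) T fun g => ?_
  have e1 : g.1 * x * star g.1 - T = g.1 * (x - T) * star g.1 := by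
    rw [mul_sub, sub_mul, hT _ g.2.1, mul_assoc T, g.2.2.2, mul_one]
  rw [e1]
  exact (uni_conj_norm g.2.2.1).trans hC

theorem eA_mul (hm : IsMn m) {x a : H →L[ℂ] H} (ha : a ∈ A) :
    eA A hA m (x * a) = eA A hA m x * a := by
  rw [eA, eA, ← opM_mulR hm (eA_bo x)]
  congr 1
  funext g
  rw [← mul_assoc, mul_assoc (g.1 * x) a, mul_assoc (g.1 * x), hA _ ha _ (star_mem g.2.1)]

theorem eA_vec (hm : IsMn m) {x : H →L[ℂ] H} {ξ : H}
    (h : ∀ g : UG A hA, ⟪ξ, (g.1 * x * star g.1) ξ⟫_ℂ = ⟪ξ, x ξ⟫_ℂ) :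
    ⟪ξ, eA A hA m x ξ⟫_ℂ = ⟪ξ, x ξ⟫_ℂ := by
  rw [eA, opM_inner hm (eA_bo x)]
  rw [show (fun g : UG A hA => ⟪ξ, (g.1 * x * star g.1) ξ⟫_ℂ) = fun _ => ⟪ξ, x ξ⟫_ℂ from
    funext h, hm.const]

theorem eA_tr (hm : IsMn m) {N : VonNeumannAlgebra H} {τ : (H →L[ℂ] H) → ℂ}
    (hτ : IsTrace N τ) (hAN : ∀ a ∈ A, a ∈ N) {x : H →L[ℂ] H} (hx : x ∈ N) :
    τ (eA A hA m x) = τ x := by
  obtain ⟨ζ, hζ, hn⟩ := hτ.normal
  rw [hn _ (eA_mem hm hAN hx)]
  have e1 := vf_mean hm hζ (eA_bo (hA := hA) x)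
  rw [vf] at e1
  rw [eA, e1]
  have e2 : (fun g : UG A hA => vf ζ (g.1 * x * star g.1)) = fun _ => τ x := by
    funext g
    have hg := hAN _ g.2.1
    have e3 := hn (g.1 * x * star g.1) (mul_mem (mul_mem hg hx) (star_mem hg))
    rw [vf, ← e3, mul_assoc, hτ.comm _ hg _ (mul_mem hx (star_mem hg)), mul_assoc, g.2.2.1,
      mul_one]
  rw [e2, hm.const]

theorem Near.scale {γ : ℝ} {P Q : VonNeumannAlgebra H} (h : Near γ P Q) {x : H →L[ℂ] H}
    (hx : x ∈ P) : ∃ y ∈ Q, ‖x - y‖ ≤ γ * ‖x‖ := by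
  by_cases h0 : ‖x‖ = 0
  · refine ⟨0, zero_mem Q, ?_⟩
    rw [sub_zero, h0, mul_zero]
  · have hpos : 0 < ‖x‖ := lt_of_le_of_ne (norm_nonneg _) (Ne.symm h0)
    obtain ⟨y, hy, hyn⟩ := h (((‖x‖⁻¹ : ℝ) : ℂ) • x) (vn_smul hx _) (by
      rw [norm_smul, Complex.norm_real, Real.norm_of_nonneg (by positivity),
        inv_mul_cancel₀ h0])
    refine ⟨((‖x‖ : ℝ) : ℂ) • y, vn_smul hy _, ?_⟩
    have e1 : x - ((‖x‖ : ℝ) : ℂ) • y =
        ((‖x‖ : ℝ) : ℂ) • ((((‖x‖⁻¹ : ℝ) : ℂ) • x) - y) := by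
      rw [smul_sub, smul_smul, ← Complex.ofReal_mul, mul_inv_cancel₀ h0, Complex.ofReal_one,
        one_smul]
    rw [e1, norm_smul, Complex.norm_real, Real.norm_of_nonneg hpos.le, mul_comm]
    exact mul_le_mul_of_nonneg_right hyn hpos.le

/-- a masa of `M` contained in a close algebra `N` is a masa of `N` -/
theorem masa_near {M N : VonNeumannAlgebra H} (hM : IsMasa A M) (hAN : ∀ a ∈ A, a ∈ N)
    {γ : ℝ} (hγ : γ ≤ 1 / 2) (hN : Near γ N M) : IsMasa A N := by
  refine ⟨hAN, hM.comm, ?_⟩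
  have hA : IsAb A := hM.comm
  obtain ⟨m, hm⟩ := exists_mn (UG A hA)
  have step : ∀ x ∈ N, (∀ a ∈ A, a * x = x * a) → ∃ z ∈ A, ‖x - z‖ ≤ 1 / 2 * ‖x‖ := by
    intro x hx hc
    obtain ⟨y, hy, hyn⟩ := hN.scale hx
    refine ⟨eA A hA m y, hM.max _ (eA_mem hm hM.le hy) (eA_comm hm y), ?_⟩
    rw [norm_sub_rev]
    refine eA_near hm hc ?_
    rw [norm_sub_rev]
    exact hyn.trans (mul_le_mul_of_nonneg_right hγ (norm_nonneg _))
  have iter : ∀ n : ℕ, ∀ x ∈ N, (∀ a ∈ A, a * x = x * a) →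
      ∃ z ∈ A, ‖x - z‖ ≤ (1 / 2) ^ n * ‖x‖ := by
    intro n
    induction n with
    | zero => exact fun x _ _ => ⟨0, zero_mem A, by simp⟩
    | succ n ih =>
      intro x hx hc
      obtain ⟨z, hz, hzn⟩ := step x hx hc
      obtain ⟨w, hw, hwn⟩ := ih (x - z) (sub_mem hx (hAN z hz)) fun a ha => by
        rw [mul_sub, sub_mul, hc a ha, hA a ha z hz]
      refine ⟨z + w, add_mem hz hw, ?_⟩
      rw [← sub_sub]
      refine hwn.trans ?_
      rw [pow_succ, mul_assoc]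
      exact mul_le_mul_of_nonneg_left hzn (by positivity)
  intro x hx hc
  have h1 : x ∈ closure {y : H →L[ℂ] H | y ∈ A} := by
    rw [Metric.mem_closure_iff]
    intro ε hε
    obtain ⟨n, hn⟩ := exists_pow_lt_of_lt_one (div_pos hε (by positivity : 0 < ‖x‖ + 1))
      (by norm_num : (1 / 2 : ℝ) < 1)
    obtain ⟨z, hz, hzn⟩ := iter n x hx hc
    refine ⟨z, hz, ?_⟩
    rw [dist_eq_norm]
    have : (1 / 2) ^ n * (‖x‖ + 1) < ε := by rwa [lt_div_iff₀ (by positivity)] at hn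
    have h2 : (0 : ℝ) < (1 / 2) ^ n := by positivity
    nlinarith
  rwa [(vn_closed A).closure_eq] at h1

end V11111.CC
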