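import Pool.Agent.V11111.CC.Base

/-!
Invariant means on commutative groups, complex and operator valued.
-/

set_option autoImplicit false
open scoped InnerProductSpace ENNReal ComplexConjugate

noncomputable section

namespace V11111.CC

/-- bounded complex function -/
def Bc {G : Type} (f : G → ℂ) : Prop := ∃ C : ℝ, ∀ x, ‖f x‖ ≤ C

/-- invariant mean, complex valued -/
structure IsMn {G : Type} [CommGroup G] (m : (G → ℂ) → ℂ) : Prop where
  add : ∀ f g, Bc f → Bc g → m (fun x => f x + g x) = m f + m g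
  smul : ∀ (c : ℂ) f, Bc f → m (fun x => c * f x) = c * m f
  const : ∀ c : ℂ, m (fun _ => c) = c
  bound : ∀ f C, (∀ x, ‖f x‖ ≤ C) → ‖m f‖ ≤ C
  inv : ∀ f a, Bc f → m (fun x => f (x * a)) = m f
  star : ∀ f, Bc f → m (fun x => conj (f x)) = conj (m f)

theorem Bc.add {G : Type} {f g : G → ℂ} (hf : Bc f) (hg : Bc g) : Bc (fun x => f x + g x) := by
  obtain ⟨C, hC⟩ := hf
  obtain ⟨D, hD⟩ := hg
  exact ⟨C + D, fun x => (norm_add_le _ _).trans (add_le_add (hC x) (hD x))⟩

theorem Bc.smul {G : Type} {f : G → ℂ} (hf : Bc f) (c : ℂ) : Bc (fun x => c * f x) := by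
  obtain ⟨C, hC⟩ := hf
  exact ⟨‖c‖ * C, fun x => by
    rw [norm_mul]
    exact mul_le_mul_of_nonneg_left (hC x) (norm_nonneg _)⟩

open Gardner in
theorem exists_mn (G : Type) [CommGroup G] : ∃ m : (G → ℂ) → ℂ, IsMn m := by
  obtain ⟨M, hadd, hpos, hone, hbd, hinv⟩ := exists_mean (Additive G)
  -- real homogeneity
  have hzero : M (fun _ => 0) = 0 := by
    have h := hbd (fun _ => 0) 0 (fun x => by simp)
    exact abs_nonpos_iff.mp h
  have hneg : ∀ f, Bdd f → M (-f) = - M f := by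
    intro f hf
    obtain ⟨C, hC⟩ := hf
    have h1 := hadd f (-f) ⟨C, hC⟩ ⟨C, fun x => by simpa using hC x⟩
    have h2 : f + -f = fun _ => 0 := by
      funext x
      simp
    rw [h2, hzero] at h1
    linarith
  have hcont : ∀ f g C, (∀ x, |f x - g x| ≤ C) → Bdd f → Bdd g → |M f - M g| ≤ C := by
    intro f g C hC hf hg
    obtain ⟨D, hD⟩ := hg
    have h1 : M (f + -g) = M f + M (-g) := hadd f (-g) hf ⟨D, fun x => by simpa using hD x⟩
    rw [hneg g ⟨D, hD⟩] at h1
    rw [show M f - M g = M (f + -g) by rw [h1]; ring]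
    exact hbd _ C (fun x => by simpa [sub_eq_add_neg] using hC x)
  have hnat : ∀ (n : ℕ) f, Bdd f → M (fun x => n * f x) = n * M f := by
    intro n f hf
    obtain ⟨C, hC⟩ := hf
    have hb : ∀ k : ℕ, Bdd (fun x => (k : ℝ) * f x) := fun k => ⟨k * C, fun x => by
      rw [abs_mul, abs_of_nonneg (by positivity : (0 : ℝ) ≤ k)]
      exact mul_le_mul_of_nonneg_left (hC x) (by positivity)⟩
    induction n with
    | zero => simpa using hzero
    | succ n ih =>
      have h1 := hadd (fun x => (n : ℝ) * f x) f (hb n) ⟨C, hC⟩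
      have h2 : (fun x => ((n + 1 : ℕ) : ℝ) * f x) = (fun x => (n : ℝ) * f x) + f := by
        funext x
        simp only [Pi.add_apply]
        push_cast
        ring
      rw [h2, h1, ih]
      push_cast
      ring
  have hint : ∀ (n : ℤ) f, Bdd f → M (fun x => n * f x) = n * M f := by
    intro n f hf
    obtain ⟨C, hC⟩ := hf
    obtain ⟨k, rfl | rfl⟩ := n.eq_nat_or_neg
    · simpa using hnat k f ⟨C, hC⟩
    · have hb : Bdd (fun x => (k : ℝ) * f x) := ⟨k * C, fun x => by
        rw [abs_mul, abs_of_nonneg (by positivity : (0 : ℝ) ≤ k)]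
        exact mul_le_mul_of_nonneg_left (hC x) (by positivity)⟩
      have h2 : (fun x => ((-(k : ℤ) : ℤ) : ℝ) * f x) = -(fun x => (k : ℝ) * f x) := by
        funext x
        simp
      rw [h2, hneg _ hb, hnat k f ⟨C, hC⟩]
      push_cast
      ring
  have hreal : ∀ (c : ℝ) f, Bdd f → M (fun x => c * f x) = c * M f := by
    intro c f hf
    obtain ⟨C, hC⟩ := hf
    have hC0 : 0 ≤ C := (abs_nonneg _).trans (hC 0)
    have hb : ∀ c : ℝ, Bdd (fun x => c * f x) := fun c => ⟨|c| * C, fun x => by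
      rw [abs_mul]
      exact mul_le_mul_of_nonneg_left (hC x) (abs_nonneg _)⟩
    have hMf : |M f| ≤ C := hbd f C hC
    -- approximate `c` by `⌊n c⌋ / n`
    by_contra hne
    set d := |M (fun x => c * f x) - c * M f| with hd
    have hd0 : 0 < d := abs_pos.mpr (sub_ne_zero.mpr hne)
    obtain ⟨n, hn⟩ := exists_nat_gt (2 * C / d)
    have hn0 : 0 < (n : ℝ) := lt_of_le_of_lt (by positivity) hn
    have h1 := hnat n _ (hb c)
    have h2 := hint ⌊(n : ℝ) * c⌋ f ⟨C, hC⟩
    have h3 := hcont (fun x => n * (c * f x)) (fun x => (⌊(n : ℝ) * c⌋ : ℝ) * f x) C (by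
      intro x
      have h4 : (n : ℝ) * (c * f x) - (⌊(n : ℝ) * c⌋ : ℝ) * f x =
        ((n : ℝ) * c - ⌊(n : ℝ) * c⌋) * f x := by ring
      rw [h4, abs_mul]
      have h5 := Int.fract_nonneg ((n : ℝ) * c)
      have h6 := Int.fract_lt_one ((n : ℝ) * c)
      rw [← Int.self_sub_floor] at h5 h6
      rw [abs_of_nonneg h5]
      calc _ ≤ 1 * C := mul_le_mul h6.le (hC x) (abs_nonneg _) (by norm_num)
        _ = C := one_mul C) (by
          obtain ⟨D, hD⟩ := hb c
          exact ⟨n * D, fun x => by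
            rw [abs_mul, abs_of_nonneg hn0.le]
            exact mul_le_mul_of_nonneg_left (hD x) hn0.le⟩) (hb _)
    rw [h1, h2] at h3
    have h5 := Int.fract_nonneg ((n : ℝ) * c)
    have h6 := Int.fract_lt_one ((n : ℝ) * c)
    rw [← Int.self_sub_floor] at h5 h6
    have h7 : (n : ℝ) * d ≤ 2 * C := by
      rw [hd, ← abs_of_nonneg hn0.le, ← abs_mul]
      have h8 : (n : ℝ) * (M (fun x => c * f x) - c * M f) =
          (n * M (fun x => c * f x) - ⌊(n : ℝ) * c⌋ * M f) - ((n : ℝ) * c - ⌊(n : ℝ) * c⌋) * M f := by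
        ring
      rw [h8]
      refine (abs_sub _ _).trans ?_
      have h9 : |((n : ℝ) * c - ⌊(n : ℝ) * c⌋) * M f| ≤ C := by
        rw [abs_mul, abs_of_nonneg h5]
        calc _ ≤ 1 * C := mul_le_mul h6.le hMf (abs_nonneg _) (by norm_num)
          _ = C := one_mul C
      linarith
    rw [div_lt_iff₀ hd0] at hn
    linarith
  -- complex mean
  have hBre : ∀ f : G → ℂ, Bc f → Bdd (fun x : Additive G => (f x.toMul).re) := by
    rintro f ⟨C, hC⟩
    exact ⟨C, fun x => (Complex.abs_re_le_norm _).trans (hC _)⟩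
  have hBim : ∀ f : G → ℂ, Bc f → Bdd (fun x : Additive G => (f x.toMul).im) := by
    rintro f ⟨C, hC⟩
    exact ⟨C, fun x => (Complex.abs_im_le_norm _).trans (hC _)⟩
  have hBs : ∀ (c : ℝ) (f : Additive G → ℝ), Bdd f → Bdd (fun x => c * f x) := by
    rintro c f ⟨C, hC⟩
    exact ⟨|c| * C, fun x => by
      rw [abs_mul]
      exact mul_le_mul_of_nonneg_left (hC x) (abs_nonneg _)⟩
  set m : (G → ℂ) → ℂ := fun f => ⟨M (fun x => (f x.toMul).re), M (fun x => (f x.toMul).im)⟩ with hm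
  have hmadd : ∀ f g, Bc f → Bc g → m (fun x => f x + g x) = m f + m g := by
    intro f g hf hg
    apply Complex.ext
    · simp only [hm, Complex.add_re]
      exact hadd _ _ (hBre f hf) (hBre g hg)
    · simp only [hm, Complex.add_im]
      exact hadd _ _ (hBim f hf) (hBim g hg)
  have hmsmul : ∀ (c : ℂ) f, Bc f → m (fun x => c * f x) = c * m f := by
    intro c f hf
    have h1 := hreal c.re _ (hBre f hf)
    have h2 := hreal c.im _ (hBim f hf)
    have h3 := hreal c.re _ (hBim f hf)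
    have h4 := hreal c.im _ (hBre f hf)
    apply Complex.ext
    · simp only [hm, Complex.mul_re]
      rw [← h1, ← h2]
      have h5 := hadd (fun x : Additive G => c.re * (f x.toMul).re)
        (-(fun x : Additive G => c.im * (f x.toMul).im)) (hBs _ _ (hBre f hf)) (by
          obtain ⟨D, hD⟩ := hBs c.im _ (hBim f hf)
          exact ⟨D, fun x => by simpa using hD x⟩)
      rw [hneg _ (hBs c.im _ (hBim f hf))] at h5
      rw [sub_eq_add_neg, ← h5]
      rfl
    · simp only [hm, Complex.mul_im]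
      rw [← h3, ← h4]
      exact hadd _ _ (hBs _ _ (hBim f hf)) (hBs _ _ (hBre f hf))
  have hmconst : ∀ c : ℂ, m (fun _ => c) = c := by
    intro c
    have h1 := hreal c.re (fun _ => 1) ⟨1, fun x => by simp⟩
    have h2 := hreal c.im (fun _ => 1) ⟨1, fun x => by simp⟩
    rw [hone] at h1 h2
    apply Complex.ext
    · simp only [hm]
      simpa using h1
    · simp only [hm]
      simpa using h2
  refine ⟨m, hmadd, hmsmul, hmconst, ?_, ?_, ?_⟩
  · intro f C hC
    have hf : Bc f := ⟨C, hC⟩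
    rcases eq_or_ne (m f) 0 with h0 | h0
    · rw [h0, norm_zero]
      exact (norm_nonneg _).trans (hC 1)
    · -- rotate
      set u : ℂ := conj (m f) / ‖m f‖ with hu
      have hn : (‖m f‖ : ℂ) ≠ 0 := by
        rw [Ne, Complex.ofReal_eq_zero]
        exact norm_ne_zero_iff.mpr h0
      have hun : ‖u‖ = 1 := by
        rw [hu, norm_div, RCLike.norm_conj, Complex.norm_real, norm_norm]
        exact div_self (norm_ne_zero_iff.mpr h0)
      have h1 : m (fun x => u * f x) = ‖m f‖ := by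
        rw [hmsmul u f hf, hu, div_mul_eq_mul_div, mul_comm (conj (m f)), Complex.mul_conj,
          Complex.normSq_eq_norm_sq]
        push_cast
        field_simp
      have h2 : (m (fun x => u * f x)).re = ‖m f‖ := by
        rw [h1, Complex.ofReal_re]
      have h3 : |(m (fun x => u * f x)).re| ≤ C := by
        simp only [hm]
        refine hbd _ C fun x => (Complex.abs_re_le_norm _).trans ?_
        rw [norm_mul, hun, one_mul]
        exact hC _
      rw [h2, abs_of_nonneg (norm_nonneg _)] at h3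
      exact h3
  · intro f a hf
    apply Complex.ext
    · simp only [hm]
      rw [← hinv (fun x => (f x.toMul).re) (Additive.ofMul a) (hBre f hf)]
      congr 1
      funext x
      rw [toMul_add, toMul_ofMul, mul_comm]
    · simp only [hm]
      rw [← hinv (fun x => (f x.toMul).im) (Additive.ofMul a) (hBim f hf)]
      congr 1
      funext x
      rw [toMul_add, toMul_ofMul, mul_comm]
  · intro f hf
    apply Complex.ext
    · simp only [hm, Complex.conj_re]
    · simp only [hm, Complex.conj_im]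
      exact hneg _ (hBim f hf)

theorem IsMn.sub {G : Type} [CommGroup G] {m : (G → ℂ) → ℂ} (hm : IsMn m) (f g : G → ℂ)
    (hf : Bc f) (hg : Bc g) : m (fun x => f x - g x) = m f - m g := by
  have h1 := hm.add f (fun x => (-1) * g x) hf (hg.smul _)
  rw [hm.smul (-1) g hg] at h1
  simp only [neg_mul, one_mul, ← sub_eq_add_neg] at h1
  exact h1

section op

variable {H : Type} [NormedAddCommGroup H] [InnerProductSpace ℂ H] [CompleteSpace H]
variable {G : Type} [CommGroup G] {m : (G → ℂ) → ℂ}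

/-- bounded operator function -/
def Bo (f : G → (H →L[ℂ] H)) : Prop := ∃ C : ℝ, ∀ x, ‖f x‖ ≤ C

theorem Bo.inner {f : G → (H →L[ℂ] H)} (hf : Bo f) (u v : H) :
    Bc (fun x => ⟪u, f x v⟫_ℂ) := by
  obtain ⟨C, hC⟩ := hf
  refine ⟨‖u‖ * (C * ‖v‖), fun x => (norm_inner_le_norm _ _).trans ?_⟩
  refine mul_le_mul_of_nonneg_left ?_ (norm_nonneg _)
  exact ((f x).le_opNorm v).trans (mul_le_mul_of_nonneg_right (hC x) (norm_nonneg _))

theorem exists_opM (hm : IsMn m) (f : G → (H →L[ℂ] H)) (C : ℝ) (hC : ∀ x, ‖f x‖ ≤ C) :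
    ∃ T : H →L[ℂ] H, ∀ u v, ⟪u, T v⟫_ℂ = m (fun x => ⟪u, f x v⟫_ℂ) := by
  have hf : Bo f := ⟨C, hC⟩
  -- conjugate-linear in the first variable
  have hb1 : ∀ u v : H, Bc (fun x => ⟪f x u, v⟫_ℂ) := by
    intro u v
    obtain ⟨D, hD⟩ := hf.inner v u
    refine ⟨D, fun x => ?_⟩
    show ‖⟪f x u, v⟫_ℂ‖ ≤ D
    rw [← inner_conj_symm, RCLike.norm_conj]
    exact hD x
  let B₀ : H →ₗ⋆[ℂ] H →ₗ[ℂ] ℂ := LinearMap.mk₂'ₛₗ (starRingEnd ℂ) (RingHom.id ℂ)
    (fun u v => m (fun x => ⟪f x u, v⟫_ℂ))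
    (by
      intro u u' v
      rw [← hm.add _ _ (hb1 u v) (hb1 u' v)]
      congr 1
      funext x
      rw [map_add, inner_add_left])
    (by
      intro c u v
      rw [smul_eq_mul, ← hm.smul _ _ (hb1 u v)]
      congr 1
      funext x
      rw [map_smul, inner_smul_left])
    (by
      intro u v v'
      rw [← hm.add _ _ (hb1 u v) (hb1 u v')]
      congr 1
      funext x
      rw [inner_add_right])
    (by
      intro c u v
      rw [smul_eq_mul, RingHom.id_apply, ← hm.smul _ _ (hb1 u v)]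
      congr 1
      funext x
      rw [inner_smul_right])
  have hB₀ : ∀ u v, B₀ u v = m (fun x => ⟪f x u, v⟫_ℂ) := fun u v => rfl
  let B : H →L⋆[ℂ] H →L[ℂ] ℂ := LinearMap.mkContinuous₂ B₀ C (by
    intro u v
    rw [hB₀]
    refine hm.bound _ _ fun x => ?_
    refine (norm_inner_le_norm _ _).trans ?_
    exact mul_le_mul_of_nonneg_right (((f x).le_opNorm u).trans
      (mul_le_mul_of_nonneg_right (hC x) (norm_nonneg _))) (norm_nonneg _))
  refine ⟨InnerProductSpace.continuousLinearMapOfBilin B, fun u v => ?_⟩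
  rw [← inner_conj_symm, InnerProductSpace.continuousLinearMapOfBilin_apply]
  change conj (m (fun x => ⟪f x v, u⟫_ℂ)) = _
  rw [← hm.star _ (hb1 v u)]
  congr 1
  funext x
  rw [inner_conj_symm]

/-- operator valued mean -/
def opM (m : (G → ℂ) → ℂ) (f : G → (H →L[ℂ] H)) : H →L[ℂ] H := by
  classical
  exact if h : ∃ T : H →L[ℂ] H, ∀ u v, ⟪u, T v⟫_ℂ = m (fun x => ⟪u, f x v⟫_ℂ) then h.choose else 0

theorem opM_inner (hm : IsMn m) {f : G → (H →L[ℂ] H)} (hf : Bo f) (u v : H) :
    ⟪u, opM m f v⟫_ℂ = m (fun x => ⟪u, f x v⟫_ℂ) := by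
  obtain ⟨C, hC⟩ := hf
  have h := exists_opM hm f C hC
  rw [opM, dif_pos h]
  exact h.choose_spec u v

theorem op_ext' {S T : H →L[ℂ] H} (h : ∀ u v, ⟪u, S v⟫_ℂ = ⟪u, T v⟫_ℂ) : S = T := by
  ext v
  exact ext_inner_left ℂ fun u => h u v

theorem opM_norm (hm : IsMn m) {f : G → (H →L[ℂ] H)} {C : ℝ} (hC : ∀ x, ‖f x‖ ≤ C) :
    ‖opM m f‖ ≤ C := by
  have hC0 : 0 ≤ C := (norm_nonneg _).trans (hC 1)
  refine ContinuousLinearMap.opNorm_le_bound _ hC0 fun v => ?_
  have h1 : ‖⟪opM m f v, opM m f v⟫_ℂ‖ ≤ ‖opM m f v‖ * (C * ‖v‖) := by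
    rw [opM_inner hm ⟨C, hC⟩]
    refine hm.bound _ _ fun x => (norm_inner_le_norm _ _).trans ?_
    exact mul_le_mul_of_nonneg_left (((f x).le_opNorm v).trans
      (mul_le_mul_of_nonneg_right (hC x) (norm_nonneg _))) (norm_nonneg _)
  rw [inner_self_eq_norm_sq_to_K] at h1
  simp only [norm_pow, RCLike.norm_ofReal, abs_norm, Complex.coe_algebraMap,
    Complex.norm_real, norm_norm] at h1
  rcases eq_or_ne (opM m f v) 0 with h0 | h0
  · rw [h0, norm_zero]
    positivity
  · have h2 : 0 < ‖opM m f v‖ := norm_pos_iff.mpr h0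
    rw [pow_two] at h1
    exact le_of_mul_le_mul_left h1 h2

theorem opM_add (hm : IsMn m) {f g : G → (H →L[ℂ] H)} (hf : Bo f) (hg : Bo g) :
    opM m (fun x => f x + g x) = opM m f + opM m g := by
  have hfg : Bo (fun x => f x + g x) := by
    obtain ⟨C, hC⟩ := hf
    obtain ⟨D, hD⟩ := hg
    exact ⟨C + D, fun x => (norm_add_le _ _).trans (add_le_add (hC x) (hD x))⟩
  apply op_ext'
  intro u v
  rw [opM_inner hm hfg, add_apply, inner_add_right, opM_inner hm hf, opM_inner hm hg,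
    ← hm.add _ _ (hf.inner u v) (hg.inner u v)]
  congr 1
  funext x
  rw [add_apply, inner_add_right]

theorem Bo.mulL {f : G → (H →L[ℂ] H)} (hf : Bo f) (T : H →L[ℂ] H) : Bo (fun x => T * f x) := by
  obtain ⟨C, hC⟩ := hf
  exact ⟨‖T‖ * C, fun x => (norm_mul_le _ _).trans
    (mul_le_mul_of_nonneg_left (hC x) (norm_nonneg _))⟩

theorem Bo.mulR {f : G → (H →L[ℂ] H)} (hf : Bo f) (T : H →L[ℂ] H) : Bo (fun x => f x * T) := by
  obtain ⟨C, hC⟩ := hf
  exact ⟨C * ‖T‖, fun x => (norm_mul_le _ _).trans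
    (mul_le_mul_of_nonneg_right (hC x) (norm_nonneg _))⟩

theorem Bo.const (T : H →L[ℂ] H) : Bo (fun _ : G => T) := ⟨‖T‖, fun _ => le_rfl⟩

theorem Bo.star {f : G → (H →L[ℂ] H)} (hf : Bo f) : Bo (fun x => star (f x)) := by
  obtain ⟨C, hC⟩ := hf
  exact ⟨C, fun x => by rw [norm_star]; exact hC x⟩

theorem Bo.shift {f : G → (H →L[ℂ] H)} (hf : Bo f) (a : G) : Bo (fun x => f (x * a)) := by
  obtain ⟨C, hC⟩ := hf
  exact ⟨C, fun x => hC _⟩

theorem Bo.sub {f g : G → (H →L[ℂ] H)} (hf : Bo f) (hg : Bo g) : Bo (fun x => f x - g x) := by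
  obtain ⟨C, hC⟩ := hf
  obtain ⟨D, hD⟩ := hg
  exact ⟨C + D, fun x => (norm_sub_le _ _).trans (add_le_add (hC x) (hD x))⟩

theorem opM_mulL (hm : IsMn m) {f : G → (H →L[ℂ] H)} (hf : Bo f) (T : H →L[ℂ] H) :
    opM m (fun x => T * f x) = T * opM m f := by
  apply op_ext'
  intro u v
  rw [opM_inner hm (hf.mulL T), mul_apply_eq_comp, ← ContinuousLinearMap.adjoint_inner_left, opM_inner hm hf]
  congr 1
  funext x
  rw [mul_apply_eq_comp, ContinuousLinearMap.adjoint_inner_left]

theorem opM_mulR (hm : IsMn m) {f : G → (H →L[ℂ] H)} (hf : Bo f) (T : H →L[ℂ] H) :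
    opM m (fun x => f x * T) = opM m f * T := by
  apply op_ext'
  intro u v
  rw [opM_inner hm (hf.mulR T), mul_apply_eq_comp, opM_inner hm hf]
  rfl

theorem opM_const (hm : IsMn m) (T : H →L[ℂ] H) : opM m (fun _ => T) = T := by
  apply op_ext'
  intro u v
  rw [opM_inner hm (Bo.const T), hm.const]

theorem opM_shift (hm : IsMn m) {f : G → (H →L[ℂ] H)} (hf : Bo f) (a : G) :
    opM m (fun x => f (x * a)) = opM m f := by
  apply op_ext'
  intro u v
  rw [opM_inner hm (hf.shift a), opM_inner hm hf, ← hm.inv _ a (hf.inner u v)]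

theorem opM_star (hm : IsMn m) {f : G → (H →L[ℂ] H)} (hf : Bo f) :
    star (opM m f) = opM m (fun x => star (f x)) := by
  apply op_ext'
  intro u v
  rw [opM_inner hm hf.star, ContinuousLinearMap.star_eq_adjoint,
    ContinuousLinearMap.adjoint_inner_right, ← inner_conj_symm, opM_inner hm hf,
    ← hm.star _ (hf.inner v u)]
  congr 1
  funext x
  rw [ContinuousLinearMap.star_eq_adjoint, ContinuousLinearMap.adjoint_inner_right, inner_conj_symm]

theorem opM_sub (hm : IsMn m) {f g : G → (H →L[ℂ] H)} (hf : Bo f) (hg : Bo g) :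
    opM m (fun x => f x - g x) = opM m f - opM m g := by
  apply op_ext'
  intro u v
  rw [opM_inner hm (hf.sub hg), sub_apply, inner_sub_right, opM_inner hm hf, opM_inner hm hg,
    ← hm.sub _ _ (hf.inner u v) (hg.inner u v)]
  congr 1
  funext x
  rw [sub_apply, inner_sub_right]

theorem opM_near (hm : IsMn m) {f : G → (H →L[ℂ] H)} (hf : Bo f) (T : H →L[ℂ] H) {C : ℝ}
    (hC : ∀ x, ‖f x - T‖ ≤ C) : ‖opM m f - T‖ ≤ C := by
  have h1 := opM_sub hm hf (Bo.const T)
  rw [opM_const hm] at h1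
  rw [← h1]
  exact opM_norm hm hC

theorem opM_comm (hm : IsMn m) {f : G → (H →L[ℂ] H)} (hf : Bo f) (T : H →L[ℂ] H)
    (h : ∀ x, T * f x = f x * T) : T * opM m f = opM m f * T := by
  rw [← opM_mulL hm hf, ← opM_mulR hm hf]
  congr 1
  funext x
  exact h x

theorem mem_of_comm (N : VonNeumannAlgebra H) (S : H →L[ℂ] H)
    (h : ∀ T ∈ N.commutant, T * S = S * T) : S ∈ N := by
  have h1 : S ∈ N.commutant.commutant := by
    rw [VonNeumannAlgebra.mem_commutant_iff]
    exact h
  rwa [VonNeumannAlgebra.commutant_commutant] at h1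

theorem opM_mem (hm : IsMn m) (N : VonNeumannAlgebra H) {f : G → (H →L[ℂ] H)} (hf : Bo f)
    (h : ∀ x, f x ∈ N) : opM m f ∈ N := by
  refine mem_of_comm N _ fun T hT => opM_comm hm hf T fun x => ?_
  rw [VonNeumannAlgebra.mem_commutant_iff] at hT
  exact (hT _ (h x)).symm

end op

end V11111.CC
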