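import Pool.Agent.V11111.CC.Tr

/-!
Operators of the commutant of a II_1 factor given by right multiplication.
-/

set_option autoImplicit false
open scoped InnerProductSpace ENNReal ComplexConjugate

noncomputable section

namespace V11111.CC

open H759R2.Kad H710R2.DP

variable {H : Type} [NormedAddCommGroup H] [InnerProductSpace ℂ H] [CompleteSpace H]
variable {M : VonNeumannAlgebra H} {τ : (H →L[ℂ] H) → ℂ} {p q : H →L[ℂ] H} {ξ η : H}

theorem vf_summable_sq {ζ : ℕ → H} (hζ : Summable fun k => ‖ζ k‖ ^ 2) (x : H →L[ℂ] H) :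
    Summable fun k => ‖x (ζ k)‖ ^ 2 := by
  refine Summable.of_nonneg_of_le (fun k => by positivity) (fun k => ?_) (hζ.mul_left (‖x‖ ^ 2))
  rw [← mul_pow]
  exact pow_le_pow_left₀ (norm_nonneg _) (x.le_opNorm _) 2

theorem IsVec.bound (hτ : IsTrace M τ) (h : IsVec M τ p ξ) {a x : H →L[ℂ] H} (ha : a ∈ M)
    (hx : x ∈ M) (h1 : p * a = a) (h2 : a * p = a) : ‖x (a ξ)‖ ≤ ‖a‖ * ‖x ξ‖ := by
  obtain ⟨ζ, hζ, hn⟩ := hτ.normal
  have e1 := h.norm (mul_mem hx ha)
  have e2 := h.norm hx
  have e3 : τ (star (x * a) * (x * a) * p) = τ (star (star a * star x) * (star a * star x)) := by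
    rw [mul_assoc, mul_assoc, h2, hτ.comm _ (star_mem (mul_mem hx ha)) _
      (mul_mem hx ha)]
    simp only [star_mul, star_star]
  have e4 : τ (star x * x * p) = τ (star (p * star x) * (p * star x)) := by
    rw [mul_assoc, hτ.comm _ (star_mem hx) _ (mul_mem hx h.mem)]
    simp only [star_mul, star_star, h.pr.1]
    rw [← mul_assoc (x * p) p (star x), mul_assoc x p p, h.pr.2]
  have m1 : star a * star x ∈ M := mul_mem (star_mem ha) (star_mem hx)
  have m2 : p * star x ∈ M := mul_mem h.mem (star_mem hx)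
  have e5 := vf_pos (ζ := ζ) (star a * star x)
  have e6 := vf_pos (ζ := ζ) (p * star x)
  rw [e3, hn _ (mul_mem (star_mem m1) m1)] at e1
  rw [e4, hn _ (mul_mem (star_mem m2) m2)] at e2
  have e7 : ‖(x * a) ξ‖ ^ 2 = ∑' k, ‖(star a * star x) (ζ k)‖ ^ 2 := by
    have := e1.trans e5
    exact_mod_cast this
  have e8 : ‖x ξ‖ ^ 2 = ∑' k, ‖(p * star x) (ζ k)‖ ^ 2 := by
    have := e2.trans e6
    exact_mod_cast this
  have e9 : ‖(x * a) ξ‖ ^ 2 ≤ (‖a‖ * ‖x ξ‖) ^ 2 := by
    rw [mul_pow, e7, e8, ← tsum_mul_left]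
    refine (vf_summable_sq hζ _).tsum_le_tsum (fun k => ?_) ((vf_summable_sq hζ _).mul_left _)
    have f1 : (star a * star x) (ζ k) = star a ((p * star x) (ζ k)) := by
      have : star a * p = star a := by
        have := congrArg star h1
        rwa [star_mul, h.pr.1] at this
      conv_lhs => rw [← this]
      rfl
    rw [f1, ← mul_pow]
    refine pow_le_pow_left₀ (norm_nonneg _) ?_ 2
    have := (star a).le_opNorm ((p * star x) (ζ k))
    rwa [norm_star] at this
  exact le_of_sq_le_sq e9 (by positivity)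

/-- `R` is right multiplication by `a` on `M ξ` -/
structure IsR (M : VonNeumannAlgebra H) (ξ : H) (a R : H →L[ℂ] H) : Prop where
  mem : R ∈ M.commutant
  vec : R ξ = a ξ
  sup : R * prj M ξ = R

theorem com_vec {T x : H →L[ℂ] H} (hT : T ∈ M.commutant) (hx : x ∈ M) (v : H) :
    T (x v) = x (T v) := by
  rw [VonNeumannAlgebra.mem_commutant_iff] at hT
  have e1 : (x * T) v = (T * x) v := by rw [hT x hx]
  rw [mul_apply_eq_comp, mul_apply_eq_comp] at e1
  exact e1.symm

theorem com_ext {T S : H →L[ℂ] H} (hT : T ∈ M.commutant) (hS : S ∈ M.commutant)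
    (h : T ξ = S ξ) : T * prj M ξ = S * prj M ξ :=
  prj_ext fun x hx => by rw [com_vec hT hx, com_vec hS hx, h]

theorem IsR.uniq {a b R S : H →L[ℂ] H} (hR : IsR M ξ a R) (hS : IsR M ξ b S)
    (h : a ξ = b ξ) : R = S := by
  rw [← hR.sup, ← hS.sup]
  exact com_ext hR.mem hS.mem (by rw [hR.vec, hS.vec, h])

theorem IsR.mul {a b R S : H →L[ℂ] H} (hR : IsR M ξ a R) (hS : IsR M ξ b S)
    (hb : b ∈ M) : IsR M ξ (b * a) (R * S) := by
  refine ⟨mul_mem hR.mem hS.mem, ?_, by rw [mul_assoc, hS.sup]⟩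
  rw [mul_apply_eq_comp, hS.vec, com_vec hR.mem hb, hR.vec, mul_apply_eq_comp]

theorem IsR.range {a R : H →L[ℂ] H} (hR : IsR M ξ a R) (ha : a ∈ M) : prj M ξ * R = R := by
  rw [← hR.sup, ← mul_assoc]
  refine prj_ext fun x hx => ?_
  rw [mul_apply_eq_comp, com_vec hR.mem hx, hR.vec]
  exact prj_orb (mul_mem hx ha) ξ

theorem IsR.adj (hτ : IsTrace M τ) (h : IsVec M τ p ξ) {a R : H →L[ℂ] H} (hR : IsR M ξ a R)
    (ha : a ∈ M) (h1 : p * a = a) (h2 : a * p = a) : IsR M ξ (star a) (star R) := by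
  have hsup : star R * prj M ξ = star R := by
    have := congrArg star (hR.range ha)
    rwa [star_mul, (prj_pr ξ).1] at this
  have hrng : prj M ξ * star R = star R := by
    have := congrArg star hR.sup
    rwa [star_mul, (prj_pr ξ).1] at this
  refine ⟨star_mem hR.mem, ?_, hsup⟩
  have e1 : star R ξ ∈ cyc M ξ := by
    have : star R ξ = prj M ξ (star R ξ) := by
      rw [← mul_apply_eq_comp, hrng]
    rw [this]
    exact prj_mem ξ _
  have e2 : star a ξ ∈ cyc M ξ := orb_cyc (star_mem ha) ξ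
  have e3 : ∀ w ∈ cyc M ξ, ⟪w, star R ξ - star a ξ⟫_ℂ = 0 := by
    refine cyc_induct (p := fun w => ⟪w, star R ξ - star a ξ⟫_ℂ = 0)
      (isClosed_eq (by fun_prop) (by fun_prop)) fun x hx => ?_
    have f3 : τ (star x * star a * p) = τ (star a * star x * p) := by
      have h1' : star a * p = star a := by
        have := congrArg star h1
        rwa [star_mul, h.pr.1] at this
      have h2' : p * star a = star a := by
        have := congrArg star h2
        rwa [star_mul, h.pr.1] at this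
      rw [mul_assoc, h1', hτ.comm _ (star_mem hx) _ (star_mem ha), mul_assoc (star a) (star x) p,
        hτ.comm _ (star_mem ha) _ (mul_mem (star_mem hx) h.mem), mul_assoc (star x) p (star a),
        h2', hτ.comm _ (star_mem hx) _ (star_mem ha)]
    have f1 : ⟪x ξ, star R ξ⟫_ℂ = ⟪ξ, (star a * star x) ξ⟫_ℂ := by
      rw [mul_apply_eq_comp, ContinuousLinearMap.star_eq_adjoint a,
        ContinuousLinearMap.adjoint_inner_right, ContinuousLinearMap.star_eq_adjoint x,
        ContinuousLinearMap.adjoint_inner_right, ContinuousLinearMap.star_eq_adjoint R,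
        ContinuousLinearMap.adjoint_inner_right, com_vec hR.mem hx, hR.vec]
    have f2 : ⟪x ξ, star a ξ⟫_ℂ = ⟪ξ, (star x * star a) ξ⟫_ℂ := by
      rw [mul_apply_eq_comp, ContinuousLinearMap.star_eq_adjoint x,
        ContinuousLinearMap.adjoint_inner_right]
    rw [inner_sub_right, f1, f2, h.eq _ (mul_mem (star_mem ha) (star_mem hx)),
      h.eq _ (mul_mem (star_mem hx) (star_mem ha)), f3, sub_self]
  have e4 := e3 _ (sub_mem e1 e2)
  rw [inner_self_eq_zero, sub_eq_zero] at e4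
  exact e4

theorem exists_R (hτ : IsTrace M τ) (h : IsVec M τ p ξ) {a : H →L[ℂ] H} (ha : a ∈ M)
    (h1 : p * a = a) (h2 : a * p = a) : ∃ R, IsR M ξ a R := by
  let f : M.toStarSubalgebra →ₗ[ℂ] H :=
    { toFun := fun x => (x : H →L[ℂ] H) (a ξ)
      map_add' := fun x y => rfl
      map_smul' := fun c x => rfl }
  let e : M.toStarSubalgebra →ₗ[ℂ] cyc M ξ :=
    { toFun := fun x => ⟨(x : H →L[ℂ] H) ξ, orb_cyc x.2 ξ⟩
      map_add' := fun x y => rfl
      map_smul' := fun c x => rfl }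
  have hd : DenseRange e := by
    intro w
    have hw : (w : H) ∈ closure (orb M ξ : Set H) := by
      rw [← Submodule.topologicalClosure_coe]
      exact w.2
    rw [Metric.mem_closure_iff] at hw ⊢
    intro ε hε
    obtain ⟨v, ⟨x, hx, rfl⟩, hv⟩ := hw ε hε
    exact ⟨e ⟨x, hx⟩, ⟨_, rfl⟩, hv⟩
  have hb : ∃ C, ∀ x, ‖f x‖ ≤ C * ‖e x‖ := ⟨‖a‖, fun x => h.bound hτ ha x.2 h1 h2⟩
  let R₀ : cyc M ξ →L[ℂ] H := f.extendOfNorm e
  have hR₀ : ∀ x (hx : x ∈ M), R₀ ⟨x ξ, orb_cyc hx ξ⟩ = x (a ξ) := fun x hx =>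
    LinearMap.extendOfNorm_eq hd hb (⟨x, hx⟩ : M.toStarSubalgebra)
  let R : H →L[ℂ] H := R₀.comp (cyc M ξ).orthogonalProjectionOnto
  have hR : ∀ x ∈ M, R (x ξ) = x (a ξ) := by
    intro x hx
    rw [← hR₀ x hx]
    change R₀ ((cyc M ξ).orthogonalProjectionOnto (x ξ)) = _
    congr 1
    exact Submodule.orthogonalProjectionOnto_mem_subspace_eq_self
      (⟨x ξ, orb_cyc hx ξ⟩ : cyc M ξ)
  have hsup : R * prj M ξ = R := by
    ext v
    change R₀ ((cyc M ξ).orthogonalProjectionOnto (prj M ξ v)) =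
      R₀ ((cyc M ξ).orthogonalProjectionOnto v)
    congr 1
    have e1 : prj M ξ v = (((cyc M ξ).orthogonalProjectionOnto v : cyc M ξ) : H) := rfl
    rw [e1]
    exact Submodule.orthogonalProjectionOnto_mem_subspace_eq_self _
  refine ⟨R, ?_, by simpa using hR 1 (one_mem M), hsup⟩
  rw [VonNeumannAlgebra.mem_commutant_iff]
  intro b hb
  have e1 : b * R * prj M ξ = R * b * prj M ξ := by
    refine prj_ext fun x hx => ?_
    rw [mul_apply_eq_comp, mul_apply_eq_comp, hR x hx]
    have := hR (b * x) (mul_mem hb hx)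
    rw [mul_apply_eq_comp, mul_apply_eq_comp] at this
    exact this.symm
  have e2 := prj_commutant (M := M) ξ
  rw [VonNeumannAlgebra.mem_commutant_iff] at e2
  rw [mul_assoc, hsup, mul_assoc, e2 b hb, ← mul_assoc, hsup] at e1
  exact e1

theorem isR_prj (hτ : IsTrace M τ) (h : IsVec M τ p ξ) : IsR M ξ p (prj M ξ) :=
  ⟨prj_commutant ξ, by rw [prj_self, h.fix hτ], (prj_pr ξ).2⟩

theorem exists_mu (hτ : IsTrace M τ) (h : IsVec M τ p ξ) {n : ℕ}
    {E : Fin n → Fin n → (H →L[ℂ] H)} (hE : MU M p n E) :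
    ∃ F : Fin n → Fin n → (H →L[ℂ] H), MU M.commutant (prj M ξ) n F := by
  have h1 : ∀ i j, p * E i j = E i j := by
    intro i j
    rw [← hE.sum, Finset.sum_mul, Finset.sum_eq_single i]
    · rw [hE.mul, if_pos rfl]
    · intro k _ hk
      rw [hE.mul, if_neg hk]
    · simp
  have h2 : ∀ i j, E i j * p = E i j := by
    intro i j
    rw [← hE.sum, Finset.mul_sum, Finset.sum_eq_single j]
    · rw [hE.mul, if_pos rfl]
    · intro k _ hk
      rw [hE.mul, if_neg (Ne.symm hk)]
    · simp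
  have h3 : ∀ i j, ∃ R, IsR M ξ (E i j) R := fun i j =>
    exists_R hτ h (hE.mem i j) (h1 i j) (h2 i j)
  choose R hR using h3
  refine ⟨fun i j => R j i, fun i j => (hR j i).mem, fun i j => ?_, fun i j k l => ?_, ?_⟩
  · refine ((hR j i).adj hτ h (hE.mem j i) (h1 j i) (h2 j i)).uniq (hR i j) ?_
    rw [hE.adj]
  · have e1 := (hR j i).mul (hR l k) (hE.mem l k)
    rw [hE.mul] at e1
    by_cases hjk : j = k
    · rw [if_pos hjk]
      rw [if_pos hjk.symm] at e1
      exact e1.uniq (hR l i) rfl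
    · rw [if_neg hjk]
      rw [if_neg (Ne.symm hjk)] at e1
      exact e1.uniq (S := 0) (b := 0) ⟨zero_mem _, by simp, by simp⟩ rfl
  · have e1 : IsR M ξ p (∑ i, R i i) := by
      refine ⟨sum_mem fun i _ => (hR i i).mem, ?_, ?_⟩
      · rw [← hE.sum, ContinuousLinearMap.sum_apply, ContinuousLinearMap.sum_apply]
        exact Finset.sum_congr rfl fun i _ => (hR i i).vec
      · rw [Finset.sum_mul]
        exact Finset.sum_congr rfl fun i _ => (hR i i).sup
    exact e1.uniq (isR_prj hτ h) rfl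

/-- the unitary `w` of the commutant with `w ξ = u ξ` -/
structure IsW (M : VonNeumannAlgebra H) (ξ : H) (u w : H →L[ℂ] H) : Prop where
  mem : w ∈ M.commutant
  vec : w ξ = u ξ
  comp : w * (1 - prj M ξ) = 1 - prj M ξ

theorem IsW.uniq {u u' w w' : H →L[ℂ] H} (h : IsW M ξ u w) (h' : IsW M ξ u' w')
    (hu : u ξ = u' ξ) : w = w' := by
  have e1 : w * prj M ξ = w' * prj M ξ := com_ext h.mem h'.mem (by rw [h.vec, h'.vec, hu])
  have e2 : w = w * (1 - prj M ξ) + w * prj M ξ := by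
    rw [← mul_add]
    simp
  have e3 : w' = w' * (1 - prj M ξ) + w' * prj M ξ := by
    rw [← mul_add]
    simp
  rw [e2, e3, h.comp, h'.comp, e1]

theorem IsW.mul {u u' w w' : H →L[ℂ] H} (h : IsW M ξ u w) (h' : IsW M ξ u' w')
    (hu' : u' ∈ M) : IsW M ξ (u' * u) (w * w') := by
  refine ⟨mul_mem h.mem h'.mem, ?_, by rw [mul_assoc, h'.comp, h.comp]⟩
  rw [mul_apply_eq_comp, h'.vec, com_vec h.mem hu', h.vec, mul_apply_eq_comp]

theorem exists_W (hτ : IsTrace M τ) (h : IsVec M τ p ξ) {u : H →L[ℂ] H} (hu : u ∈ M)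
    (h1 : star u * u = 1) (h2 : u * star u = 1) (hc : p * u = u * p) :
    ∃ w, IsW M ξ u w ∧ star w * w = 1 ∧ w * star w = 1 := by
  have hp1 : p * (u * p) = u * p := by rw [← hc, ← mul_assoc, h.pr.2]
  have hp2 : u * p * p = u * p := by rw [mul_assoc, h.pr.2]
  have hup : u * p ∈ M := mul_mem hu h.mem
  obtain ⟨R, hR⟩ := exists_R hτ h hup hp1 hp2
  have hRs := hR.adj hτ h hup hp1 hp2
  have hr := hR.range hup
  have hrs : prj M ξ * star R = star R := by
    have := congrArg star hR.sup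
    rwa [star_mul, (prj_pr ξ).1] at this
  have hss : star R * prj M ξ = star R := hRs.sup
  have hc' : p * star u = star u * p := by
    have := congrArg star hc
    rw [star_mul, star_mul, h.pr.1] at this
    exact this.symm
  have e1 : star R * R = prj M ξ := by
    refine (hRs.mul hR hup).uniq (isR_prj hτ h) ?_
    have : u * p * star (u * p) = p := by
      rw [star_mul, h.pr.1, mul_assoc, ← mul_assoc p p, h.pr.2, hc', ← mul_assoc, h2, one_mul]
    rw [this]
  have e2 : R * star R = prj M ξ := by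
    refine (hR.mul hRs (star_mem hup)).uniq (isR_prj hτ h) ?_
    have : star (u * p) * (u * p) = p := by
      rw [star_mul, h.pr.1, mul_assoc, ← mul_assoc (star u), h1, one_mul, h.pr.2]
    rw [this]
  have hz1 : R * (1 - prj M ξ) = 0 := by rw [mul_sub, mul_one, hR.sup, sub_self]
  have hz2 : star R * (1 - prj M ξ) = 0 := by rw [mul_sub, mul_one, hss, sub_self]
  have hz3 : (1 - prj M ξ) * R = 0 := by rw [sub_mul, one_mul, hr, sub_self]
  have hz4 : (1 - prj M ξ) * star R = 0 := by rw [sub_mul, one_mul, hrs, sub_self]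
  have hz5 : (1 - prj M ξ) * (1 - prj M ξ) = 1 - prj M ξ := by
    rw [sub_mul, one_mul, mul_sub, mul_one, (prj_pr ξ).2, sub_self, sub_zero]
  have hst : star (R + (1 - prj M ξ)) = star R + (1 - prj M ξ) := by
    rw [star_add, star_sub, star_one, (prj_pr ξ).1]
  refine ⟨R + (1 - prj M ξ), ⟨?_, ?_, ?_⟩, ?_, ?_⟩
  · exact add_mem hR.mem (sub_mem (one_mem _) (prj_commutant ξ))
  · rw [add_apply, sub_apply, one_apply_eq_self, prj_self, sub_self, add_zero, hR.vec,
      mul_apply_eq_comp, h.fix hτ]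
  · rw [add_mul, hz1, hz5, zero_add]
  · rw [hst, mul_add, add_mul, add_mul, e1, hz2, hz3, hz5]
    abel
  · rw [hst, mul_add, add_mul, add_mul, e2, hz1, hz4, hz5]
    abel

end V11111.CC
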