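import Pool.Agent.V11111.CC.MTr

/-!
The trace of the commutant of a II_1 factor given by a basis.
-/

set_option autoImplicit false
open scoped InnerProductSpace ENNReal ComplexConjugate

noncomputable section

namespace V11111.CC

open H759R2.Kad H710R2.DP

variable {H : Type} [NormedAddCommGroup H] [InnerProductSpace ℂ H] [CompleteSpace H]

/-- `{x ξ : x ∈ M}` -/
def orb (M : VonNeumannAlgebra H) (ξ : H) : Submodule ℂ H where
  carrier := {v | ∃ x ∈ M, x ξ = v}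
  add_mem' := by
    rintro a b ⟨x, hx, rfl⟩ ⟨y, hy, rfl⟩
    exact ⟨x + y, add_mem hx hy, rfl⟩
  zero_mem' := ⟨0, zero_mem M, rfl⟩
  smul_mem' := by
    rintro c a ⟨x, hx, rfl⟩
    exact ⟨c • x, vn_smul hx c, rfl⟩

/-- closure of `{x ξ : x ∈ M}` -/
def cyc (M : VonNeumannAlgebra H) (ξ : H) : Submodule ℂ H := (orb M ξ).topologicalClosure

instance (M : VonNeumannAlgebra H) (ξ : H) : CompleteSpace (cyc M ξ) :=
  Submodule.topologicalClosure.completeSpace _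

/-- the cyclic projection -/
def prj (M : VonNeumannAlgebra H) (ξ : H) : H →L[ℂ] H := (cyc M ξ).starProjection

variable {M : VonNeumannAlgebra H} {τ : (H →L[ℂ] H) → ℂ}

theorem orb_cyc {x : H →L[ℂ] H} (hx : x ∈ M) (ξ : H) : x ξ ∈ cyc M ξ :=
  (orb M ξ).le_topologicalClosure ⟨x, hx, rfl⟩

theorem cyc_induct {ξ : H} {p : H → Prop} (hc : IsClosed {v | p v}) (h : ∀ x ∈ M, p (x ξ)) :
    ∀ v ∈ cyc M ξ, p v := by
  intro v hv
  have h1 : (cyc M ξ : Set H) ⊆ {v | p v} := by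
    have : (cyc M ξ : Set H) = closure (orb M ξ : Set H) := Submodule.topologicalClosure_coe _
    rw [this]
    refine closure_minimal ?_ hc
    rintro w ⟨x, hx, rfl⟩
    exact h x hx
  exact h1 hv

theorem prj_pr (ξ : H) : IsPr (prj M ξ) :=
  ⟨isSelfAdjoint_starProjection _, (cyc M ξ).isIdempotentElem_starProjection⟩

theorem prj_mem (ξ v : H) : prj M ξ v ∈ cyc M ξ := Submodule.starProjection_apply_mem _ _

theorem prj_eq {ξ v : H} (hv : v ∈ cyc M ξ) : prj M ξ v = v :=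
  Submodule.starProjection_eq_self_iff.mpr hv

theorem prj_orb {x : H →L[ℂ] H} (hx : x ∈ M) (ξ : H) : prj M ξ (x ξ) = x ξ :=
  prj_eq (orb_cyc hx ξ)

theorem prj_self (ξ : H) : prj M ξ ξ = ξ := prj_orb (one_mem M) ξ

theorem prj_ext {ξ : H} {T S : H →L[ℂ] H} (h : ∀ x ∈ M, T (x ξ) = S (x ξ)) :
    T * prj M ξ = S * prj M ξ := by
  ext v
  rw [mul_apply_eq_comp, mul_apply_eq_comp]
  exact cyc_induct (p := fun v => T v = S v) (isClosed_eq T.continuous S.continuous) h _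
    (prj_mem ξ v)

theorem prj_commutant (ξ : H) : prj M ξ ∈ M.commutant := by
  have key : ∀ x ∈ M, prj M ξ * x * prj M ξ = x * prj M ξ := by
    intro x hx
    refine prj_ext fun y hy => ?_
    rw [mul_apply_eq_comp]
    exact prj_orb (mul_mem hx hy) ξ
  rw [VonNeumannAlgebra.mem_commutant_iff]
  intro x hx
  have h1 := key x hx
  have h2 := congrArg star (key (star x) (star_mem hx))
  simp only [star_mul, star_star, (prj_pr ξ).1] at h2
  rw [← h1, ← h2]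
  simp only [mul_assoc, (prj_pr ξ).2]

theorem prj_bound {ξ v : H} {C : ℝ} (hC : ∀ x ∈ M, ‖⟪x ξ, v⟫_ℂ‖ ≤ C * ‖x ξ‖) :
    ‖prj M ξ v‖ ≤ C ∨ prj M ξ v = 0 := by
  have h1 : ∀ w ∈ cyc M ξ, ‖⟪w, v⟫_ℂ‖ ≤ C * ‖w‖ :=
    cyc_induct (p := fun w => ‖⟪w, v⟫_ℂ‖ ≤ C * ‖w‖)
      (isClosed_le (by fun_prop) (by fun_prop)) hC
  have h2 := h1 _ (prj_mem ξ v)
  have h3 : ⟪prj M ξ v, v⟫_ℂ = ((‖prj M ξ v‖ ^ 2 : ℝ) : ℂ) := by
    have e1 : prj M ξ v = prj M ξ (prj M ξ v) := (prj_eq (prj_mem ξ v)).symm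
    have e2 : ⟪prj M ξ v, v⟫_ℂ = ⟪prj M ξ v, prj M ξ v⟫_ℂ := by
      conv_lhs => rw [e1]
      exact Submodule.inner_starProjection_left_eq_right _ _ _
    rw [e2, inner_self_eq_norm_sq_to_K]
    push_cast
    rfl
  rw [h3, Complex.norm_real, Real.norm_of_nonneg (by positivity)] at h2
  by_cases h0 : prj M ξ v = 0
  · exact Or.inr h0
  · left
    have h4 : 0 < ‖prj M ξ v‖ := norm_pos_iff.mpr h0
    nlinarith

theorem inner_prj {ξ v w : H} (hw : w ∈ cyc M ξ) : ⟪w, v⟫_ℂ = ⟪w, prj M ξ v⟫_ℂ := by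
  conv_lhs => rw [← prj_eq hw]
  exact Submodule.inner_starProjection_left_eq_right _ _ _

/-- `ξ` is a vector with vector state `τ (· p)`. -/
structure IsVec (M : VonNeumannAlgebra H) (τ : (H →L[ℂ] H) → ℂ) (p : H →L[ℂ] H) (ξ : H) :
    Prop where
  mem : p ∈ M
  pr : IsPr p
  eq : ∀ x ∈ M, ⟪ξ, x ξ⟫_ℂ = τ (x * p)

variable {p q : H →L[ℂ] H} {ξ η : H}

theorem inner_sq (a : H →L[ℂ] H) (ξ : H) : ⟪ξ, (star a * a) ξ⟫_ℂ = ((‖a ξ‖ ^ 2 : ℝ) : ℂ) := by
  rw [mul_apply_eq_comp, ContinuousLinearMap.star_eq_adjoint,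
    ContinuousLinearMap.adjoint_inner_right, inner_self_eq_norm_sq_to_K]
  push_cast
  rfl

theorem IsVec.norm (h : IsVec M τ p ξ) {a : H →L[ℂ] H} (ha : a ∈ M) :
    ((‖a ξ‖ ^ 2 : ℝ) : ℂ) = τ (star a * a * p) := by
  rw [← inner_sq, h.eq _ (mul_mem (star_mem ha) ha)]

theorem IsVec.fix (hτ : IsTrace M τ) (h : IsVec M τ p ξ) : p ξ = ξ := by
  have h1 := h.norm (sub_mem (one_mem M) h.mem)
  have h2 : star (1 - p) * (1 - p) * p = 0 := by
    rw [mul_assoc, sub_mul 1 p p, one_mul, h.pr.2, sub_self, mul_zero]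
  rw [h2, hτ.zero] at h1
  have h3 : ‖(1 - p) ξ‖ ^ 2 = 0 := by exact_mod_cast h1
  have h4 : (1 - p) ξ = 0 := by simpa using h3
  rw [sub_apply, one_apply_eq_self, sub_eq_zero] at h4
  exact h4.symm

theorem IsVec.swap (hτ : IsTrace M τ) (h : IsVec M τ p ξ) (h' : IsVec M τ q η)
    {a : H →L[ℂ] H} (ha : a ∈ M) (h1 : p * a = a) (h2 : a * q = a) :
    ‖star a ξ‖ = ‖a η‖ := by
  have e1 := h.norm (star_mem ha)
  have e2 := h'.norm ha
  have e3 : star a * p = star a := by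
    have := congrArg star h1
    rwa [star_mul, h.pr.1] at this
  rw [star_star, mul_assoc, e3, hτ.comm _ ha _ (star_mem ha)] at e1
  rw [mul_assoc, h2] at e2
  rw [← e2] at e1
  have e4 : ‖star a ξ‖ ^ 2 = ‖a η‖ ^ 2 := by exact_mod_cast e1
  exact (pow_left_inj₀ (norm_nonneg _) (norm_nonneg _) two_ne_zero).mp e4

theorem IsVec.key (hτ : IsTrace M τ) (h : IsVec M τ p ξ) (h' : IsVec M τ q η)
    {y : H →L[ℂ] H} (hy : y ∈ M.commutant) : ‖prj M η (y ξ)‖ ≤ ‖prj M ξ (star y η)‖ := by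
  rw [VonNeumannAlgebra.mem_commutant_iff] at hy
  have hb : ∀ a ∈ M, ‖⟪a η, y ξ⟫_ℂ‖ ≤ ‖prj M ξ (star y η)‖ * ‖a η‖ := by
    intro a ha
    set b := p * a * q with hbdef
    have hbM : b ∈ M := mul_mem (mul_mem h.mem ha) h'.mem
    have hb1 : p * b = b := by rw [hbdef, ← mul_assoc, ← mul_assoc, h.pr.2]
    have hb2 : b * q = b := by rw [hbdef, mul_assoc, h'.pr.2]
    have e1 : ⟪b η, y ξ⟫_ℂ = ⟪a η, y ξ⟫_ℂ := by
      have f1 : b η = p (a η) := by
        rw [hbdef, mul_apply_eq_comp, mul_apply_eq_comp, h'.fix hτ]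
      have f2 : y ξ = p (y ξ) := by
        have : (p * y) ξ = (y * p) ξ := by rw [hy p h.mem]
        rw [mul_apply_eq_comp, mul_apply_eq_comp, h.fix hτ] at this
        exact this.symm
      conv_rhs => rw [f2]
      rw [f1]
      conv_lhs => rw [← h.pr.1]
      rw [ContinuousLinearMap.star_eq_adjoint, ContinuousLinearMap.adjoint_inner_left]
    have e2 : ⟪b η, y ξ⟫_ℂ = ⟪star y η, star b ξ⟫_ℂ := by
      rw [ContinuousLinearMap.star_eq_adjoint, ContinuousLinearMap.star_eq_adjoint,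
        ContinuousLinearMap.adjoint_inner_left, ← ContinuousLinearMap.star_eq_adjoint]
      have : (star b * y) ξ = (y * star b) ξ := by rw [hy _ (star_mem hbM)]
      rw [mul_apply_eq_comp, mul_apply_eq_comp] at this
      rw [← this, ContinuousLinearMap.star_eq_adjoint, ContinuousLinearMap.adjoint_inner_right]
    have e3 : ⟪star b ξ, star y η⟫_ℂ = ⟪star b ξ, prj M ξ (star y η)⟫_ℂ :=
      inner_prj (orb_cyc (star_mem hbM) ξ)
    have e4 : ‖b η‖ ≤ ‖a η‖ := by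
      have f1 : b η = p (a η) := by
        rw [hbdef, mul_apply_eq_comp, mul_apply_eq_comp, h'.fix hτ]
      rw [f1]
      calc ‖p (a η)‖ ≤ ‖p‖ * ‖a η‖ := p.le_opNorm _
        _ ≤ 1 * ‖a η‖ := mul_le_mul_of_nonneg_right (prn h.pr) (norm_nonneg _)
        _ = _ := one_mul _
    rw [← e1, e2, norm_inner_symm, e3]
    refine (norm_inner_le_norm _ _).trans ?_
    rw [h.swap hτ h' hbM hb1 hb2, mul_comm]
    exact mul_le_mul_of_nonneg_left e4 (norm_nonneg _)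
  rcases prj_bound hb with h1 | h1
  · exact h1
  · rw [h1, norm_zero]
    exact norm_nonneg _

theorem IsVec.key_eq (hτ : IsTrace M τ) (h : IsVec M τ p ξ) (h' : IsVec M τ q η)
    {y : H →L[ℂ] H} (hy : y ∈ M.commutant) : ‖prj M η (y ξ)‖ = ‖prj M ξ (star y η)‖ := by
  refine le_antisymm (h.key hτ h' hy) ?_
  have := h'.key hτ h (star_mem hy)
  rwa [star_star] at this

/-- Parseval -/
theorem IsBasis.parseval {ι : Type} {ξ : ι → H} (h : IsBasis M τ ξ) (v : H) :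
    ∑' i, ‖prj M (ξ i) v‖ₑ ^ 2 = ‖v‖ₑ ^ 2 := by
  classical
  have hO : OrthogonalFamily ℂ (fun i => cyc M (ξ i)) (fun i => (cyc M (ξ i)).subtypeₗᵢ) := by
    intro i j hij
    have h1 : ∀ x ∈ M, ∀ w ∈ cyc M (ξ j), ⟪x (ξ i), w⟫_ℂ = 0 := by
      intro x hx
      refine cyc_induct (p := fun w => ⟪x (ξ i), w⟫_ℂ = 0)
        (isClosed_eq (by fun_prop) (by fun_prop)) fun y hy => ?_
      rw [← ContinuousLinearMap.adjoint_inner_right, ← ContinuousLinearMap.star_eq_adjoint]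
      exact h.orth i j hij _ (mul_mem (star_mem hx) hy)
    have h2 : ∀ w ∈ cyc M (ξ j), ∀ u ∈ cyc M (ξ i), ⟪u, w⟫_ℂ = 0 := by
      intro w hw
      exact cyc_induct (p := fun u => ⟪u, w⟫_ℂ = 0)
        (isClosed_eq (by fun_prop) (by fun_prop)) fun x hx => h1 x hx w hw
    intro u w
    exact h2 _ w.2 _ u.2
  have hT : ⊤ ≤ (⨆ i, cyc M (ξ i)).topologicalClosure := by
    rw [top_le_iff, Submodule.topologicalClosure_eq_top_iff, Submodule.eq_bot_iff]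
    intro v hv
    refine h.total v fun i x hx => ?_
    rw [Submodule.mem_orthogonal] at hv
    exact hv _ (Submodule.mem_iSup_of_mem i (orb_cyc hx (ξ i)))
  have hS := IsHilbertSum.mkInternal (fun i => cyc M (ξ i)) hO hT
  set Φ := hS.linearIsometryEquiv with hΦ
  have hc : ∀ i, ((Φ v i : cyc M (ξ i)) : H) = prj M (ξ i) v := by
    intro i
    symm
    refine Submodule.eq_starProjection_of_mem_of_inner_eq_zero (Φ v i).2 fun w hw => ?_
    have e1 : ⟪(lp.single 2 i (⟨w, hw⟩ : cyc M (ξ i)) : lp (fun i => cyc M (ξ i)) 2), Φ v⟫_ℂ =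
        ⟪w, ((Φ v i : cyc M (ξ i)) : H)⟫_ℂ := lp.inner_single_left i _ _
    have e2 : ⟪Φ.symm (lp.single 2 i (⟨w, hw⟩ : cyc M (ξ i))), v⟫_ℂ = ⟪w, v⟫_ℂ := by
      rw [hΦ, IsHilbertSum.linearIsometryEquiv_symm_apply_single]
      rfl
    have e3 : ⟪(lp.single 2 i (⟨w, hw⟩ : cyc M (ξ i)) : lp (fun i => cyc M (ξ i)) 2), Φ v⟫_ℂ =
        ⟪Φ.symm (lp.single 2 i (⟨w, hw⟩ : cyc M (ξ i))), v⟫_ℂ := by
      rw [← Φ.inner_map_map, Φ.apply_symm_apply]
    rw [e1, e2] at e3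
    rw [← inner_conj_symm, inner_sub_right, e3, sub_self, map_zero]
  have hn : ‖v‖ ^ 2 = ∑' i, ‖(Φ v i : cyc M (ξ i))‖ ^ 2 ∧
      Summable fun i => ‖(Φ v i : cyc M (ξ i))‖ ^ 2 := by
    have e1 := lp.hasSum_inner (𝕜 := ℂ) (Φ v) (Φ v)
    rw [inner_self_eq_norm_sq_to_K, Φ.norm_map] at e1
    have e2 : HasSum (fun i => ((‖(Φ v i : cyc M (ξ i))‖ ^ 2 : ℝ) : ℂ)) ((‖v‖ ^ 2 : ℝ) : ℂ) := by
      have f1 : (fun i => ((‖(Φ v i : cyc M (ξ i))‖ ^ 2 : ℝ) : ℂ)) =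
          fun i => ⟪(Φ v i : cyc M (ξ i)), (Φ v i : cyc M (ξ i))⟫_ℂ := by
        funext i
        rw [inner_self_eq_norm_sq_to_K]
        push_cast
        rfl
      have f2 : ((‖v‖ ^ 2 : ℝ) : ℂ) = ((‖v‖ : ℝ) : ℂ) ^ 2 := by push_cast; rfl
      rw [f1, f2]
      exact e1
    have e3 := Complex.hasSum_ofReal.mp e2
    exact ⟨e3.tsum_eq.symm, e3.summable⟩
  have e1 : ∀ i, ‖prj M (ξ i) v‖ₑ ^ 2 = ENNReal.ofReal (‖(Φ v i : cyc M (ξ i))‖ ^ 2) := by
    intro i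
    rw [← hc i, ENNReal.ofReal_pow (norm_nonneg _), ofReal_norm]
    rfl
  rw [tsum_congr e1, ← ENNReal.ofReal_tsum_of_nonneg (fun i => by positivity) hn.2, ← hn.1,
    ENNReal.ofReal_pow (norm_nonneg _), ofReal_norm]

/-- the trace of the commutant -/
def tC {ι : Type} (ξ : ι → H) (y : H →L[ℂ] H) : ℝ≥0∞ := ∑' i, ‖y (ξ i)‖ₑ ^ 2

theorem sq_enorm (v : H) : ‖v‖ₑ ^ 2 = ENNReal.ofReal (‖v‖ ^ 2) := by
  rw [ENNReal.ofReal_pow (norm_nonneg _), ofReal_norm]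

theorem tC_star (hτ : IsTrace M τ) {ι : Type} {ξ : ι → H} (h : IsBasis M τ ξ)
    {y : H →L[ℂ] H} (hy : y ∈ M.commutant) : tC ξ y = tC ξ (star y) := by
  have hvec : ∀ i, ∃ p, IsVec M τ p (ξ i) := by
    intro i
    obtain ⟨p, h1, h2, h3, h4⟩ := h.proj i
    exact ⟨p, h1, ⟨h2, h3⟩, h4⟩
  rw [tC, tC]
  calc ∑' i, ‖y (ξ i)‖ₑ ^ 2 = ∑' i, ∑' j, ‖prj M (ξ j) (y (ξ i))‖ₑ ^ 2 :=
        tsum_congr fun i => (h.parseval _).symm
    _ = ∑' j, ∑' i, ‖prj M (ξ j) (y (ξ i))‖ₑ ^ 2 := ENNReal.tsum_comm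
    _ = ∑' j, ∑' i, ‖prj M (ξ i) (star y (ξ j))‖ₑ ^ 2 := by
        refine tsum_congr fun j => tsum_congr fun i => ?_
        obtain ⟨p, hp⟩ := hvec i
        obtain ⟨q, hq⟩ := hvec j
        rw [sq_enorm, sq_enorm, hp.key_eq hτ hq hy]
    _ = ∑' j, ‖star y (ξ j)‖ₑ ^ 2 := tsum_congr fun j => h.parseval _

theorem norm_ss {v : H →L[ℂ] H} (h : IsPr (star v * v)) (ξ : H) :
    ‖(star v * v) ξ‖ = ‖v ξ‖ := by
  have e1 := inner_sq v ξ
  have e2 := inner_sq (star v * v) ξ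
  have e3 : star (star v * v) * (star v * v) = star v * v := by rw [h.1, h.2]
  rw [e3, e1] at e2
  have e4 : ‖v ξ‖ ^ 2 = ‖(star v * v) ξ‖ ^ 2 := by exact_mod_cast e2
  exact ((pow_left_inj₀ (norm_nonneg _) (norm_nonneg _) two_ne_zero).mp e4).symm

theorem pyth {p q : H →L[ℂ] H} (hp : IsPr p) (hq : IsPr q) (h : p * q = 0) (ξ : H) :
    ‖(p + q) ξ‖ ^ 2 = ‖p ξ‖ ^ 2 + ‖q ξ‖ ^ 2 := by
  have e0 := pr_add hp hq h
  have e1 := inner_sq (p + q) ξ
  have e2 := inner_sq p ξ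
  have e3 := inner_sq q ξ
  rw [e0.1, e0.2, add_apply, inner_add_right] at e1
  rw [hp.1, hp.2] at e2
  rw [hq.1, hq.2] at e3
  rw [e2, e3] at e1
  exact_mod_cast e1.symm

theorem IsBasis.ptr (hτ : IsTrace M τ) {ι : Type} {ξ : ι → H} (h : IsBasis M τ ξ) :
    PTr M.commutant (tC ξ) := by
  refine ⟨?_, ?_, ?_⟩
  · intro p _ q _ hp hq hpq
    rw [tC, tC, tC, ← ENNReal.tsum_add]
    refine tsum_congr fun i => ?_
    rw [sq_enorm, sq_enorm, sq_enorm, pyth hp hq hpq,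
      ENNReal.ofReal_add (by positivity) (by positivity)]
  · intro v hv hp
    have h1 : tC ξ (star v * v) = tC ξ v := by
      refine tsum_congr fun i => ?_
      rw [sq_enorm, sq_enorm, norm_ss hp]
    have h2 : tC ξ (v * star v) = tC ξ (star v) := by
      refine tsum_congr fun i => ?_
      have e1 : IsPr (star (star v) * star v) := by rw [star_star]; exact pr_of' hp
      have e2 := norm_ss e1 (ξ i)
      rw [star_star] at e2
      rw [sq_enorm, sq_enorm, e2]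
    rw [h1, h2]
    exact tC_star hτ h hv
  · intro p hp hpp h0
    rw [tC, ENNReal.tsum_eq_zero] at h0
    rw [VonNeumannAlgebra.mem_commutant_iff] at hp
    ext v
    rw [zero_apply]
    refine h.total _ fun i x hx => ?_
    have e1 : p (ξ i) = 0 := by
      have := h0 i
      simpa using this
    have e2 : p (x (ξ i)) = 0 := by
      have : (x * p) (ξ i) = (p * x) (ξ i) := by rw [hp x hx]
      rw [mul_apply_eq_comp, mul_apply_eq_comp, e1, map_zero] at this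
      exact this.symm
    rw [← hpp.1, ContinuousLinearMap.star_eq_adjoint, ContinuousLinearMap.adjoint_inner_right,
      e2, inner_zero_left]

theorem tC_zero {ι : Type} (ξ : ι → H) : tC ξ (0 : H →L[ℂ] H) = 0 := by
  rw [tC]
  simp

theorem tC_one {ι : Type} (ξ : ι → H) : tC ξ (1 : H →L[ℂ] H) = ∑' i, ‖ξ i‖ₑ ^ 2 := by
  rw [tC]
  simp

theorem IsBasis.tC_prj (hτ : IsTrace M τ) {ι : Type} {ξ : ι → H} (h : IsBasis M τ ξ)
    (hη : IsVec M τ q η) : tC ξ (prj M η) = ‖η‖ₑ ^ 2 := by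
  rw [← h.parseval η, tC]
  refine tsum_congr fun i => ?_
  obtain ⟨p, h1, h2, h3, h4⟩ := h.proj i
  have hp : IsVec M τ p (ξ i) := ⟨h1, ⟨h2, h3⟩, h4⟩
  have := hp.key_eq hτ hη (one_mem M.commutant)
  rw [star_one, one_apply_eq_self, one_apply_eq_self] at this
  rw [sq_enorm, sq_enorm, this]

theorem prj_le {T : H →L[ℂ] H} (hT : T ∈ M.commutant) (h : T ξ = ξ) :
    T * prj M ξ = prj M ξ := by
  have : T * prj M ξ = 1 * prj M ξ := by
    refine prj_ext fun x hx => ?_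
    rw [VonNeumannAlgebra.mem_commutant_iff] at hT
    have e1 : (x * T) ξ = (T * x) ξ := by rw [hT x hx]
    rw [mul_apply_eq_comp, mul_apply_eq_comp, h] at e1
    rw [← e1, one_apply_eq_self]
  rwa [one_mul] at this

end V11111.CC
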