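import Pool.Agent.V11111.CC.Mean

/-!
Unitary representations of commutative groups close to a von Neumann algebra are unitarily
conjugated into it.
-/

set_option autoImplicit false
open scoped InnerProductSpace ENNReal ComplexConjugate

noncomputable section

namespace V11111.CC

variable {H : Type} [NormedAddCommGroup H] [InnerProductSpace ℂ H] [CompleteSpace H]

theorem norm_one_le : ‖(1 : H →L[ℂ] H)‖ ≤ 1 := ContinuousLinearMap.norm_id_le

theorem norm_uni {u : H →L[ℂ] H} (h : star u * u = 1) : ‖u‖ ≤ 1 := by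
  have h1 := CStarRing.norm_star_mul_self (x := u)
  rw [h] at h1
  have h2 : ‖(1 : H →L[ℂ] H)‖ ≤ 1 := norm_one_le
  nlinarith [norm_nonneg u]

theorem norm_le_add {a b : H →L[ℂ] H} {ε δ : ℝ} (h : ‖a - b‖ ≤ ε) (hb : ‖b‖ ≤ δ) :
    ‖a‖ ≤ δ + ε := by
  calc ‖a‖ = ‖(a - b) + b‖ := by congr 1; abel
    _ ≤ ‖a - b‖ + ‖b‖ := norm_add_le _ _
    _ ≤ _ := by linarith

theorem inv1 {a u : H →L[ℂ] H} (hu : star u * u = 1) (hu' : u * star u = 1)
    (h : ‖a - u‖ ≤ 1 / 10) : ∃ b : H →L[ℂ] H, a * b = 1 ∧ b * a = 1 ∧ ‖b‖ ≤ 5 / 4 := by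
  have hsu : ‖star u‖ ≤ 1 := by rw [norm_star]; exact norm_uni hu
  set x := 1 - star u * a with hx
  have hxn : ‖x‖ ≤ 1 / 10 := by
    have h1 : x = star u * (u - a) := by rw [hx, mul_sub, hu]
    rw [h1]
    refine (norm_mul_le _ _).trans ?_
    rw [norm_sub_rev] at h
    nlinarith [norm_nonneg (star u), norm_nonneg (u - a)]
  obtain ⟨c, hc⟩ := isUnit_one_sub_of_norm_lt_one (lt_of_le_of_lt hxn (by norm_num) : ‖x‖ < 1)
  have hc1 : (1 - x) * (↑c⁻¹ : H →L[ℂ] H) = 1 := by rw [← hc, Units.mul_inv]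
  have hc2 : (↑c⁻¹ : H →L[ℂ] H) * (1 - x) = 1 := by rw [← hc, Units.inv_mul]
  have ha : a = u * (1 - x) := by
    rw [hx, sub_sub_cancel, ← mul_assoc, hu', one_mul]
  have hcn : ‖(↑c⁻¹ : H →L[ℂ] H)‖ ≤ 5 / 4 := by
    have h2 : (↑c⁻¹ : H →L[ℂ] H) = 1 + x * (↑c⁻¹ : H →L[ℂ] H) := by
      have := hc1
      rw [sub_mul, one_mul, sub_eq_iff_eq_add] at this
      exact this
    have h3 : ‖(↑c⁻¹ : H →L[ℂ] H)‖ ≤ 1 + 1 / 10 * ‖(↑c⁻¹ : H →L[ℂ] H)‖ := by
      calc ‖(↑c⁻¹ : H →L[ℂ] H)‖ = ‖1 + x * (↑c⁻¹ : H →L[ℂ] H)‖ := by rw [← h2]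
        _ ≤ ‖(1 : H →L[ℂ] H)‖ + ‖x * (↑c⁻¹ : H →L[ℂ] H)‖ := norm_add_le _ _
        _ ≤ 1 + ‖x‖ * ‖(↑c⁻¹ : H →L[ℂ] H)‖ := add_le_add norm_one_le (norm_mul_le _ _)
        _ ≤ _ := by nlinarith [norm_nonneg (↑c⁻¹ : H →L[ℂ] H)]
    linarith [norm_nonneg (↑c⁻¹ : H →L[ℂ] H)]
  refine ⟨(↑c⁻¹ : H →L[ℂ] H) * star u, ?_, ?_, ?_⟩
  · rw [ha, mul_assoc, ← mul_assoc (1 - x), hc1, one_mul, hu']
  · rw [ha, mul_assoc, ← mul_assoc (star u), hu, one_mul, hc2]
  · refine (norm_mul_le _ _).trans ?_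
    nlinarith [norm_nonneg (star u), norm_nonneg (↑c⁻¹ : H →L[ℂ] H)]

theorem inv_mem {N : VonNeumannAlgebra H} {a b : H →L[ℂ] H} (ha : a ∈ N) (h1 : a * b = 1)
    (h2 : b * a = 1) : b ∈ N := by
  refine mem_of_comm N _ fun T hT => ?_
  rw [VonNeumannAlgebra.mem_commutant_iff] at hT
  have h := hT a ha
  calc T * b = b * a * T * b := by rw [h2, one_mul]
    _ = b * (a * T) * b := by rw [mul_assoc b a T]
    _ = b * (T * a) * b := by rw [h]
    _ = b * T * (a * b) := by noncomm_ring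
    _ = b * T := by rw [h1, mul_one]

section

variable {G : Type} [CommGroup G]

theorem ulam_step (N : VonNeumannAlgebra H) (π : G → (H →L[ℂ] H))
    (hπs : ∀ g, star (π g) * π g = 1) (hπs' : ∀ g, π g * star (π g) = 1)
    (φ : G → (H →L[ℂ] H)) (hN : ∀ g, φ g ∈ N) (hφ : ∀ g, ‖φ g - π g‖ ≤ 1 / 10) (ε : ℝ)
    (hε : ∀ g h, ‖φ (g * h) - φ g * φ h‖ ≤ ε) :
    ∃ ψ : G → (H →L[ℂ] H), (∀ g, ψ g ∈ N) ∧ (∀ g, ‖ψ g - φ g‖ ≤ 5 / 4 * ε) ∧
      ∀ g h, ‖ψ (g * h) - ψ g * ψ h‖ ≤ 7 * ε ^ 2 := by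
  obtain ⟨m, hm⟩ := exists_mn G
  have hε0 : 0 ≤ ε := (norm_nonneg _).trans (hε 1 1)
  choose b hb1 hb2 hbn using fun k => inv1 (hπs k) (hπs' k) (hφ k)
  have hbN : ∀ k, b k ∈ N := fun k => inv_mem (hN k) (hb1 k) (hb2 k)
  have hφn : ∀ g, ‖φ g‖ ≤ 2 := fun g => by
    have := norm_le_add (hφ g) (norm_uni (hπs g))
    linarith
  have hnear : ∀ g k, ‖b k * φ (k * g) - φ g‖ ≤ 5 / 4 * ε := by
    intro g k
    have h1 : b k * φ (k * g) - φ g = b k * (φ (k * g) - φ k * φ g) := by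
      rw [mul_sub, ← mul_assoc, hb2, one_mul]
    rw [h1]
    refine (norm_mul_le _ _).trans ?_
    exact mul_le_mul (hbn k) (hε k g) (norm_nonneg _) (by norm_num)
  have hbo : ∀ g, Bo (fun k => b k * φ (k * g)) := fun g => ⟨5 / 4 * 2, fun k =>
    (norm_mul_le _ _).trans (mul_le_mul (hbn k) (hφn _) (norm_nonneg _) (by norm_num))⟩
  set ψ : G → (H →L[ℂ] H) := fun g => opM m (fun k => b k * φ (k * g)) with hψ
  have hψn : ∀ g, ‖ψ g - φ g‖ ≤ 5 / 4 * ε := fun g => opM_near hm (hbo g) _ (hnear g)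
  refine ⟨ψ, fun g => opM_mem hm N (hbo g) fun k => mul_mem (hbN k) (hN _), hψn, ?_⟩
  intro g h
  -- shifted family
  have hc : opM m (fun k => b (k * g) * φ (k * g * h)) = ψ h := opM_shift hm (hbo h) g
  have hcb : Bo (fun k => b (k * g) * φ (k * g * h)) := (hbo h).shift g
  have hd1 : Bo (fun k => (b k * φ (k * g) - ψ g)) := (hbo g).sub (Bo.const _)
  have hd2 : Bo (fun k => (b (k * g) * φ (k * g * h) - ψ h)) := hcb.sub (Bo.const _)
  have hprod : Bo (fun k => (b k * φ (k * g) - ψ g) * (b (k * g) * φ (k * g * h) - ψ h)) := by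
    obtain ⟨C, hC⟩ := hd1
    obtain ⟨D, hD⟩ := hd2
    exact ⟨C * D, fun k => (norm_mul_le _ _).trans (mul_le_mul (hC k) (hD k) (norm_nonneg _)
      ((norm_nonneg _).trans (hC k)))⟩
  have key : opM m (fun k => (b k * φ (k * g) - ψ g) * (b (k * g) * φ (k * g * h) - ψ h)) =
      ψ (g * h) - ψ g * ψ h := by
    have e1 : (fun k => (b k * φ (k * g) - ψ g) * (b (k * g) * φ (k * g * h) - ψ h)) =
        fun k => (b k * φ (k * (g * h)) - b k * φ (k * g) * ψ h) -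
          ((ψ g * (b (k * g) * φ (k * g * h))) - ψ g * ψ h) := by
      funext k
      have e2 : b k * φ (k * g) * (b (k * g) * φ (k * g * h)) = b k * φ (k * (g * h)) := by
        rw [mul_assoc (b k), ← mul_assoc (φ (k * g)), hb1, one_mul, mul_assoc k g h]
      rw [sub_mul, mul_sub, mul_sub, e2]
    rw [e1, opM_sub hm ((hbo (g * h)).sub ((hbo g).mulR _)) ((hcb.mulL _).sub (Bo.const _)),
      opM_sub hm (hbo (g * h)) ((hbo g).mulR _), opM_sub hm (hcb.mulL _) (Bo.const _),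
      opM_mulR hm (hbo g), opM_mulL hm hcb, opM_const hm, hc]
    simp [hψ]
  rw [← key]
  refine opM_norm hm fun k => (norm_mul_le _ _).trans ?_
  have n1 : ‖b k * φ (k * g) - ψ g‖ ≤ 5 / 2 * ε := by
    calc ‖b k * φ (k * g) - ψ g‖ = ‖(b k * φ (k * g) - φ g) - (ψ g - φ g)‖ := by congr 1; abel
      _ ≤ ‖b k * φ (k * g) - φ g‖ + ‖ψ g - φ g‖ := norm_sub_le _ _
      _ ≤ _ := by linarith [hnear g k, hψn g]
  have n2 : ‖b (k * g) * φ (k * g * h) - ψ h‖ ≤ 5 / 2 * ε := by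
    calc ‖b (k * g) * φ (k * g * h) - ψ h‖ =
        ‖(b (k * g) * φ (k * g * h) - φ h) - (ψ h - φ h)‖ := by congr 1; abel
      _ ≤ ‖b (k * g) * φ (k * g * h) - φ h‖ + ‖ψ h - φ h‖ := norm_sub_le _ _
      _ ≤ _ := by linarith [hnear h (k * g), hψn h]
  calc _ ≤ (5 / 2 * ε) * (5 / 2 * ε) := mul_le_mul n1 n2 (norm_nonneg _) (by positivity)
    _ ≤ 7 * ε ^ 2 := by nlinarith [sq_nonneg ε]

theorem ulam_hom (N : VonNeumannAlgebra H) (π : G → (H →L[ℂ] H))
    (hπm : ∀ g h, π (g * h) = π g * π h)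
    (hπs : ∀ g, star (π g) * π g = 1) (hπs' : ∀ g, π g * star (π g) = 1) (γ : ℝ)
    (hγ : γ ≤ 1 / 1000) (hnear : ∀ g, ∃ y ∈ N, ‖π g - y‖ ≤ γ) :
    ∃ ρ : G → (H →L[ℂ] H), (∀ g, ρ g ∈ N) ∧ (∀ g, ‖ρ g - π g‖ ≤ 11 * γ) ∧
      ∀ g h, ρ (g * h) = ρ g * ρ h := by
  have hγ0 : 0 ≤ γ := by
    obtain ⟨y, -, hy⟩ := hnear 1
    exact (norm_nonneg _).trans hy
  choose y hyN hy using hnear
  have hy' : ∀ g, ‖y g - π g‖ ≤ γ := fun g => by rw [norm_sub_rev]; exact hy g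
  let Q : ℕ → (G → (H →L[ℂ] H)) → Prop := fun n φ => (∀ g, φ g ∈ N) ∧
    (∀ g, ‖φ g - π g‖ ≤ 11 * γ - 10 * γ / 2 ^ n) ∧
    ∀ g h, ‖φ (g * h) - φ g * φ h‖ ≤ 4 * γ / 2 ^ n
  have step : ∀ n φ, Q n φ → ∃ ψ, Q (n + 1) ψ ∧ ∀ g, ‖ψ g - φ g‖ ≤ 5 * γ / 2 ^ n := by
    rintro n φ ⟨h1, h2, h3⟩
    have hp : (0 : ℝ) < 2 ^ n := by positivity
    have hp1 : (1 : ℝ) ≤ 2 ^ n := one_le_pow₀ (by norm_num)
    have hd0 : 0 ≤ γ / 2 ^ n := by positivity
    have hd1 : γ / 2 ^ n ≤ γ := div_le_self hγ0 hp1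
    obtain ⟨ψ, k1, k2, k3⟩ := ulam_step N π hπs hπs' φ h1 (fun g => (h2 g).trans (by
      have : 0 ≤ 10 * γ / 2 ^ n := by positivity
      linarith)) (4 * γ / 2 ^ n) h3
    have k2' : ∀ g, ‖ψ g - φ g‖ ≤ 5 * γ / 2 ^ n := fun g => (k2 g).trans (le_of_eq (by ring))
    refine ⟨ψ, ⟨k1, ?_, ?_⟩, k2'⟩
    · intro g
      calc ‖ψ g - π g‖ = ‖(ψ g - φ g) + (φ g - π g)‖ := by congr 1; abel
        _ ≤ ‖ψ g - φ g‖ + ‖φ g - π g‖ := norm_add_le _ _
        _ ≤ 5 * γ / 2 ^ n + (11 * γ - 10 * γ / 2 ^ n) := add_le_add (k2' g) (h2 g)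
        _ = 11 * γ - 10 * γ / 2 ^ (n + 1) := by rw [pow_succ]; field_simp; ring
    · intro g h
      refine (k3 g h).trans ?_
      have e1 : 4 * γ / 2 ^ (n + 1) = 2 * (γ / 2 ^ n) := by rw [pow_succ]; field_simp; ring
      have e2 : 4 * γ / 2 ^ n = 4 * (γ / 2 ^ n) := by ring
      rw [e1, e2]
      nlinarith
  choose! st hst1 hst2 using step
  let F : ℕ → G → (H →L[ℂ] H) := fun n => Nat.rec y (fun n φ => st n φ) n
  have hF0 : F 0 = y := rfl
  have hFs : ∀ n, F (n + 1) = st n (F n) := fun n => rfl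
  have hQ : ∀ n, Q n (F n) := by
    intro n
    induction n with
    | zero =>
      rw [hF0]
      refine ⟨hyN, fun g => (hy' g).trans (by simp; linarith), fun g h => ?_⟩
      have h1 : y (g * h) - y g * y h = (y (g * h) - π (g * h)) + (π g - y g) * π h +
          y g * (π h - y h) := by
        rw [hπm]
        noncomm_ring
      rw [h1]
      refine (norm_add₃_le).trans ?_
      have n1 := hy' (g * h)
      have n2 : ‖(π g - y g) * π h‖ ≤ γ * 1 := (norm_mul_le _ _).trans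
        (mul_le_mul (hy g) (norm_uni (hπs h)) (norm_nonneg _) hγ0)
      have n3 : ‖y g * (π h - y h)‖ ≤ (1 + γ) * γ := (norm_mul_le _ _).trans
        (mul_le_mul (norm_le_add (hy' g) (norm_uni (hπs g))) (hy h) (norm_nonneg _) (by linarith))
      simp only [pow_zero, div_one]
      nlinarith
    | succ n ih =>
      rw [hFs]
      exact hst1 n _ ih
  have hd : ∀ g n, dist (F n g) (F (n + 1) g) ≤ 10 * γ / 2 / 2 ^ n := by
    intro g n
    rw [dist_comm, dist_eq_norm, hFs]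
    refine (hst2 n _ (hQ n) g).trans (le_of_eq (by ring))
  have hcau : ∀ g, CauchySeq (fun n => F n g) := fun g => cauchySeq_of_le_geometric_two (hd g)
  choose ρ hρ using fun g => cauchySeq_tendsto_of_complete (hcau g)
  have hclosed : IsClosed (N : Set (H →L[ℂ] H)) := by
    rw [← VonNeumannAlgebra.centralizer_centralizer]
    exact Set.isClosed_centralizer _
  have h2n : Filter.Tendsto (fun n : ℕ => (2 : ℝ) ^ n) Filter.atTop Filter.atTop :=
    tendsto_pow_atTop_atTop_of_one_lt (by norm_num)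
  refine ⟨ρ, fun g => ?_, fun g => ?_, fun g h => ?_⟩
  · exact hclosed.mem_of_tendsto (hρ g) (Filter.Eventually.of_forall fun n => (hQ n).1 g)
  · refine le_of_tendsto ((hρ g).sub_const (π g)).norm (Filter.Eventually.of_forall fun n => ?_)
    refine ((hQ n).2.1 g).trans ?_
    have : 0 ≤ 10 * γ / 2 ^ n := by positivity
    linarith
  · have h1 : Filter.Tendsto (fun n => F n (g * h) - F n g * F n h) Filter.atTop
        (nhds (ρ (g * h) - ρ g * ρ h)) := (hρ _).sub ((hρ g).mul (hρ h))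
    have h2 : Filter.Tendsto (fun n => F n (g * h) - F n g * F n h) Filter.atTop (nhds 0) := by
      refine squeeze_zero_norm (fun n => (hQ n).2.2 g h) ?_
      exact Filter.Tendsto.div_atTop tendsto_const_nhds h2n
    exact sub_eq_zero.mp (tendsto_nhds_unique h1 h2)

/-- Close unitary representations into a von Neumann algebra are unitarily conjugated. -/
theorem ulam (N : VonNeumannAlgebra H) (π : G → (H →L[ℂ] H)) (hπ1 : π 1 = 1)
    (hπm : ∀ g h, π (g * h) = π g * π h)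
    (hπs : ∀ g, star (π g) * π g = 1) (hπs' : ∀ g, π g * star (π g) = 1) (γ : ℝ)
    (hγ : γ ≤ 1 / 1000) (hnear : ∀ g, ∃ y ∈ N, ‖π g - y‖ ≤ γ) :
    ∃ v : H →L[ℂ] H, star v * v = 1 ∧ v * star v = 1 ∧ ‖v - 1‖ ≤ 1000 * γ ∧
      (∀ g, v * π g * star v ∈ N) ∧
      ∀ T : H →L[ℂ] H, (∀ y ∈ N, T * y = y * T) → (∀ g, T * π g = π g * T) → T * v = v * T := by
  have hγ0 : 0 ≤ γ := by
    obtain ⟨y, -, hy⟩ := hnear 1
    exact (norm_nonneg _).trans hy
  obtain ⟨ρ, hρN, hρn, hρm⟩ := ulam_hom N π hπm hπs hπs' γ hγ hnear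
  obtain ⟨m, hm⟩ := exists_mn G
  have hπn : ∀ g, ‖π g‖ ≤ 1 := fun g => norm_uni (hπs g)
  have hρb : ∀ g, ‖ρ g‖ ≤ 1 + 11 * γ := fun g => norm_le_add (hρn g) (hπn g)
  have hρ1 : ρ 1 = 1 := by
    have h1 : ρ 1 * ρ 1 = ρ 1 := by rw [← hρm, mul_one]
    obtain ⟨b, hb1, -, -⟩ := inv1 (hπs 1) (hπs' 1) ((hρn 1).trans (by linarith))
    calc ρ 1 = ρ 1 * (ρ 1 * b) := by rw [hb1, mul_one]
      _ = ρ 1 * b := by rw [← mul_assoc, h1]
      _ = 1 := hb1
  -- the invariant positive operator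
  have hTb : Bo (fun g => star (ρ g) * ρ g) := ⟨(1 + 11 * γ) * (1 + 11 * γ), fun g =>
    (norm_mul_le _ _).trans (mul_le_mul (by rw [norm_star]; exact hρb g) (hρb g) (norm_nonneg _)
      (by linarith))⟩
  set T := opM m (fun g => star (ρ g) * ρ g) with hT
  have hTN : T ∈ N := opM_mem hm N hTb fun g => mul_mem (star_mem (hρN g)) (hρN g)
  have hTs : star T = T := by
    rw [hT, opM_star hm hTb]
    congr 1
    funext g
    simp
  have hTn : ‖T - 1‖ ≤ 23 * γ := by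
    refine opM_near hm hTb _ fun g => ?_
    have h1 : star (ρ g) * ρ g - 1 = star (ρ g) * (ρ g - π g) + star (ρ g - π g) * π g := by
      rw [← hπs g, star_sub]
      noncomm_ring
    rw [h1]
    refine (norm_add_le _ _).trans ?_
    have n1 : ‖star (ρ g) * (ρ g - π g)‖ ≤ (1 + 11 * γ) * (11 * γ) := (norm_mul_le _ _).trans
      (mul_le_mul (by rw [norm_star]; exact hρb g) (hρn g) (norm_nonneg _) (by linarith))
    have n2 : ‖star (ρ g - π g) * π g‖ ≤ (11 * γ) * 1 := (norm_mul_le _ _).trans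
      (mul_le_mul (by rw [norm_star]; exact hρn g) (hπn g) (norm_nonneg _) (by linarith))
    nlinarith
  have hTinv : ∀ h, star (ρ h) * T * ρ h = T := by
    intro h
    rw [hT, ← opM_mulL hm hTb, ← opM_mulR hm (hTb.mulL _)]
    conv_rhs => rw [← opM_shift hm hTb h]
    congr 1
    funext g
    rw [hρm, star_mul]
    noncomm_ring
  obtain ⟨r, s, hr, hs, hrr, hrs, hsr, hr1, hs1, hcomm⟩ := sqrt1 T hTs (hTn.trans (by linarith))
  have hrN : r ∈ N := mem_of_comm N _ fun t ht => (hcomm t (by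
    rw [VonNeumannAlgebra.mem_commutant_iff] at ht
    exact (ht T hTN).symm)).1
  have hsN : s ∈ N := mem_of_comm N _ fun t ht => (hcomm t (by
    rw [VonNeumannAlgebra.mem_commutant_iff] at ht
    exact (ht T hTN).symm)).2
  obtain ⟨σ, hσ⟩ : ∃ σ : G → (H →L[ℂ] H), ∀ g, σ g = r * ρ g * s := ⟨_, fun _ => rfl⟩
  have hσN : ∀ g, σ g ∈ N := fun g => by rw [hσ]; exact mul_mem (mul_mem hrN (hρN g)) hsN
  have hσs : ∀ g, star (σ g) * σ g = 1 := by
    intro g
    rw [hσ, star_mul, star_mul, hr, hs]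
    calc s * (star (ρ g) * r) * (r * ρ g * s) = s * (star (ρ g) * (r * r) * ρ g) * s := by
          noncomm_ring
      _ = s * T * s := by rw [hrr, hTinv]
      _ = 1 := by rw [← hrr, mul_assoc, mul_assoc, hrs, mul_one, hsr]
  have hσm : ∀ g h, σ (g * h) = σ g * σ h := by
    intro g h
    rw [hσ, hσ, hσ]
    calc r * ρ (g * h) * s = r * ρ g * (1 : H →L[ℂ] H) * ρ h * s := by rw [hρm]; noncomm_ring
      _ = r * ρ g * (s * r) * ρ h * s := by rw [hsr]
      _ = _ := by noncomm_ring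
  have hσ1 : σ 1 = 1 := by rw [hσ, hρ1, mul_one, hrs]
  have hσs' : ∀ g, σ g * star (σ g) = 1 := by
    intro g
    have h1 : σ g * σ g⁻¹ = 1 := by rw [← hσm, mul_inv_cancel, hσ1]
    have h2 : star (σ g) = σ g⁻¹ := by
      calc star (σ g) = star (σ g) * (σ g * σ g⁻¹) := by rw [h1, mul_one]
        _ = σ g⁻¹ := by rw [← mul_assoc, hσs, one_mul]
    rw [h2, h1]
  have hsn : ‖s - 1‖ ≤ 46 * γ := by linarith
  have hrn' : ‖r - 1‖ ≤ 23 * γ := by linarith
  have hsb : ‖s‖ ≤ 1 + 46 * γ := norm_le_add hsn norm_one_le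
  have hσn : ∀ g, ‖σ g - π g‖ ≤ 90 * γ := by
    intro g
    have h1 : σ g - π g = (r - 1) * (ρ g * s) + (ρ g - π g) * s + π g * (s - 1) := by
      rw [hσ]
      noncomm_ring
    rw [h1]
    refine (norm_add₃_le).trans ?_
    have n0 : ‖ρ g * s‖ ≤ (1 + 11 * γ) * (1 + 46 * γ) := (norm_mul_le _ _).trans
      (mul_le_mul (hρb g) hsb (norm_nonneg _) (by linarith))
    have n1 : ‖(r - 1) * (ρ g * s)‖ ≤ (23 * γ) * ((1 + 11 * γ) * (1 + 46 * γ)) :=
      (norm_mul_le _ _).trans (mul_le_mul hrn' n0 (norm_nonneg _) (by linarith))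
    have n2 : ‖(ρ g - π g) * s‖ ≤ (11 * γ) * (1 + 46 * γ) := (norm_mul_le _ _).trans
      (mul_le_mul (hρn g) hsb (norm_nonneg _) (by linarith))
    have n3 : ‖π g * (s - 1)‖ ≤ 1 * (46 * γ) := (norm_mul_le _ _).trans
      (mul_le_mul (hπn g) hsn (norm_nonneg _) (by norm_num))
    have e1 : (1 + 11 * γ) * (1 + 46 * γ) ≤ 1.1 := by nlinarith
    have e2 : (23 * γ) * ((1 + 11 * γ) * (1 + 46 * γ)) ≤ (23 * γ) * 1.1 :=
      mul_le_mul_of_nonneg_left e1 (by linarith)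
    nlinarith
  -- the intertwiner
  have hSb : Bo (fun g => star (σ g) * π g) := ⟨1 * 1, fun g => (norm_mul_le _ _).trans
    (mul_le_mul (by rw [norm_star]; exact norm_uni (hσs g)) (hπn g) (norm_nonneg _)
      (by norm_num))⟩
  set S := opM m (fun g => star (σ g) * π g) with hS
  have hSn : ‖S - 1‖ ≤ 90 * γ := by
    refine opM_near hm hSb _ fun g => ?_
    have h1 : star (σ g) * π g - 1 = star (σ g - π g) * π g := by
      rw [star_sub, sub_mul, hπs]
    rw [h1]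
    refine (norm_mul_le _ _).trans ?_
    rw [norm_star]
    have := hσn g
    have := hπn g
    nlinarith [norm_nonneg (σ g - π g), norm_nonneg (π g)]
  have hSinv : ∀ h, star (σ h) * S * π h = S := by
    intro h
    rw [hS, ← opM_mulL hm hSb, ← opM_mulR hm (hSb.mulL _)]
    conv_rhs => rw [← opM_shift hm hSb h]
    congr 1
    funext g
    rw [hσm, hπm, star_mul]
    simp only [mul_assoc]
  have hSint : ∀ h, S * π h = σ h * S := by
    intro h
    calc S * π h = (σ h * star (σ h)) * S * π h := by rw [hσs', one_mul]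
      _ = σ h * (star (σ h) * S * π h) := by noncomm_ring
      _ = σ h * S := by rw [hSinv]
  obtain ⟨v, w, hv, hw, hvv, hvv', hv1, hcw⟩ := polar1 S (hSn.trans (by linarith))
  have hSst : ∀ h, star S * σ h = π h * star S := by
    intro h
    have h1 : star (π h) * star S = star S * star (σ h) := by
      rw [← star_mul, hSint, star_mul]
    calc star S * σ h = (π h * star (π h)) * star S * σ h := by rw [hπs', one_mul]
      _ = π h * (star (π h) * star S) * σ h := by noncomm_ring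
      _ = π h * star S * (star (σ h) * σ h) := by rw [h1]; noncomm_ring
      _ = π h * star S := by rw [hσs, mul_one]
  have hwπ : ∀ h, π h * w = w * π h := by
    intro h
    refine hcw _ ?_
    rw [← mul_assoc, ← hSst, mul_assoc, mul_assoc, hSint]
  refine ⟨v, hvv, hvv', by linarith, fun g => ?_, fun t ht1 ht2 => ?_⟩
  · have h1 : v * π g = σ g * v := by
      rw [hv, mul_assoc, ← hwπ, ← mul_assoc, hSint, mul_assoc]
    rw [h1, mul_assoc, hvv', mul_one]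
    exact hσN g
  · have hinv : ∀ g, star (π g) = π g⁻¹ := by
      intro g
      calc star (π g) = star (π g) * (π g * π g⁻¹) := by rw [← hπm, mul_inv_cancel, hπ1, mul_one]
        _ = π g⁻¹ := by rw [← mul_assoc, hπs, one_mul]
    have h1 : t * S = S * t := by
      refine opM_comm hm hSb t fun g => ?_
      rw [← mul_assoc, ht1 _ (star_mem (hσN g)), mul_assoc, ht2, mul_assoc]
    have h2 : t * star S = star S * t := by
      rw [hS, opM_star hm hSb]
      refine opM_comm hm hSb.star t fun g => ?_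
      rw [star_mul, star_star, hinv, ← mul_assoc, ht2, mul_assoc, ht1 _ (hσN g), mul_assoc]
    have h3 : t * w = w * t := by
      refine hcw t ?_
      rw [← mul_assoc, h2, mul_assoc, h1, mul_assoc]
    rw [hv, ← mul_assoc, h1, mul_assoc, h3, mul_assoc]

end

end V11111.CC
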